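import Pool.Agent.Lib.MP_5c10a1_co.Spec

/-!
# MP_5c10a1_co: the volume of the part of a box below a hyperplane
-/

set_option autoImplicit false

namespace Pool.Agent.Ssg

open MeasureTheory Set

namespace BoxP

/-! ### The functions `pw` and `G` -/

theorem pw_nonneg (k : ℕ) (x : ℝ) : 0 ≤ pw k x := by
  rw [pw]
  split_ifs with h
  · positivity
  · exact le_rfl

theorem pw_mono (k : ℕ) : Monotone (pw k) := by
  intro x y hxy
  by_cases hx : 0 ≤ x
  · rw [pw, pw, if_pos hx, if_pos (hx.trans hxy)]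
    gcongr
  · rw [pw, if_neg hx]
    exact pw_nonneg k y

theorem pw_succ_eq (k : ℕ) (x : ℝ) : pw (k + 1) x = (max x 0) ^ (k + 1) / (k + 1).factorial := by
  by_cases hx : 0 ≤ x
  · rw [pw, if_pos hx, max_eq_left hx]
  · rw [pw, if_neg hx, max_eq_right (le_of_not_ge hx), zero_pow (Nat.succ_ne_zero k), zero_div]

theorem pw_cont (k : ℕ) : Continuous (pw (k + 1)) := by
  have h : pw (k + 1) = fun x => (max x 0) ^ (k + 1) / ((k + 1).factorial : ℝ) :=
    funext fun x => pw_succ_eq k x
  rw [h]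
  fun_prop

theorem pw_deriv (k : ℕ) (x : ℝ) : HasDerivWithinAt (pw (k + 1)) (pw k x) (Ioi x) x := by
  by_cases hx : 0 ≤ x
  · have h1 : HasDerivAt (fun y : ℝ => y ^ (k + 1) / ((k + 1).factorial : ℝ)) (pw k x) x := by
      have h2 := (hasDerivAt_pow (k + 1) x).div_const ((k + 1).factorial : ℝ)
      have h3 : ((k + 1 : ℕ) : ℝ) * x ^ (k + 1 - 1) / ((k + 1).factorial : ℝ) = pw k x := by
        rw [pw, if_pos hx, Nat.add_sub_cancel, Nat.factorial_succ, Nat.cast_mul]
        have : ((k + 1 : ℕ) : ℝ) ≠ 0 := by positivity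
        field_simp
      rwa [h3] at h2
    refine (h1.hasDerivWithinAt).congr (fun y hy => ?_) ?_
    · rw [pw, if_pos (hx.trans (le_of_lt hy))]
    · rw [pw, if_pos hx]
  · have h0 : pw k x = 0 := by rw [pw, if_neg hx]
    rw [h0]
    have h1 : HasDerivAt (pw (k + 1)) 0 x := by
      have h2 : HasDerivAt (fun _ : ℝ => (0 : ℝ)) 0 x := hasDerivAt_const x 0
      refine h2.congr_of_eventuallyEq ?_
      filter_upwards [Iio_mem_nhds (lt_of_not_ge hx)] with y hy
      rw [pw, if_neg (not_le.2 hy)]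
    exact h1.hasDerivWithinAt

theorem G_cont : ∀ (l : List ℝ) (k : ℕ), Continuous (G l (k + 1))
  | [], k => pw_cont k
  | (t :: l), k => by
    have h1 := G_cont l (k + 1)
    have h2 : G (t :: l) (k + 1) = fun x => G l (k + 1 + 1) x - G l (k + 1 + 1) (x - t) := rfl
    rw [h2]
    exact h1.sub (h1.comp (continuous_id.sub continuous_const))

theorem G_deriv : ∀ (l : List ℝ) (k : ℕ) (x : ℝ),
    HasDerivWithinAt (G l (k + 1)) (G l k x) (Ioi x) x
  | [], k, x => pw_deriv k x
  | (t :: l), k, x => by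
    have h1 := G_deriv l (k + 1) x
    have h2 := G_deriv l (k + 1) (x - t)
    have h3 : HasDerivWithinAt (fun y => G l (k + 1 + 1) (y - t)) (G l (k + 1) (x - t)) (Ioi x)
        x := by
      have h4 : HasDerivWithinAt (fun y : ℝ => y - t) 1 (Ioi x) x :=
        ((hasDerivAt_id x).sub_const t).hasDerivWithinAt
      have h5 := HasDerivWithinAt.comp x h2 h4 (fun y hy => by
        change x - t < y - t
        have : x < y := hy
        linarith)
      rwa [mul_one] at h5
    exact h1.sub h3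

theorem G_int (l : List ℝ) (k : ℕ) (a b : ℝ) : IntervalIntegrable (G l k) volume a b := by
  cases l with
  | nil => exact (pw_mono k).intervalIntegrable
  | cons t l =>
    have h1 := G_cont l k
    have h2 : G (t :: l) k = fun x => G l (k + 1) x - G l (k + 1) (x - t) := rfl
    rw [h2]
    exact (h1.sub (h1.comp (continuous_id.sub continuous_const))).intervalIntegrable a b

theorem G_integral (l : List ℝ) (k : ℕ) (t b : ℝ) :
    ∫ u in (0)..t, G l k (b - u) = G l (k + 1) b - G l (k + 1) (b - t) := by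
  rw [intervalIntegral.integral_comp_sub_left (fun x => G l k x) b, sub_zero]
  exact intervalIntegral.integral_eq_sub_of_hasDeriv_right (G_cont l k).continuousOn
    (fun x _ => G_deriv l k x) (G_int l k _ _)

theorem G_nonneg : ∀ (l : List ℝ) (k : ℕ) (b : ℝ), (∀ t ∈ l, 0 ≤ t) → 0 ≤ G l k b
  | [], k, b, _ => pw_nonneg k b
  | (t :: l), k, b, h => by
    change 0 ≤ G l (k + 1) b - G l (k + 1) (b - t)
    rw [← G_integral l k t b]
    exact intervalIntegral.integral_nonneg (h t List.mem_cons_self) fun u _ =>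
      G_nonneg l k (b - u) fun s hs => h s (List.mem_cons_of_mem t hs)

/-! ### The volume -/

/-- The part of the box. -/
def bx {n : ℕ} (t : Fin n → ℝ) (b : ℝ) : Set (Fin n → ℝ) :=
  {q : Fin n → ℝ | (∀ i, 0 ≤ q i ∧ q i ≤ t i) ∧ ∑ i, q i ≤ b}

theorem bx_closed {n : ℕ} (t : Fin n → ℝ) (b : ℝ) : IsClosed (bx t b) := by
  have h1 : bx t b = (⋂ i, {q : Fin n → ℝ | 0 ≤ q i}) ∩ (⋂ i, {q : Fin n → ℝ | q i ≤ t i}) ∩
      {q : Fin n → ℝ | ∑ i, q i ≤ b} := by
    ext q
    simp only [bx, mem_inter_iff, mem_iInter, mem_ofPred_eq]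
    exact ⟨fun h => ⟨⟨fun i => (h.1 i).1, fun i => (h.1 i).2⟩, h.2⟩,
      fun h => ⟨fun i => ⟨h.1.1 i, h.1.2 i⟩, h.2⟩⟩
  rw [h1]
  refine ((isClosed_iInter fun i => ?_).inter (isClosed_iInter fun i => ?_)).inter ?_
  · exact isClosed_le continuous_const (continuous_apply i)
  · exact isClosed_le (continuous_apply i) continuous_const
  · exact isClosed_le (by fun_prop) continuous_const

theorem vol : ∀ (n : ℕ) (t : Fin n → ℝ), (∀ i, 0 ≤ t i) → ∀ b : ℝ,
    volume (bx t b) = ENNReal.ofReal (G (List.ofFn t) 0 b) := by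
  intro n
  induction n with
  | zero =>
    intro t _ b
    have h1 : G (List.ofFn t) 0 b = if 0 ≤ b then 1 else 0 := by
      rw [List.ofFn_zero, G, pw]
      simp
    rw [h1]
    by_cases hb : 0 ≤ b
    · have h2 : bx t b = univ := by
        ext q
        simp only [bx, mem_ofPred_eq, mem_univ, iff_true]
        exact ⟨fun i => i.elim0, by simpa using hb⟩
      rw [h2, if_pos hb, ENNReal.ofReal_one]
      simp [volume_pi]
    · have h2 : bx t b = ∅ := by
        ext q
        simp only [bx, mem_ofPred_eq, mem_empty_iff_false, iff_false]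
        rintro ⟨-, h3⟩
        exact hb (by simpa using h3)
      rw [h2, if_neg hb, ENNReal.ofReal_zero, measure_empty]
  | succ n ih =>
    intro t ht b
    have hl : ∀ s ∈ List.ofFn (fun i : Fin n => t i.succ), 0 ≤ s := by
      intro s hs
      rw [List.mem_ofFn] at hs
      obtain ⟨i, rfl⟩ := hs
      exact ht _
    set e := MeasurableEquiv.piFinSuccAbove (fun _ : Fin (n + 1) => ℝ) 0 with he
    set S : Set (ℝ × (Fin n → ℝ)) := {p | (0 ≤ p.1 ∧ p.1 ≤ t 0) ∧
      p.2 ∈ bx (fun i : Fin n => t i.succ) (b - p.1)} with hS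
    have h1 : bx t b = e ⁻¹' S := by
      ext q
      simp only [hS, he, bx, mem_preimage, mem_ofPred_eq, MeasurableEquiv.piFinSuccAbove_apply,
        Fin.insertNthEquiv_zero, Fin.consEquiv_symm_apply, Fin.forall_fin_succ, Fin.sum_univ_succ,
        Fin.tail]
      constructor
      · rintro ⟨⟨h2, h3⟩, h4⟩
        exact ⟨h2, h3, by linarith⟩
      · rintro ⟨h2, h3, h4⟩
        exact ⟨⟨h2, h3⟩, by linarith⟩
    have hcl : IsClosed S := by
      have h2 : S = {p : ℝ × (Fin n → ℝ) | 0 ≤ p.1} ∩ {p | p.1 ≤ t 0} ∩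
          ((⋂ i, {p : ℝ × (Fin n → ℝ) | 0 ≤ p.2 i}) ∩ (⋂ i, {p | p.2 i ≤ t i.succ}) ∩
            {p | ∑ i, p.2 i ≤ b - p.1}) := by
        ext p
        simp only [hS, bx, mem_inter_iff, mem_iInter, mem_ofPred_eq]
        exact ⟨fun h => ⟨h.1, ⟨fun i => (h.2.1 i).1, fun i => (h.2.1 i).2⟩, h.2.2⟩,
          fun h => ⟨h.1, fun i => ⟨h.2.1.1 i, h.2.1.2 i⟩, h.2.2⟩⟩
      rw [h2]
      refine ((isClosed_le continuous_const continuous_fst).inter
        (isClosed_le continuous_fst continuous_const)).inter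
        (((isClosed_iInter fun i => ?_).inter (isClosed_iInter fun i => ?_)).inter ?_)
      · exact isClosed_le continuous_const (by fun_prop)
      · exact isClosed_le (by fun_prop) continuous_const
      · exact isClosed_le (by fun_prop) (by fun_prop)
    rw [h1, (volume_preserving_piFinSuccAbove (fun _ : Fin (n + 1) => ℝ) 0).measure_preimage
      hcl.measurableSet.nullMeasurableSet, Measure.volume_eq_prod,
      Measure.prod_apply hcl.measurableSet]
    have h3 : ∀ u : ℝ, volume (Prod.mk u ⁻¹' S) = (Icc 0 (t 0)).indicator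
        (fun u => ENNReal.ofReal (G (List.ofFn fun i : Fin n => t i.succ) 0 (b - u))) u := by
      intro u
      by_cases hu : u ∈ Icc 0 (t 0)
      · rw [indicator_of_mem hu, ← ih _ (fun i => ht _)]
        congr 1
        ext q
        simp only [hS, mem_preimage, mem_ofPred_eq]
        exact ⟨fun h => h.2, fun h => ⟨hu, h⟩⟩
      · rw [indicator_of_notMem hu]
        have : Prod.mk u ⁻¹' S = ∅ := by
          ext q
          simp only [hS, mem_preimage, mem_ofPred_eq, mem_empty_iff_false, iff_false]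
          exact fun h => hu h.1
        rw [this, measure_empty]
    rw [lintegral_congr h3, lintegral_indicator measurableSet_Icc]
    have h4 : IntegrableOn (fun u => G (List.ofFn fun i : Fin n => t i.succ) 0 (b - u))
        (Icc 0 (t 0)) := by
      have h5 : IntervalIntegrable (fun u => G (List.ofFn fun i : Fin n => t i.succ) 0 (b - u))
          volume 0 (t 0) := by
        have := (G_int (List.ofFn fun i : Fin n => t i.succ) 0 b (b - t 0)).comp_sub_left b
        rwa [sub_self, sub_sub_cancel] at this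
      rw [integrableOn_Icc_iff_integrableOn_Ioc]
      exact (intervalIntegrable_iff_integrableOn_Ioc_of_le (ht 0)).1 h5
    rw [← ofReal_integral_eq_lintegral_ofReal h4 (Filter.Eventually.of_forall fun u =>
      G_nonneg _ _ _ hl), integral_Icc_eq_integral_Ioc, ← intervalIntegral.integral_of_le (ht 0),
      G_integral, List.ofFn_succ]
    rfl

theorem hyp {n : ℕ} (a : ℝ) : volume {q : Fin (n + 1) → ℝ | ∑ i, q i = a} = 0 := by
  set e := MeasurableEquiv.piFinSuccAbove (fun _ : Fin (n + 1) => ℝ) 0 with he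
  have h1 : {q : Fin (n + 1) → ℝ | ∑ i, q i = a} = e ⁻¹' {p | p.1 + ∑ i, p.2 i = a} := by
    ext q
    simp only [he, mem_preimage, mem_ofPred_eq, MeasurableEquiv.piFinSuccAbove_apply,
      Fin.insertNthEquiv_zero, Fin.consEquiv_symm_apply, Fin.sum_univ_succ, Fin.tail]
  have h2 : IsClosed {p : ℝ × (Fin n → ℝ) | p.1 + ∑ i, p.2 i = a} :=
    isClosed_eq (by fun_prop) continuous_const
  rw [h1, (volume_preserving_piFinSuccAbove (fun _ : Fin (n + 1) => ℝ) 0).measure_preimage
    h2.measurableSet.nullMeasurableSet, Measure.volume_eq_prod,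
    Measure.prod_apply_symm h2.measurableSet]
  have h3 : ∀ y : Fin n → ℝ, volume ((fun x : ℝ => (x, y)) ⁻¹'
      {p : ℝ × (Fin n → ℝ) | p.1 + ∑ i, p.2 i = a}) = 0 := by
    intro y
    have : (fun x : ℝ => (x, y)) ⁻¹' {p : ℝ × (Fin n → ℝ) | p.1 + ∑ i, p.2 i = a} =
        {a - ∑ i, y i} := by
      ext x
      simp only [mem_preimage, mem_ofPred_eq, mem_singleton_iff]
      constructor <;> intro h <;> linarith
    rw [this, Real.volume_singleton]
  rw [lintegral_congr h3, lintegral_zero]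

end BoxP

/-- The volume of the part of a box below a hyperplane. -/
theorem tBox : S_Box := by
  refine ⟨fun n t ht b => BoxP.vol n t ht b, fun n t ht a b hab => ?_⟩
  have hl : ∀ s ∈ List.ofFn t, 0 ≤ s := by
    intro s hs
    rw [List.mem_ofFn] at hs
    obtain ⟨i, rfl⟩ := hs
    exact ht _
  have h1 := BoxP.vol (n + 1) t ht a
  have h2 := BoxP.vol (n + 1) t ht b
  have hsub : BoxP.bx t a ⊆ BoxP.bx t b := fun q hq => ⟨hq.1, hq.2.trans hab⟩
  have h3 : volume (BoxP.bx t b \ BoxP.bx t a) =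
      ENNReal.ofReal (G (List.ofFn t) 0 b - G (List.ofFn t) 0 a) := by
    rw [measure_sdiff hsub (BoxP.bx_closed t a).measurableSet.nullMeasurableSet
      (by rw [h1]; exact ENNReal.ofReal_ne_top), h1, h2,
      ENNReal.ofReal_sub _ (BoxP.G_nonneg _ _ _ hl)]
  rw [← h3]
  refine le_antisymm ?_ (measure_mono fun q hq => ?_)
  · calc volume {q : Fin (n + 1) → ℝ | (∀ i, 0 ≤ q i ∧ q i ≤ t i) ∧ a ≤ ∑ i, q i ∧
          ∑ i, q i ≤ b} ≤ volume ((BoxP.bx t b \ BoxP.bx t a) ∪
          {q : Fin (n + 1) → ℝ | ∑ i, q i = a}) := by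
          refine measure_mono fun q hq => ?_
          by_cases h : ∑ i, q i = a
          · exact Or.inr h
          · refine Or.inl ⟨⟨hq.1, hq.2.2⟩, fun h' => h (le_antisymm h'.2 hq.2.1)⟩
      _ ≤ volume (BoxP.bx t b \ BoxP.bx t a) +
          volume {q : Fin (n + 1) → ℝ | ∑ i, q i = a} := measure_union_le _ _
      _ = volume (BoxP.bx t b \ BoxP.bx t a) := by rw [BoxP.hyp, add_zero]
  · refine ⟨hq.1.1, ?_, hq.1.2⟩
    by_contra h
    exact hq.2 ⟨hq.1.1, le_of_not_ge h⟩

end Pool.Agent.Ssg
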