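import Pool.Agent.Lib.MP_5c10a1_co.Spec

/-!
# Module Cap: the volume of the hull of two balls
-/

set_option autoImplicit false

namespace Pool.Agent.Ssg

open MeasureTheory Metric

namespace CapM

theorem vol_ball4 : volume (closedBall (0 : E) 1) = ENNReal.ofReal (Real.pi ^ 2 / 2) := by
  rw [EuclideanSpace.volume_closedBall]
  rw [ENNReal.ofReal_one, one_pow, one_mul]
  have h1 : (√Real.pi) ^ (Fintype.card (Fin 4)) = Real.pi ^ 2 := by
    rw [Fintype.card_fin]
    calc √Real.pi ^ 4 = (√Real.pi ^ 2) ^ 2 := by ring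
      _ = Real.pi ^ 2 := by rw [Real.sq_sqrt Real.pi_pos.le]
  have h2 : Real.Gamma ((Fintype.card (Fin 4) : ℝ) / 2 + 1) = 2 := by
    rw [Fintype.card_fin]
    have h3 : ((4 : ℕ) : ℝ) / 2 + 1 = ((2 : ℕ) : ℝ) + 1 := by norm_num
    rw [h3, Real.Gamma_nat_eq_factorial]
    norm_num [Nat.factorial]
  rw [h1, h2]

def H1 : Set E := {x | ‖x‖ ≤ 1 ∧ x 0 ≤ 0}

def H2 : Set E := {x | ‖x‖ ≤ 1 ∧ 0 < x 0}

def H3 (L : ℝ) : Set E := {x | (0 < x 0 ∧ x 0 ≤ L) ∧ x 1 ^ 2 + x 2 ^ 2 + x 3 ^ 2 ≤ 1}

def B3 : Set (Fin 3 → ℝ) := {y | y 0 ^ 2 + y 1 ^ 2 + y 2 ^ 2 ≤ 1}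

theorem meas_c (i : Fin 4) : Measurable (fun x : E => x i) := by fun_prop

theorem meas_H1 : MeasurableSet H1 :=
  (measurableSet_le measurable_norm measurable_const).inter
    (measurableSet_le (meas_c 0) measurable_const)

theorem meas_H2 : MeasurableSet H2 :=
  (measurableSet_le measurable_norm measurable_const).inter
    (measurableSet_lt measurable_const (meas_c 0))

theorem meas_H3 (L : ℝ) : MeasurableSet (H3 L) :=
  ((measurableSet_lt measurable_const (meas_c 0)).inter
    (measurableSet_le (meas_c 0) measurable_const)).inter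
    (measurableSet_le ((((meas_c 1).pow_const 2).add ((meas_c 2).pow_const 2)).add
      ((meas_c 3).pow_const 2)) measurable_const)

theorem meas_B3 : MeasurableSet B3 :=
  measurableSet_le ((((measurable_pi_apply 0).pow_const 2).add
    ((measurable_pi_apply 1).pow_const 2)).add ((measurable_pi_apply 2).pow_const 2))
    measurable_const

theorem vol_H12 : volume H1 + volume H2 = ENNReal.ofReal (Real.pi ^ 2 / 2) := by
  rw [← vol_ball4, ← measure_union _ meas_H2]
  · congr 1
    ext x
    rw [mem_closedBall_zero_iff]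
    constructor
    · rintro (h | h)
      · exact h.1
      · exact h.1
    · intro h
      rcases le_or_gt (x 0) 0 with h1 | h1
      · exact Or.inl ⟨h, h1⟩
      · exact Or.inr ⟨h, h1⟩
  · rw [Set.disjoint_left]
    rintro x ⟨-, h1⟩ ⟨-, h2⟩
    exact absurd h1 (not_le.2 h2)

theorem vol_B3 : volume B3 = ENNReal.ofReal (Real.pi * 4 / 3) := by
  have h1 := (PiLp.volume_preserving_ofLp (Fin 3)).measure_preimage meas_B3.nullMeasurableSet
  have h2 : WithLp.ofLp ⁻¹' B3 = closedBall (0 : EuclideanSpace ℝ (Fin 3)) 1 := by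
    rw [EuclideanSpace.closedBall_zero_eq 1 zero_le_one]
    ext x
    rw [Set.mem_preimage, Set.mem_setOf_eq, Fin.sum_univ_three, one_pow]
    exact Iff.rfl
  rw [← h1, h2, EuclideanSpace.volume_closedBall_fin_three, ENNReal.ofReal_one, one_pow, one_mul]

theorem vol_H3 (L : ℝ) : volume (H3 L) = ENNReal.ofReal L * ENNReal.ofReal (Real.pi * 4 / 3) := by
  have hm : MeasurableSet (Set.Ioc (0 : ℝ) L ×ˢ B3) := measurableSet_Ioc.prod meas_B3
  have h1 := (volume_preserving_piFinSuccAbove (fun _ : Fin 4 => ℝ) 0).measure_preimage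
    hm.nullMeasurableSet
  have h2 := (PiLp.volume_preserving_ofLp (Fin 4)).measure_preimage
    ((MeasurableEquiv.piFinSuccAbove (fun _ : Fin 4 => ℝ) 0).measurable hm).nullMeasurableSet
  have h3 : WithLp.ofLp ⁻¹' ((MeasurableEquiv.piFinSuccAbove (fun _ : Fin 4 => ℝ) 0) ⁻¹'
      (Set.Ioc (0 : ℝ) L ×ˢ B3)) = H3 L := by
    ext x
    exact Iff.rfl
  rw [← h3, h2, h1, Measure.volume_eq_prod, Measure.prod_prod, Real.volume_Ioc, sub_zero, vol_B3]

/-- The point `L e`. -/
noncomputable def w (L : ℝ) : E := EuclideanSpace.single 0 L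

theorem vol_K (L : ℝ) (hL : 0 ≤ L) :
    ENNReal.ofReal (Real.pi ^ 2 / 2 + 4 * Real.pi / 3 * L) ≤
      volume (H1 ∪ (H3 L ∪ (fun x : E => x + -(w L)) ⁻¹' H2)) := by
  have hm2 : MeasurableSet ((fun x : E => x + -(w L)) ⁻¹' H2) :=
    (measurable_add_const _) meas_H2
  have hw : ∀ x : E, (x + -(w L)) 0 = x 0 - L := by
    intro x
    change x 0 + -(w L 0) = x 0 - L
    have : w L 0 = L := by simp [w]
    rw [this]
    ring
  rw [measure_union _ ((meas_H3 L).union hm2), measure_union _ hm2,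
    measure_preimage_add_right, vol_H3]
  · have h1 : volume H1 + (ENNReal.ofReal L * ENNReal.ofReal (Real.pi * 4 / 3) + volume H2) =
        (volume H1 + volume H2) + ENNReal.ofReal L * ENNReal.ofReal (Real.pi * 4 / 3) := by ring
    rw [h1, vol_H12, ← ENNReal.ofReal_mul hL,
      ← ENNReal.ofReal_add (by positivity) (by positivity)]
    apply le_of_eq
    congr 1
    ring
  · rw [Set.disjoint_left]
    rintro x ⟨⟨-, h1⟩, -⟩ ⟨-, h2⟩
    rw [hw] at h2
    linarith
  · rw [Set.disjoint_left]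
    rintro x ⟨-, h1⟩ (⟨⟨h2, -⟩, -⟩ | ⟨-, h2⟩)
    · linarith
    · rw [hw] at h2
      linarith

end CapM

open CapM in
theorem tCap : S_Cap := by
  intro a b
  set L : ℝ := dist a b with hLdef
  have hL : 0 ≤ L := dist_nonneg
  -- the isometry
  have hnorm : ‖b - a‖ = ‖w L‖ := by
    rw [w, EuclideanSpace.norm_single, Real.norm_of_nonneg hL, hLdef, dist_comm, dist_eq_norm]
  obtain ⟨f, hf⟩ : ∃ f : E ≃ₗᵢ[ℝ] E, f (b - a) = w L :=
    ⟨_, Submodule.reflection_sub hnorm⟩
  have hf' : f.symm (w L) = b - a := by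
    rw [← hf, LinearIsometryEquiv.symm_apply_apply]
  have hmp : MeasurePreserving (fun y : E => a + f.symm y) volume volume :=
    (measurePreserving_add_left volume a).comp f.symm.measurePreserving
  have hle : volume ((fun y : E => a + f.symm y) ⁻¹'
      (convexHull ℝ (closedBall a 1 ∪ closedBall b 1))) ≤
      volume (convexHull ℝ (closedBall a 1 ∪ closedBall b 1)) := by
    have h1 := Measure.le_map_apply (μ := (volume : Measure E)) hmp.measurable.aemeasurable
      (convexHull ℝ (closedBall a 1 ∪ closedBall b 1))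
    rw [hmp.map_eq] at h1
    exact h1
  refine le_trans (vol_K L hL) (le_trans (measure_mono ?_) hle)
  have hA : ∀ y : E, ‖y‖ ≤ 1 → a + f.symm y ∈ convexHull ℝ (closedBall a 1 ∪ closedBall b 1) := by
    intro y hy
    apply subset_convexHull
    left
    rw [mem_closedBall, dist_eq_norm, add_sub_cancel_left, LinearIsometryEquiv.norm_map]
    exact hy
  have hB : ∀ y : E, ‖y - w L‖ ≤ 1 →
      a + f.symm y ∈ convexHull ℝ (closedBall a 1 ∪ closedBall b 1) := by
    intro y hy
    apply subset_convexHull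
    right
    have h1 : a + f.symm y - b = f.symm (y - w L) := by
      rw [map_sub, hf']
      abel
    rw [mem_closedBall, dist_eq_norm, h1, LinearIsometryEquiv.norm_map]
    exact hy
  rintro y (h | h | h)
  · exact hA y h.1
  · obtain ⟨⟨h0, h1⟩, h2⟩ := h
    have hLp : 0 < L := lt_of_lt_of_le h0 h1
    set s : ℝ := y 0 / L with hs
    have hs0 : 0 ≤ s := div_nonneg h0.le hL
    have hs1 : s ≤ 1 := (div_le_one hLp).2 h1
    set y' : E := y - s • w L with hy'
    have hw0 : w L 0 = L := by simp [w]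
    have hwi : ∀ i : Fin 4, i ≠ 0 → w L i = 0 := by
      intro i hi
      simp [w, hi]
    have hy0 : y' 0 = 0 := by
      rw [hy']
      change y 0 - s * w L 0 = 0
      rw [hw0, hs, div_mul_cancel₀ _ hLp.ne', sub_self]
    have hyi : ∀ i : Fin 4, i ≠ 0 → y' i = y i := by
      intro i hi
      rw [hy']
      change y i - s * w L i = y i
      rw [hwi i hi, mul_zero, sub_zero]
    have hn : ‖y'‖ ≤ 1 := by
      rw [← mem_closedBall_zero_iff, EuclideanSpace.closedBall_zero_eq 1 zero_le_one,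
        Set.mem_setOf_eq, Fin.sum_univ_four, hy0, hyi 1 (by decide), hyi 2 (by decide),
        hyi 3 (by decide)]
      linarith
    have hn2 : ‖(y' + w L) - w L‖ ≤ 1 := by
      rw [add_sub_cancel_right]
      exact hn
    have hconv := (convex_convexHull ℝ (closedBall a 1 ∪ closedBall b 1)) (hA y' hn)
      (hB (y' + w L) hn2) (sub_nonneg.2 hs1) hs0 (by ring : (1 - s) + s = 1)
    have heq : (1 - s) • (a + f.symm y') + s • (a + f.symm (y' + w L)) = a + f.symm y := by
      have h3 : y = y' + s • w L := by rw [hy']; abel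
      rw [h3, map_add, map_add, map_smul, smul_add, smul_add, smul_add, sub_smul, sub_smul,
        one_smul, one_smul]
      abel
    rw [heq] at hconv
    exact hconv
  · apply hB
    have h1 := h.1
    change ‖y + -(w L)‖ ≤ 1 at h1
    rw [sub_eq_add_neg]
    exact h1

end Pool.Agent.Ssg
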