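import Pool.Agent.Lib.MP_5c10a1_co.Spec

/-!
# MP_5c10a1_co: the number of lattice points (`S_Cnt`)
-/

set_option autoImplicit false

namespace Pool.Agent.Ssg

namespace CntM

private def cH (n : ℕ) : ℕ :=
  if 33 < n then 0 else if 17 ≤ n then 34 - n else if n % 2 = 1 then 17 else 16

private lemma cH_eq : ∀ n ∈ Finset.range 50,
    ((Finset.Icc (-16 : ℤ) 16).filter
      (fun d : ℤ => ((n : ℤ) + d) % 2 = 1 ∧ n + d.natAbs ≤ 33)).card = cH n := by
  decide +kernel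

private lemma cSum : (∑ a ∈ Finset.Icc (-17 : ℤ) 17, ∑ b ∈ Finset.Icc (-16 : ℤ) 16,
    ∑ c ∈ Finset.Icc (-16 : ℤ) 16, cH (a.natAbs + b.natAbs + c.natAbs)) = 327522 := by
  decide +kernel

private noncomputable def S : Finset (ℤ × ℤ × ℤ × ℤ) :=
  (Finset.Icc (-17 : ℤ) 17 ×ˢ Finset.Icc (-16 : ℤ) 16 ×ˢ Finset.Icc (-16 : ℤ) 16 ×ˢ
    Finset.Icc (-16 : ℤ) 16).filter
    (fun p => (p.1 + p.2.1 + p.2.2.1 + p.2.2.2) % 2 = 1 ∧
      p.1.natAbs + p.2.1.natAbs + p.2.2.1.natAbs + p.2.2.2.natAbs ≤ 33)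

private lemma card_S : S.card = 327522 := by
  rw [← cSum, S, Finset.card_filter, Finset.sum_product]
  refine Finset.sum_congr rfl fun a ha => ?_
  rw [Finset.sum_product]
  refine Finset.sum_congr rfl fun b hb => ?_
  rw [Finset.sum_product]
  refine Finset.sum_congr rfl fun c hc => ?_
  rw [Finset.mem_Icc] at ha hb hc
  rw [← cH_eq (a.natAbs + b.natAbs + c.natAbs) (Finset.mem_range.mpr (by omega)),
    Finset.card_filter]
  refine Finset.sum_congr rfl fun d _ => ?_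
  have e : ((a + b + c + d) % 2 = 1 ∧ a.natAbs + b.natAbs + c.natAbs + d.natAbs ≤ 33) ↔
      ((((a.natAbs + b.natAbs + c.natAbs : ℕ) : ℤ) + d) % 2 = 1 ∧
        a.natAbs + b.natAbs + c.natAbs + d.natAbs ≤ 33) := by omega
  exact if_congr e rfl rfl

private lemma inC : ∀ p ∈ S, InC ![p.1, p.2.1, p.2.2.1, p.2.2.2] := by
  rintro ⟨a, b, c, d⟩ h
  rw [S, Finset.mem_filter, Finset.mem_product, Finset.mem_product, Finset.mem_product,
    Finset.mem_Icc, Finset.mem_Icc, Finset.mem_Icc, Finset.mem_Icc] at h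
  obtain ⟨⟨ha, hb, hc, hd⟩, h1, h2⟩ := h
  simp only at ha hb hc hd h1 h2
  unfold InC
  simp only [Matrix.cons_val]
  refine ⟨Int.odd_iff.mpr h1, ?_, ?_, ?_, ?_, ?_⟩ <;> simp only [Int.abs_eq_natAbs] <;> omega

end CntM

theorem tCnt : S_Cnt := by
  let f := (CntM.S.equivFinOfCardEq CntM.card_S).symm
  refine ⟨fun i => ![(f i).1.1, (f i).1.2.1, (f i).1.2.2.1, (f i).1.2.2.2], ?_, ?_⟩
  · intro i j hij
    have h0 := congrFun hij 0
    have h1 := congrFun hij 1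
    have h2 := congrFun hij 2
    have h3 := congrFun hij 3
    apply f.injective
    apply Subtype.ext
    exact Prod.ext h0 (Prod.ext h1 (Prod.ext h2 h3))
  · intro i
    exact CntM.inC _ (f i).2

end Pool.Agent.Ssg
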