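import Pool.Agent.Lib.MP_5c10a1_co.Spec

set_option autoImplicit false

namespace Pool.Agent.Ssg

open MeasureTheory Metric

namespace Col

theorem fin (n : ℕ) : ∀ S : Finset ℝ, S.card = n + 1 →
    (∀ a ∈ S, ∀ b ∈ S, a ≠ b → 2 ≤ |a - b|) → ∃ a ∈ S, ∃ b ∈ S, 2 * (n : ℝ) ≤ b - a := by
  induction n with
  | zero =>
    intro S hS _
    obtain ⟨a, ha⟩ := Finset.card_pos.1 (by rw [hS]; norm_num : 0 < S.card)
    exact ⟨a, ha, a, ha, by simp⟩
  | succ n ih =>
    intro S hS hsep
    have hne : S.Nonempty := Finset.card_pos.1 (by rw [hS]; omega)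
    set M := S.max' hne with hM
    have hMS : M ∈ S := S.max'_mem hne
    obtain ⟨a, ha, b, hb, hab⟩ := ih (S.erase M) (by rw [Finset.card_erase_of_mem hMS, hS]; rfl)
      (fun a ha b hb => hsep a (Finset.mem_of_mem_erase ha) b (Finset.mem_of_mem_erase hb))
    have hbS := Finset.mem_of_mem_erase hb
    have hbM : b ≤ M := S.le_max' b hbS
    have h2 := hsep M hMS b hbS (Finset.ne_of_mem_erase hb).symm
    rw [abs_of_nonneg (by linarith)] at h2
    refine ⟨a, Finset.mem_of_mem_erase ha, M, hMS, ?_⟩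
    push_cast
    linarith

end Col

theorem tCol : S_Col := by
  intro m x hm hsep hcol
  obtain ⟨p, v, h⟩ := (collinear_iff_exists_forall_eq_smul_vadd (Set.range x)).1 hcol
  have h' : ∀ i, ∃ r : ℝ, x i = r • v + p := by
    intro i
    obtain ⟨r, hr⟩ := h (x i) ⟨i, rfl⟩
    exact ⟨r, hr⟩
  choose t ht using h'
  have hd : ∀ i j, dist (x i) (x j) = |t i * ‖v‖ - t j * ‖v‖| := by
    intro i j
    rw [ht i, ht j, dist_add_right, dist_eq_norm, ← sub_smul, norm_smul, Real.norm_eq_abs,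
      ← sub_mul, abs_mul, abs_norm]
  have hinj : Function.Injective fun i => t i * ‖v‖ := by
    intro i j hij
    by_contra hne
    have h1 := hsep i j hne
    rw [hd i j] at h1
    have h2 : t i * ‖v‖ = t j * ‖v‖ := hij
    rw [h2, sub_self, abs_zero] at h1
    linarith
  obtain ⟨a, ha, b, hb, hab⟩ := Col.fin (m - 1) (Finset.univ.image fun i => t i * ‖v‖)
    (by rw [Finset.card_image_of_injective _ hinj, Finset.card_univ, Fintype.card_fin]; omega)
    (by
      intro a ha b hb hne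
      obtain ⟨i, -, rfl⟩ := Finset.mem_image.1 ha
      obtain ⟨j, -, rfl⟩ := Finset.mem_image.1 hb
      have hij : i ≠ j := by
        rintro rfl
        exact hne rfl
      have := hsep i j hij
      rwa [hd i j] at this)
  obtain ⟨i, -, rfl⟩ := Finset.mem_image.1 ha
  obtain ⟨j, -, rfl⟩ := Finset.mem_image.1 hb
  refine ⟨j, i, ?_⟩
  rw [hd j i]
  have h3 : ((m - 1 : ℕ) : ℝ) = (m : ℝ) - 1 := by
    rw [Nat.cast_sub (by omega)]
    simp
  rw [← h3]
  exact hab.trans (le_abs_self _)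

end Pool.Agent.Ssg
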