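import Pool.Agent.Lib.MP_5c10a1_co.Spec

/-!
# Module Cov: the pieces cover the positive part of the parallel body
-/

set_option autoImplicit false

namespace Pool.Agent.Ssg

namespace CovM

theorem T0 : T 0 = 17 := rfl
theorem T1 : T 1 = 16 := rfl
theorem T2 : T 2 = 16 := rfl
theorem T3 : T 3 = 16 := rfl

def Zt (x q : Fin 4 → ℝ) (u : ℝ) (i : Fin 4) : Prop := 0 ≤ x i ∧ x i ≤ u ∧ q i = 0

def Rt (x q : Fin 4 → ℝ) (u : ℝ) (i : Fin 4) : Prop := u < x i ∧ x i < T i + u ∧ q i = x i - u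

def Kt (x q : Fin 4 → ℝ) (u : ℝ) (i : Fin 4) : Prop := T i + u ≤ x i ∧ q i = T i

def Pt (x q : Fin 4 → ℝ) (i : Fin 4) : Prop := 0 ≤ x i ∧ x i ≤ T i ∧ q i = x i

section

variable {x q : Fin 4 → ℝ} {u : ℝ}

theorem mI1 (e : Fin 4 → Fin 4) (h0 : Pt x q (e 0)) (h1 : Pt x q (e 1)) (h2 : Pt x q (e 2))
    (h3 : Kt x q 0 (e 3)) (hs : q (e 0) + q (e 1) + q (e 2) + q (e 3) ≤ 33)
    (hn : (x (e 0) - q (e 0)) ^ 2 + (x (e 1) - q (e 1)) ^ 2 + (x (e 2) - q (e 2)) ^ 2 +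
      (x (e 3) - q (e 3)) ^ 2 ≤ 1 / 2) : x ∈ Pc I1 e := by
  obtain ⟨a0, b0, c0⟩ := h0
  obtain ⟨a1, b1, c1⟩ := h1
  obtain ⟨a2, b2, c2⟩ := h2
  obtain ⟨a3, c3⟩ := h3
  rw [c0, c1, c2, c3] at hs hn
  refine ⟨a0, b0, a1, b1, a2, b2, ?_, ?_, ?_⟩
  · change x (e 0) + x (e 1) + x (e 2) ≤ 33 - T (e 3)
    linarith
  · change T (e 3) ≤ x (e 3)
    linarith
  · change (x (e 3) - T (e 3)) ^ 2 ≤ 1 / 2
    nlinarith [sq_nonneg (x (e 0) - x (e 0)), sq_nonneg (x (e 1) - x (e 1)),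
      sq_nonneg (x (e 2) - x (e 2))]

theorem mI2 (e : Fin 4 → Fin 4) (h0 : Pt x q (e 0)) (h1 : Pt x q (e 1)) (h2 : Kt x q 0 (e 2))
    (h3 : Kt x q 0 (e 3)) (hs : q (e 0) + q (e 1) + q (e 2) + q (e 3) ≤ 33)
    (hn : (x (e 0) - q (e 0)) ^ 2 + (x (e 1) - q (e 1)) ^ 2 + (x (e 2) - q (e 2)) ^ 2 +
      (x (e 3) - q (e 3)) ^ 2 ≤ 1 / 2) : x ∈ Pc I2 e := by
  obtain ⟨a0, b0, c0⟩ := h0
  obtain ⟨a1, b1, c1⟩ := h1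
  obtain ⟨a2, c2⟩ := h2
  obtain ⟨a3, c3⟩ := h3
  rw [c0, c1, c2, c3] at hs hn
  refine ⟨a0, b0, a1, b1, ?_, ?_, ?_, ?_⟩
  · change x (e 0) + x (e 1) ≤ 33 - T (e 2) - T (e 3)
    linarith
  · change T (e 2) ≤ x (e 2)
    linarith
  · change T (e 3) ≤ x (e 3)
    linarith
  · change (x (e 2) - T (e 2)) ^ 2 + (x (e 3) - T (e 3)) ^ 2 ≤ 1 / 2
    nlinarith [sq_nonneg (x (e 0) - x (e 0)), sq_nonneg (x (e 1) - x (e 1))]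

/-- The first alternative, two coordinates above with `T k + T l = 33`. -/
theorem mW0 (e : Fin 4 → Fin 4) (h0 : Pt x q (e 0)) (h1 : Pt x q (e 1)) (h2 : Kt x q 0 (e 2))
    (h3 : Kt x q 0 (e 3)) (hT : T (e 2) + T (e 3) = 33)
    (hs : q (e 0) + q (e 1) + q (e 2) + q (e 3) ≤ 33)
    (hn : (x (e 0) - q (e 0)) ^ 2 + (x (e 1) - q (e 1)) ^ 2 + (x (e 2) - q (e 2)) ^ 2 +
      (x (e 3) - q (e 3)) ^ 2 ≤ 1 / 2) : x ∈ Pc W e := by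
  obtain ⟨a0, b0, c0⟩ := h0
  obtain ⟨a1, b1, c1⟩ := h1
  obtain ⟨a2, c2⟩ := h2
  obtain ⟨a3, c3⟩ := h3
  rw [c0, c1, c2, c3] at hs hn
  have e0 : x (e 0) = 0 := by linarith
  have e1 : x (e 1) = 0 := by linarith
  refine ⟨0, a0, e0.le, a1, e1.le, a2, a3, ?_⟩
  change x (e 0) ^ 2 + x (e 1) ^ 2 + (x (e 2) - T (e 2)) ^ 2 + (x (e 3) - T (e 3)) ^ 2 ≤ 1 / 2
  rw [e0, e1] at hn ⊢
  linarith

theorem mC310 (e : Fin 4 → Fin 4) (hu : 0 ≤ u) (h0 : Rt x q u (e 0)) (h1 : Rt x q u (e 1))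
    (h2 : Rt x q u (e 2)) (h3 : Zt x q u (e 3)) (hs : q (e 0) + q (e 1) + q (e 2) + q (e 3) = 33)
    (hn : (x (e 0) - q (e 0)) ^ 2 + (x (e 1) - q (e 1)) ^ 2 + (x (e 2) - q (e 2)) ^ 2 +
      (x (e 3) - q (e 3)) ^ 2 ≤ 1 / 2) : x ∈ Pc C310 e := by
  obtain ⟨a0, b0, c0⟩ := h0
  obtain ⟨a1, b1, c1⟩ := h1
  obtain ⟨a2, b2, c2⟩ := h2
  obtain ⟨a3, b3, c3⟩ := h3
  rw [c0, c1, c2, c3] at hs hn
  refine ⟨u, hu, a0.le, b0.le, a1.le, b1.le, a2.le, b2.le, ?_, a3, b3, ?_⟩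
  · change x (e 0) + x (e 1) + x (e 2) = 33 + 3 * u
    linarith
  · change 3 * u ^ 2 + x (e 3) ^ 2 ≤ 1 / 2
    nlinarith

theorem mC301 (e : Fin 4 → Fin 4) (hu : 0 ≤ u) (h0 : Rt x q u (e 0)) (h1 : Rt x q u (e 1))
    (h2 : Rt x q u (e 2)) (h3 : Kt x q u (e 3)) (hs : q (e 0) + q (e 1) + q (e 2) + q (e 3) = 33)
    (hn : (x (e 0) - q (e 0)) ^ 2 + (x (e 1) - q (e 1)) ^ 2 + (x (e 2) - q (e 2)) ^ 2 +
      (x (e 3) - q (e 3)) ^ 2 ≤ 1 / 2) : x ∈ Pc C301 e := by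
  obtain ⟨a0, b0, c0⟩ := h0
  obtain ⟨a1, b1, c1⟩ := h1
  obtain ⟨a2, b2, c2⟩ := h2
  obtain ⟨a3, c3⟩ := h3
  rw [c0, c1, c2, c3] at hs hn
  refine ⟨u, hu, a0.le, b0.le, a1.le, b1.le, a2.le, b2.le, ?_, a3, ?_⟩
  · change x (e 0) + x (e 1) + x (e 2) = 33 - T (e 3) + 3 * u
    linarith
  · change 3 * u ^ 2 + (x (e 3) - T (e 3)) ^ 2 ≤ 1 / 2
    nlinarith

theorem mC211 (e : Fin 4 → Fin 4) (hu : 0 ≤ u) (h0 : Rt x q u (e 0)) (h1 : Rt x q u (e 1))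
    (h2 : Zt x q u (e 2)) (h3 : Kt x q u (e 3)) (hs : q (e 0) + q (e 1) + q (e 2) + q (e 3) = 33)
    (hn : (x (e 0) - q (e 0)) ^ 2 + (x (e 1) - q (e 1)) ^ 2 + (x (e 2) - q (e 2)) ^ 2 +
      (x (e 3) - q (e 3)) ^ 2 ≤ 1 / 2) : x ∈ Pc C211 e := by
  obtain ⟨a0, b0, c0⟩ := h0
  obtain ⟨a1, b1, c1⟩ := h1
  obtain ⟨a2, b2, c2⟩ := h2
  obtain ⟨a3, c3⟩ := h3
  rw [c0, c1, c2, c3] at hs hn
  refine ⟨u, hu, a0.le, b0.le, a1.le, b1.le, ?_, a2, b2, a3, ?_⟩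
  · change x (e 0) + x (e 1) = 33 - T (e 3) + 2 * u
    linarith
  · change 2 * u ^ 2 + x (e 2) ^ 2 + (x (e 3) - T (e 3)) ^ 2 ≤ 1 / 2
    nlinarith

theorem mC202 (e : Fin 4 → Fin 4) (hu : 0 ≤ u) (h0 : Rt x q u (e 0)) (h1 : Rt x q u (e 1))
    (h2 : Kt x q u (e 2)) (h3 : Kt x q u (e 3)) (hs : q (e 0) + q (e 1) + q (e 2) + q (e 3) = 33)
    (hn : (x (e 0) - q (e 0)) ^ 2 + (x (e 1) - q (e 1)) ^ 2 + (x (e 2) - q (e 2)) ^ 2 +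
      (x (e 3) - q (e 3)) ^ 2 ≤ 1 / 2) : x ∈ Pc C202 e := by
  obtain ⟨a0, b0, c0⟩ := h0
  obtain ⟨a1, b1, c1⟩ := h1
  obtain ⟨a2, c2⟩ := h2
  obtain ⟨a3, c3⟩ := h3
  rw [c0, c1, c2, c3] at hs hn
  refine ⟨u, hu, a0.le, a1.le, ?_, a2, a3, ?_⟩
  · change x (e 0) + x (e 1) = 33 - T (e 2) - T (e 3) + 2 * u
    linarith
  · change 2 * u ^ 2 + (x (e 2) - T (e 2)) ^ 2 + (x (e 3) - T (e 3)) ^ 2 ≤ 1 / 2
    nlinarith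

theorem mC112 (e : Fin 4 → Fin 4) (hu : 0 ≤ u) (h0 : Rt x q u (e 0)) (h1 : Zt x q u (e 1))
    (h2 : Kt x q u (e 2)) (h3 : Kt x q u (e 3)) (hs : q (e 0) + q (e 1) + q (e 2) + q (e 3) = 33)
    (hn : (x (e 0) - q (e 0)) ^ 2 + (x (e 1) - q (e 1)) ^ 2 + (x (e 2) - q (e 2)) ^ 2 +
      (x (e 3) - q (e 3)) ^ 2 ≤ 1 / 2) : x ∈ Pc C112 e := by
  obtain ⟨a0, b0, c0⟩ := h0
  obtain ⟨a1, b1, c1⟩ := h1
  obtain ⟨a2, c2⟩ := h2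
  obtain ⟨a3, c3⟩ := h3
  rw [c0, c1, c2, c3] at hs hn
  refine ⟨u, hu, ?_, a1, b1, a2, a3, ?_⟩
  · change x (e 0) = 33 - T (e 2) - T (e 3) + u
    linarith
  · change u ^ 2 + x (e 1) ^ 2 + (x (e 2) - T (e 2)) ^ 2 + (x (e 3) - T (e 3)) ^ 2 ≤ 1 / 2
    nlinarith

theorem mW (e : Fin 4 → Fin 4) (h0 : Zt x q u (e 0)) (h1 : Zt x q u (e 1))
    (h2 : Kt x q u (e 2)) (h3 : Kt x q u (e 3))
    (hn : (x (e 0) - q (e 0)) ^ 2 + (x (e 1) - q (e 1)) ^ 2 + (x (e 2) - q (e 2)) ^ 2 +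
      (x (e 3) - q (e 3)) ^ 2 ≤ 1 / 2) : x ∈ Pc W e := by
  obtain ⟨a0, b0, c0⟩ := h0
  obtain ⟨a1, b1, c1⟩ := h1
  obtain ⟨a2, c2⟩ := h2
  obtain ⟨a3, c3⟩ := h3
  rw [c0, c1, c2, c3] at hn
  refine ⟨u, a0, b0, a1, b1, a2, a3, ?_⟩
  change x (e 0) ^ 2 + x (e 1) ^ 2 + (x (e 2) - T (e 2)) ^ 2 + (x (e 3) - T (e 3)) ^ 2 ≤ 1 / 2
  rw [sub_zero, sub_zero] at hn
  exact hn

theorem mC400 (hu : 0 ≤ u) (h0 : Rt x q u 0) (h1 : Rt x q u 1) (h2 : Rt x q u 2)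
    (h3 : Rt x q u 3) (hs : q 0 + q 1 + q 2 + q 3 = 33)
    (hn : (x 0 - q 0) ^ 2 + (x 1 - q 1) ^ 2 + (x 2 - q 2) ^ 2 + (x 3 - q 3) ^ 2 ≤ 1 / 2) :
    x ∈ C400 T := by
  obtain ⟨a0, b0, c0⟩ := h0
  obtain ⟨a1, b1, c1⟩ := h1
  obtain ⟨a2, b2, c2⟩ := h2
  obtain ⟨a3, b3, c3⟩ := h3
  rw [c0, c1, c2, c3] at hs hn
  refine ⟨u, hu, ?_, ?_, ?_⟩
  · intro i
    fin_cases i
    · exact ⟨a0.le, b0.le⟩
    · exact ⟨a1.le, b1.le⟩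
    · exact ⟨a2.le, b2.le⟩
    · exact ⟨a3.le, b3.le⟩
  · linarith
  · nlinarith

theorem mI0 (h0 : Pt x q 0) (h1 : Pt x q 1) (h2 : Pt x q 2)
    (h3 : Pt x q 3) (hs : q 0 + q 1 + q 2 + q 3 ≤ 33) : x ∈ I0 T := by
  obtain ⟨a0, b0, c0⟩ := h0
  obtain ⟨a1, b1, c1⟩ := h1
  obtain ⟨a2, b2, c2⟩ := h2
  obtain ⟨a3, b3, c3⟩ := h3
  rw [c0, c1, c2, c3] at hs
  refine ⟨?_, hs⟩
  intro i
  fin_cases i
  · exact ⟨a0, b0⟩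
  · exact ⟨a1, b1⟩
  · exact ⟨a2, b2⟩
  · exact ⟨a3, b3⟩

end

theorem m1_1230 : (![1, 2, 3, 0] : Fin 4 → Fin 4) ∈ L1 := by decide
theorem m1_0231 : (![0, 2, 3, 1] : Fin 4 → Fin 4) ∈ L1 := by decide
theorem m1_0132 : (![0, 1, 3, 2] : Fin 4 → Fin 4) ∈ L1 := by decide
theorem m1_0123 : (![0, 1, 2, 3] : Fin 4 → Fin 4) ∈ L1 := by decide
theorem m2_0123 : (![0, 1, 2, 3] : Fin 4 → Fin 4) ∈ L2 := by decide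
theorem m2_0213 : (![0, 2, 1, 3] : Fin 4 → Fin 4) ∈ L2 := by decide
theorem m2_0312 : (![0, 3, 1, 2] : Fin 4 → Fin 4) ∈ L2 := by decide
theorem m3_2310 : (![2, 3, 1, 0] : Fin 4 → Fin 4) ∈ L3 := by decide
theorem m3_1320 : (![1, 3, 2, 0] : Fin 4 → Fin 4) ∈ L3 := by decide
theorem m3_1230 : (![1, 2, 3, 0] : Fin 4 → Fin 4) ∈ L3 := by decide
theorem m4_2301 : (![2, 3, 0, 1] : Fin 4 → Fin 4) ∈ L4 := by decide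
theorem m4_1302 : (![1, 3, 0, 2] : Fin 4 → Fin 4) ∈ L4 := by decide
theorem m4_1203 : (![1, 2, 0, 3] : Fin 4 → Fin 4) ∈ L4 := by decide
theorem m5_0312 : (![0, 3, 1, 2] : Fin 4 → Fin 4) ∈ L5 := by decide
theorem m5_0321 : (![0, 3, 2, 1] : Fin 4 → Fin 4) ∈ L5 := by decide
theorem m5_0213 : (![0, 2, 1, 3] : Fin 4 → Fin 4) ∈ L5 := by decide
theorem m5_0231 : (![0, 2, 3, 1] : Fin 4 → Fin 4) ∈ L5 := by decide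
theorem m5_0123 : (![0, 1, 2, 3] : Fin 4 → Fin 4) ∈ L5 := by decide
theorem m5_0132 : (![0, 1, 3, 2] : Fin 4 → Fin 4) ∈ L5 := by decide
theorem m6_1023 : (![1, 0, 2, 3] : Fin 4 → Fin 4) ∈ L6 := by decide
theorem m6_2013 : (![2, 0, 1, 3] : Fin 4 → Fin 4) ∈ L6 := by decide
theorem m6_3012 : (![3, 0, 1, 2] : Fin 4 → Fin 4) ∈ L6 := by decide

end CovM

open CovM in
theorem tCov : S_Near → S_Cov := by
  intro hNear x hx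
  obtain ⟨u, q, hu, halt, hc, hn⟩ := hNear x hx
  rw [Fin.sum_univ_four] at hn
  have t0 := T0
  have t1 := T1
  have t2 := T2
  have t3 := T3
  rcases halt with ⟨hu0, hs⟩ | hs
  · subst hu0
    have hP : ∀ i, Pt x q i ∨ Kt x q 0 i := by
      intro i
      have hTi : 0 ≤ T i := by
        fin_cases i
        · change (0 : ℝ) ≤ 17
          norm_num
        · change (0 : ℝ) ≤ 16
          norm_num
        · change (0 : ℝ) ≤ 16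
          norm_num
        · change (0 : ℝ) ≤ 16
          norm_num
      rcases hc i with ⟨a, b, c⟩ | ⟨a, b, c⟩ | ⟨a, c⟩
      · left
        exact ⟨a, by linarith, by linarith⟩
      · left
        exact ⟨a.le, by linarith, by linarith⟩
      · right
        exact ⟨a, c⟩
    rcases hP 0 with h0 | h0 <;> rcases hP 1 with h1 | h1 <;> rcases hP 2 with h2 | h2 <;>
      rcases hP 3 with h3 | h3
    · exact Or.inl (mI0 h0 h1 h2 h3 (by linarith))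
    · exact Or.inr (Or.inl (⟨![0, 1, 2, 3], m1_0123, mI1 ![0, 1, 2, 3] h0 h1 h2 h3 (show q 0 + q 1 + q 2 + q 3 ≤ 33 by linarith) (show (x 0 - q 0) ^ 2 + (x 1 - q 1) ^ 2 + (x 2 - q 2) ^ 2 + (x 3 - q 3) ^ 2 ≤ 1 / 2 by linarith)⟩))
    · exact Or.inr (Or.inl (⟨![0, 1, 3, 2], m1_0132, mI1 ![0, 1, 3, 2] h0 h1 h3 h2 (show q 0 + q 1 + q 3 + q 2 ≤ 33 by linarith) (show (x 0 - q 0) ^ 2 + (x 1 - q 1) ^ 2 + (x 3 - q 3) ^ 2 + (x 2 - q 2) ^ 2 ≤ 1 / 2 by linarith)⟩))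
    · exact Or.inr (Or.inr (Or.inl (⟨![0, 1, 2, 3], m2_0123, mI2 ![0, 1, 2, 3] h0 h1 h2 h3 (show q 0 + q 1 + q 2 + q 3 ≤ 33 by linarith) (show (x 0 - q 0) ^ 2 + (x 1 - q 1) ^ 2 + (x 2 - q 2) ^ 2 + (x 3 - q 3) ^ 2 ≤ 1 / 2 by linarith)⟩)))
    · exact Or.inr (Or.inl (⟨![0, 2, 3, 1], m1_0231, mI1 ![0, 2, 3, 1] h0 h2 h3 h1 (show q 0 + q 2 + q 3 + q 1 ≤ 33 by linarith) (show (x 0 - q 0) ^ 2 + (x 2 - q 2) ^ 2 + (x 3 - q 3) ^ 2 + (x 1 - q 1) ^ 2 ≤ 1 / 2 by linarith)⟩))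
    · exact Or.inr (Or.inr (Or.inl (⟨![0, 2, 1, 3], m2_0213, mI2 ![0, 2, 1, 3] h0 h2 h1 h3 (show q 0 + q 2 + q 1 + q 3 ≤ 33 by linarith) (show (x 0 - q 0) ^ 2 + (x 2 - q 2) ^ 2 + (x 1 - q 1) ^ 2 + (x 3 - q 3) ^ 2 ≤ 1 / 2 by linarith)⟩)))
    · exact Or.inr (Or.inr (Or.inl (⟨![0, 3, 1, 2], m2_0312, mI2 ![0, 3, 1, 2] h0 h3 h1 h2 (show q 0 + q 3 + q 1 + q 2 ≤ 33 by linarith) (show (x 0 - q 0) ^ 2 + (x 3 - q 3) ^ 2 + (x 1 - q 1) ^ 2 + (x 2 - q 2) ^ 2 ≤ 1 / 2 by linarith)⟩)))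
    · exfalso
      obtain ⟨a0, b0, c0⟩ := h0
      obtain ⟨a1, c1⟩ := h1
      obtain ⟨a2, c2⟩ := h2
      obtain ⟨a3, c3⟩ := h3
      linarith
    · exact Or.inr (Or.inl (⟨![1, 2, 3, 0], m1_1230, mI1 ![1, 2, 3, 0] h1 h2 h3 h0 (show q 1 + q 2 + q 3 + q 0 ≤ 33 by linarith) (show (x 1 - q 1) ^ 2 + (x 2 - q 2) ^ 2 + (x 3 - q 3) ^ 2 + (x 0 - q 0) ^ 2 ≤ 1 / 2 by linarith)⟩))
    · exact Or.inr (Or.inr (Or.inr (Or.inr (Or.inr (Or.inr (Or.inr (Or.inr (Or.inr (Or.inr (Or.inr (Or.inr (⟨![1, 2, 3, 0], m3_1230, mW0 ![1, 2, 3, 0] h1 h2 h3 h0 (show T 3 + T 0 = 33 by linarith) (show q 1 + q 2 + q 3 + q 0 ≤ 33 by linarith) (show (x 1 - q 1) ^ 2 + (x 2 - q 2) ^ 2 + (x 3 - q 3) ^ 2 + (x 0 - q 0) ^ 2 ≤ 1 / 2 by linarith)⟩))))))))))))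
    · exact Or.inr (Or.inr (Or.inr (Or.inr (Or.inr (Or.inr (Or.inr (Or.inr (Or.inr (Or.inr (Or.inr (Or.inr (⟨![1, 3, 2, 0], m3_1320, mW0 ![1, 3, 2, 0] h1 h3 h2 h0 (show T 2 + T 0 = 33 by linarith) (show q 1 + q 3 + q 2 + q 0 ≤ 33 by linarith) (show (x 1 - q 1) ^ 2 + (x 3 - q 3) ^ 2 + (x 2 - q 2) ^ 2 + (x 0 - q 0) ^ 2 ≤ 1 / 2 by linarith)⟩))))))))))))
    · exfalso
      obtain ⟨a0, c0⟩ := h0
      obtain ⟨a1, b1, c1⟩ := h1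
      obtain ⟨a2, c2⟩ := h2
      obtain ⟨a3, c3⟩ := h3
      linarith
    · exact Or.inr (Or.inr (Or.inr (Or.inr (Or.inr (Or.inr (Or.inr (Or.inr (Or.inr (Or.inr (Or.inr (Or.inr (⟨![2, 3, 1, 0], m3_2310, mW0 ![2, 3, 1, 0] h2 h3 h1 h0 (show T 1 + T 0 = 33 by linarith) (show q 2 + q 3 + q 1 + q 0 ≤ 33 by linarith) (show (x 2 - q 2) ^ 2 + (x 3 - q 3) ^ 2 + (x 1 - q 1) ^ 2 + (x 0 - q 0) ^ 2 ≤ 1 / 2 by linarith)⟩))))))))))))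
    · exfalso
      obtain ⟨a0, c0⟩ := h0
      obtain ⟨a1, c1⟩ := h1
      obtain ⟨a2, b2, c2⟩ := h2
      obtain ⟨a3, c3⟩ := h3
      linarith
    · exfalso
      obtain ⟨a0, c0⟩ := h0
      obtain ⟨a1, c1⟩ := h1
      obtain ⟨a2, c2⟩ := h2
      obtain ⟨a3, b3, c3⟩ := h3
      linarith
    · exfalso
      obtain ⟨a0, c0⟩ := h0
      obtain ⟨a1, c1⟩ := h1
      obtain ⟨a2, c2⟩ := h2
      obtain ⟨a3, c3⟩ := h3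
      linarith
  · have hP : ∀ i, Zt x q u i ∨ Rt x q u i ∨ Kt x q u i := hc
    rcases hP 0 with h0 | h0 | h0 <;> rcases hP 1 with h1 | h1 | h1 <;>
      rcases hP 2 with h2 | h2 | h2 <;> rcases hP 3 with h3 | h3 | h3
    · exfalso
      obtain ⟨a0, b0, c0⟩ := h0
      obtain ⟨a1, b1, c1⟩ := h1
      obtain ⟨a2, b2, c2⟩ := h2
      obtain ⟨a3, b3, c3⟩ := h3
      linarith
    · exfalso
      obtain ⟨a0, b0, c0⟩ := h0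
      obtain ⟨a1, b1, c1⟩ := h1
      obtain ⟨a2, b2, c2⟩ := h2
      obtain ⟨a3, b3, c3⟩ := h3
      linarith
    · exfalso
      obtain ⟨a0, b0, c0⟩ := h0
      obtain ⟨a1, b1, c1⟩ := h1
      obtain ⟨a2, b2, c2⟩ := h2
      obtain ⟨a3, c3⟩ := h3
      linarith
    · exfalso
      obtain ⟨a0, b0, c0⟩ := h0
      obtain ⟨a1, b1, c1⟩ := h1
      obtain ⟨a2, b2, c2⟩ := h2
      obtain ⟨a3, b3, c3⟩ := h3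
      linarith
    · exfalso
      obtain ⟨a0, b0, c0⟩ := h0
      obtain ⟨a1, b1, c1⟩ := h1
      obtain ⟨a2, b2, c2⟩ := h2
      obtain ⟨a3, b3, c3⟩ := h3
      linarith
    · exfalso
      obtain ⟨a0, b0, c0⟩ := h0
      obtain ⟨a1, b1, c1⟩ := h1
      obtain ⟨a2, b2, c2⟩ := h2
      obtain ⟨a3, c3⟩ := h3
      linarith
    · exfalso
      obtain ⟨a0, b0, c0⟩ := h0
      obtain ⟨a1, b1, c1⟩ := h1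
      obtain ⟨a2, c2⟩ := h2
      obtain ⟨a3, b3, c3⟩ := h3
      linarith
    · exfalso
      obtain ⟨a0, b0, c0⟩ := h0
      obtain ⟨a1, b1, c1⟩ := h1
      obtain ⟨a2, c2⟩ := h2
      obtain ⟨a3, b3, c3⟩ := h3
      linarith
    · exfalso
      obtain ⟨a0, b0, c0⟩ := h0
      obtain ⟨a1, b1, c1⟩ := h1
      obtain ⟨a2, c2⟩ := h2
      obtain ⟨a3, c3⟩ := h3
      linarith
    · exfalso
      obtain ⟨a0, b0, c0⟩ := h0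
      obtain ⟨a1, b1, c1⟩ := h1
      obtain ⟨a2, b2, c2⟩ := h2
      obtain ⟨a3, b3, c3⟩ := h3
      linarith
    · exfalso
      obtain ⟨a0, b0, c0⟩ := h0
      obtain ⟨a1, b1, c1⟩ := h1
      obtain ⟨a2, b2, c2⟩ := h2
      obtain ⟨a3, b3, c3⟩ := h3
      linarith
    · exfalso
      obtain ⟨a0, b0, c0⟩ := h0
      obtain ⟨a1, b1, c1⟩ := h1
      obtain ⟨a2, b2, c2⟩ := h2
      obtain ⟨a3, c3⟩ := h3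
      linarith
    · exfalso
      obtain ⟨a0, b0, c0⟩ := h0
      obtain ⟨a1, b1, c1⟩ := h1
      obtain ⟨a2, b2, c2⟩ := h2
      obtain ⟨a3, b3, c3⟩ := h3
      linarith
    · exact Or.inr (Or.inr (Or.inr (Or.inr (Or.inl (⟨![1, 2, 3, 0], m1_1230, mC310 ![1, 2, 3, 0] hu h1 h2 h3 h0 (show q 1 + q 2 + q 3 + q 0 = 33 by linarith) (show (x 1 - q 1) ^ 2 + (x 2 - q 2) ^ 2 + (x 3 - q 3) ^ 2 + (x 0 - q 0) ^ 2 ≤ 1 / 2 by linarith)⟩)))))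
    · exact Or.inr (Or.inr (Or.inr (Or.inr (Or.inr (Or.inr (Or.inr (Or.inl (⟨![1, 2, 0, 3], m4_1203, mC211 ![1, 2, 0, 3] hu h1 h2 h0 h3 (show q 1 + q 2 + q 0 + q 3 = 33 by linarith) (show (x 1 - q 1) ^ 2 + (x 2 - q 2) ^ 2 + (x 0 - q 0) ^ 2 + (x 3 - q 3) ^ 2 ≤ 1 / 2 by linarith)⟩))))))))
    · exfalso
      obtain ⟨a0, b0, c0⟩ := h0
      obtain ⟨a1, b1, c1⟩ := h1
      obtain ⟨a2, c2⟩ := h2
      obtain ⟨a3, b3, c3⟩ := h3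
      linarith
    · exact Or.inr (Or.inr (Or.inr (Or.inr (Or.inr (Or.inr (Or.inr (Or.inl (⟨![1, 3, 0, 2], m4_1302, mC211 ![1, 3, 0, 2] hu h1 h3 h0 h2 (show q 1 + q 3 + q 0 + q 2 = 33 by linarith) (show (x 1 - q 1) ^ 2 + (x 3 - q 3) ^ 2 + (x 0 - q 0) ^ 2 + (x 2 - q 2) ^ 2 ≤ 1 / 2 by linarith)⟩))))))))
    · exact Or.inr (Or.inr (Or.inr (Or.inr (Or.inr (Or.inr (Or.inr (Or.inr (Or.inr (Or.inr (Or.inr (Or.inl (⟨![1, 0, 2, 3], m6_1023, mC112 ![1, 0, 2, 3] hu h1 h0 h2 h3 (show q 1 + q 0 + q 2 + q 3 = 33 by linarith) (show (x 1 - q 1) ^ 2 + (x 0 - q 0) ^ 2 + (x 2 - q 2) ^ 2 + (x 3 - q 3) ^ 2 ≤ 1 / 2 by linarith)⟩))))))))))))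
    · exfalso
      obtain ⟨a0, b0, c0⟩ := h0
      obtain ⟨a1, c1⟩ := h1
      obtain ⟨a2, b2, c2⟩ := h2
      obtain ⟨a3, b3, c3⟩ := h3
      linarith
    · exfalso
      obtain ⟨a0, b0, c0⟩ := h0
      obtain ⟨a1, c1⟩ := h1
      obtain ⟨a2, b2, c2⟩ := h2
      obtain ⟨a3, b3, c3⟩ := h3
      linarith
    · exfalso
      obtain ⟨a0, b0, c0⟩ := h0
      obtain ⟨a1, c1⟩ := h1
      obtain ⟨a2, b2, c2⟩ := h2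
      obtain ⟨a3, c3⟩ := h3
      linarith
    · exfalso
      obtain ⟨a0, b0, c0⟩ := h0
      obtain ⟨a1, c1⟩ := h1
      obtain ⟨a2, b2, c2⟩ := h2
      obtain ⟨a3, b3, c3⟩ := h3
      linarith
    · exact Or.inr (Or.inr (Or.inr (Or.inr (Or.inr (Or.inr (Or.inr (Or.inl (⟨![2, 3, 0, 1], m4_2301, mC211 ![2, 3, 0, 1] hu h2 h3 h0 h1 (show q 2 + q 3 + q 0 + q 1 = 33 by linarith) (show (x 2 - q 2) ^ 2 + (x 3 - q 3) ^ 2 + (x 0 - q 0) ^ 2 + (x 1 - q 1) ^ 2 ≤ 1 / 2 by linarith)⟩))))))))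
    · exact Or.inr (Or.inr (Or.inr (Or.inr (Or.inr (Or.inr (Or.inr (Or.inr (Or.inr (Or.inr (Or.inr (Or.inl (⟨![2, 0, 1, 3], m6_2013, mC112 ![2, 0, 1, 3] hu h2 h0 h1 h3 (show q 2 + q 0 + q 1 + q 3 = 33 by linarith) (show (x 2 - q 2) ^ 2 + (x 0 - q 0) ^ 2 + (x 1 - q 1) ^ 2 + (x 3 - q 3) ^ 2 ≤ 1 / 2 by linarith)⟩))))))))))))
    · exfalso
      obtain ⟨a0, b0, c0⟩ := h0
      obtain ⟨a1, c1⟩ := h1
      obtain ⟨a2, c2⟩ := h2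
      obtain ⟨a3, b3, c3⟩ := h3
      linarith
    · exact Or.inr (Or.inr (Or.inr (Or.inr (Or.inr (Or.inr (Or.inr (Or.inr (Or.inr (Or.inr (Or.inr (Or.inl (⟨![3, 0, 1, 2], m6_3012, mC112 ![3, 0, 1, 2] hu h3 h0 h1 h2 (show q 3 + q 0 + q 1 + q 2 = 33 by linarith) (show (x 3 - q 3) ^ 2 + (x 0 - q 0) ^ 2 + (x 1 - q 1) ^ 2 + (x 2 - q 2) ^ 2 ≤ 1 / 2 by linarith)⟩))))))))))))
    · exfalso
      obtain ⟨a0, b0, c0⟩ := h0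
      obtain ⟨a1, c1⟩ := h1
      obtain ⟨a2, c2⟩ := h2
      obtain ⟨a3, c3⟩ := h3
      linarith
    · exfalso
      obtain ⟨a0, b0, c0⟩ := h0
      obtain ⟨a1, b1, c1⟩ := h1
      obtain ⟨a2, b2, c2⟩ := h2
      obtain ⟨a3, b3, c3⟩ := h3
      linarith
    · exfalso
      obtain ⟨a0, b0, c0⟩ := h0
      obtain ⟨a1, b1, c1⟩ := h1
      obtain ⟨a2, b2, c2⟩ := h2
      obtain ⟨a3, b3, c3⟩ := h3
      linarith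
    · exfalso
      obtain ⟨a0, b0, c0⟩ := h0
      obtain ⟨a1, b1, c1⟩ := h1
      obtain ⟨a2, b2, c2⟩ := h2
      obtain ⟨a3, c3⟩ := h3
      linarith
    · exfalso
      obtain ⟨a0, b0, c0⟩ := h0
      obtain ⟨a1, b1, c1⟩ := h1
      obtain ⟨a2, b2, c2⟩ := h2
      obtain ⟨a3, b3, c3⟩ := h3
      linarith
    · exact Or.inr (Or.inr (Or.inr (Or.inr (Or.inl (⟨![0, 2, 3, 1], m1_0231, mC310 ![0, 2, 3, 1] hu h0 h2 h3 h1 (show q 0 + q 2 + q 3 + q 1 = 33 by linarith) (show (x 0 - q 0) ^ 2 + (x 2 - q 2) ^ 2 + (x 3 - q 3) ^ 2 + (x 1 - q 1) ^ 2 ≤ 1 / 2 by linarith)⟩)))))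
    · exact Or.inr (Or.inr (Or.inr (Or.inr (Or.inr (Or.inr (Or.inr (Or.inr (Or.inl (⟨![0, 2, 1, 3], m5_0213, mC211 ![0, 2, 1, 3] hu h0 h2 h1 h3 (show q 0 + q 2 + q 1 + q 3 = 33 by linarith) (show (x 0 - q 0) ^ 2 + (x 2 - q 2) ^ 2 + (x 1 - q 1) ^ 2 + (x 3 - q 3) ^ 2 ≤ 1 / 2 by linarith)⟩)))))))))
    · exfalso
      obtain ⟨a0, b0, c0⟩ := h0
      obtain ⟨a1, b1, c1⟩ := h1
      obtain ⟨a2, c2⟩ := h2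
      obtain ⟨a3, b3, c3⟩ := h3
      linarith
    · exact Or.inr (Or.inr (Or.inr (Or.inr (Or.inr (Or.inr (Or.inr (Or.inr (Or.inl (⟨![0, 3, 1, 2], m5_0312, mC211 ![0, 3, 1, 2] hu h0 h3 h1 h2 (show q 0 + q 3 + q 1 + q 2 = 33 by linarith) (show (x 0 - q 0) ^ 2 + (x 3 - q 3) ^ 2 + (x 1 - q 1) ^ 2 + (x 2 - q 2) ^ 2 ≤ 1 / 2 by linarith)⟩)))))))))
    · exact Or.inr (Or.inr (Or.inr (Or.inr (Or.inr (Or.inr (Or.inr (Or.inr (Or.inr (Or.inr (Or.inl (⟨![0, 1, 2, 3], m2_0123, mC112 ![0, 1, 2, 3] hu h0 h1 h2 h3 (show q 0 + q 1 + q 2 + q 3 = 33 by linarith) (show (x 0 - q 0) ^ 2 + (x 1 - q 1) ^ 2 + (x 2 - q 2) ^ 2 + (x 3 - q 3) ^ 2 ≤ 1 / 2 by linarith)⟩)))))))))))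
    · exfalso
      obtain ⟨a0, b0, c0⟩ := h0
      obtain ⟨a1, b1, c1⟩ := h1
      obtain ⟨a2, b2, c2⟩ := h2
      obtain ⟨a3, b3, c3⟩ := h3
      linarith
    · exact Or.inr (Or.inr (Or.inr (Or.inr (Or.inl (⟨![0, 1, 3, 2], m1_0132, mC310 ![0, 1, 3, 2] hu h0 h1 h3 h2 (show q 0 + q 1 + q 3 + q 2 = 33 by linarith) (show (x 0 - q 0) ^ 2 + (x 1 - q 1) ^ 2 + (x 3 - q 3) ^ 2 + (x 2 - q 2) ^ 2 ≤ 1 / 2 by linarith)⟩)))))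
    · exact Or.inr (Or.inr (Or.inr (Or.inr (Or.inr (Or.inr (Or.inr (Or.inr (Or.inl (⟨![0, 1, 2, 3], m5_0123, mC211 ![0, 1, 2, 3] hu h0 h1 h2 h3 (show q 0 + q 1 + q 2 + q 3 = 33 by linarith) (show (x 0 - q 0) ^ 2 + (x 1 - q 1) ^ 2 + (x 2 - q 2) ^ 2 + (x 3 - q 3) ^ 2 ≤ 1 / 2 by linarith)⟩)))))))))
    · exact Or.inr (Or.inr (Or.inr (Or.inr (Or.inl (⟨![0, 1, 2, 3], m1_0123, mC310 ![0, 1, 2, 3] hu h0 h1 h2 h3 (show q 0 + q 1 + q 2 + q 3 = 33 by linarith) (show (x 0 - q 0) ^ 2 + (x 1 - q 1) ^ 2 + (x 2 - q 2) ^ 2 + (x 3 - q 3) ^ 2 ≤ 1 / 2 by linarith)⟩)))))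
    · exact Or.inr (Or.inr (Or.inr (Or.inl (mC400 hu h0 h1 h2 h3 (by linarith) (by linarith)))))
    · exact Or.inr (Or.inr (Or.inr (Or.inr (Or.inr (Or.inl (⟨![0, 1, 2, 3], m1_0123, mC301 ![0, 1, 2, 3] hu h0 h1 h2 h3 (show q 0 + q 1 + q 2 + q 3 = 33 by linarith) (show (x 0 - q 0) ^ 2 + (x 1 - q 1) ^ 2 + (x 2 - q 2) ^ 2 + (x 3 - q 3) ^ 2 ≤ 1 / 2 by linarith)⟩))))))
    · exact Or.inr (Or.inr (Or.inr (Or.inr (Or.inr (Or.inr (Or.inr (Or.inr (Or.inl (⟨![0, 1, 3, 2], m5_0132, mC211 ![0, 1, 3, 2] hu h0 h1 h3 h2 (show q 0 + q 1 + q 3 + q 2 = 33 by linarith) (show (x 0 - q 0) ^ 2 + (x 1 - q 1) ^ 2 + (x 3 - q 3) ^ 2 + (x 2 - q 2) ^ 2 ≤ 1 / 2 by linarith)⟩)))))))))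
    · exact Or.inr (Or.inr (Or.inr (Or.inr (Or.inr (Or.inl (⟨![0, 1, 3, 2], m1_0132, mC301 ![0, 1, 3, 2] hu h0 h1 h3 h2 (show q 0 + q 1 + q 3 + q 2 = 33 by linarith) (show (x 0 - q 0) ^ 2 + (x 1 - q 1) ^ 2 + (x 3 - q 3) ^ 2 + (x 2 - q 2) ^ 2 ≤ 1 / 2 by linarith)⟩))))))
    · exact Or.inr (Or.inr (Or.inr (Or.inr (Or.inr (Or.inr (Or.inr (Or.inr (Or.inr (Or.inl (⟨![0, 1, 2, 3], m2_0123, mC202 ![0, 1, 2, 3] hu h0 h1 h2 h3 (show q 0 + q 1 + q 2 + q 3 = 33 by linarith) (show (x 0 - q 0) ^ 2 + (x 1 - q 1) ^ 2 + (x 2 - q 2) ^ 2 + (x 3 - q 3) ^ 2 ≤ 1 / 2 by linarith)⟩))))))))))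
    · exfalso
      obtain ⟨a0, b0, c0⟩ := h0
      obtain ⟨a1, c1⟩ := h1
      obtain ⟨a2, b2, c2⟩ := h2
      obtain ⟨a3, b3, c3⟩ := h3
      linarith
    · exact Or.inr (Or.inr (Or.inr (Or.inr (Or.inr (Or.inr (Or.inr (Or.inr (Or.inl (⟨![0, 3, 2, 1], m5_0321, mC211 ![0, 3, 2, 1] hu h0 h3 h2 h1 (show q 0 + q 3 + q 2 + q 1 = 33 by linarith) (show (x 0 - q 0) ^ 2 + (x 3 - q 3) ^ 2 + (x 2 - q 2) ^ 2 + (x 1 - q 1) ^ 2 ≤ 1 / 2 by linarith)⟩)))))))))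
    · exact Or.inr (Or.inr (Or.inr (Or.inr (Or.inr (Or.inr (Or.inr (Or.inr (Or.inr (Or.inr (Or.inl (⟨![0, 2, 1, 3], m2_0213, mC112 ![0, 2, 1, 3] hu h0 h2 h1 h3 (show q 0 + q 2 + q 1 + q 3 = 33 by linarith) (show (x 0 - q 0) ^ 2 + (x 2 - q 2) ^ 2 + (x 1 - q 1) ^ 2 + (x 3 - q 3) ^ 2 ≤ 1 / 2 by linarith)⟩)))))))))))
    · exact Or.inr (Or.inr (Or.inr (Or.inr (Or.inr (Or.inr (Or.inr (Or.inr (Or.inl (⟨![0, 2, 3, 1], m5_0231, mC211 ![0, 2, 3, 1] hu h0 h2 h3 h1 (show q 0 + q 2 + q 3 + q 1 = 33 by linarith) (show (x 0 - q 0) ^ 2 + (x 2 - q 2) ^ 2 + (x 3 - q 3) ^ 2 + (x 1 - q 1) ^ 2 ≤ 1 / 2 by linarith)⟩)))))))))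
    · exact Or.inr (Or.inr (Or.inr (Or.inr (Or.inr (Or.inl (⟨![0, 2, 3, 1], m1_0231, mC301 ![0, 2, 3, 1] hu h0 h2 h3 h1 (show q 0 + q 2 + q 3 + q 1 = 33 by linarith) (show (x 0 - q 0) ^ 2 + (x 2 - q 2) ^ 2 + (x 3 - q 3) ^ 2 + (x 1 - q 1) ^ 2 ≤ 1 / 2 by linarith)⟩))))))
    · exact Or.inr (Or.inr (Or.inr (Or.inr (Or.inr (Or.inr (Or.inr (Or.inr (Or.inr (Or.inl (⟨![0, 2, 1, 3], m2_0213, mC202 ![0, 2, 1, 3] hu h0 h2 h1 h3 (show q 0 + q 2 + q 1 + q 3 = 33 by linarith) (show (x 0 - q 0) ^ 2 + (x 2 - q 2) ^ 2 + (x 1 - q 1) ^ 2 + (x 3 - q 3) ^ 2 ≤ 1 / 2 by linarith)⟩))))))))))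
    · exact Or.inr (Or.inr (Or.inr (Or.inr (Or.inr (Or.inr (Or.inr (Or.inr (Or.inr (Or.inr (Or.inl (⟨![0, 3, 1, 2], m2_0312, mC112 ![0, 3, 1, 2] hu h0 h3 h1 h2 (show q 0 + q 3 + q 1 + q 2 = 33 by linarith) (show (x 0 - q 0) ^ 2 + (x 3 - q 3) ^ 2 + (x 1 - q 1) ^ 2 + (x 2 - q 2) ^ 2 ≤ 1 / 2 by linarith)⟩)))))))))))
    · exact Or.inr (Or.inr (Or.inr (Or.inr (Or.inr (Or.inr (Or.inr (Or.inr (Or.inr (Or.inl (⟨![0, 3, 1, 2], m2_0312, mC202 ![0, 3, 1, 2] hu h0 h3 h1 h2 (show q 0 + q 3 + q 1 + q 2 = 33 by linarith) (show (x 0 - q 0) ^ 2 + (x 3 - q 3) ^ 2 + (x 1 - q 1) ^ 2 + (x 2 - q 2) ^ 2 ≤ 1 / 2 by linarith)⟩))))))))))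
    · exfalso
      obtain ⟨a0, b0, c0⟩ := h0
      obtain ⟨a1, c1⟩ := h1
      obtain ⟨a2, c2⟩ := h2
      obtain ⟨a3, c3⟩ := h3
      linarith
    · exfalso
      obtain ⟨a0, c0⟩ := h0
      obtain ⟨a1, b1, c1⟩ := h1
      obtain ⟨a2, b2, c2⟩ := h2
      obtain ⟨a3, b3, c3⟩ := h3
      linarith
    · exfalso
      obtain ⟨a0, c0⟩ := h0
      obtain ⟨a1, b1, c1⟩ := h1
      obtain ⟨a2, b2, c2⟩ := h2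
      obtain ⟨a3, b3, c3⟩ := h3
      linarith
    · exact Or.inr (Or.inr (Or.inr (Or.inr (Or.inr (Or.inr (Or.inr (Or.inr (Or.inr (Or.inr (Or.inr (Or.inr (⟨![1, 2, 3, 0], m3_1230, mW ![1, 2, 3, 0] h1 h2 h3 h0 (show (x 1 - q 1) ^ 2 + (x 2 - q 2) ^ 2 + (x 3 - q 3) ^ 2 + (x 0 - q 0) ^ 2 ≤ 1 / 2 by linarith)⟩))))))))))))
    · exfalso
      obtain ⟨a0, c0⟩ := h0
      obtain ⟨a1, b1, c1⟩ := h1
      obtain ⟨a2, b2, c2⟩ := h2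
      obtain ⟨a3, b3, c3⟩ := h3
      linarith
    · exact Or.inr (Or.inr (Or.inr (Or.inr (Or.inr (Or.inr (Or.inl (⟨![2, 3, 1, 0], m3_2310, mC211 ![2, 3, 1, 0] hu h2 h3 h1 h0 (show q 2 + q 3 + q 1 + q 0 = 33 by linarith) (show (x 2 - q 2) ^ 2 + (x 3 - q 3) ^ 2 + (x 1 - q 1) ^ 2 + (x 0 - q 0) ^ 2 ≤ 1 / 2 by linarith)⟩)))))))
    · exfalso
      obtain ⟨a0, c0⟩ := h0
      obtain ⟨a1, b1, c1⟩ := h1
      obtain ⟨a2, b2, c2⟩ := h2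
      obtain ⟨a3, c3⟩ := h3
      linarith
    · exact Or.inr (Or.inr (Or.inr (Or.inr (Or.inr (Or.inr (Or.inr (Or.inr (Or.inr (Or.inr (Or.inr (Or.inr (⟨![1, 3, 2, 0], m3_1320, mW ![1, 3, 2, 0] h1 h3 h2 h0 (show (x 1 - q 1) ^ 2 + (x 3 - q 3) ^ 2 + (x 2 - q 2) ^ 2 + (x 0 - q 0) ^ 2 ≤ 1 / 2 by linarith)⟩))))))))))))
    · exfalso
      obtain ⟨a0, c0⟩ := h0
      obtain ⟨a1, b1, c1⟩ := h1
      obtain ⟨a2, c2⟩ := h2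
      obtain ⟨a3, b3, c3⟩ := h3
      linarith
    · exfalso
      obtain ⟨a0, c0⟩ := h0
      obtain ⟨a1, b1, c1⟩ := h1
      obtain ⟨a2, c2⟩ := h2
      obtain ⟨a3, c3⟩ := h3
      linarith
    · exfalso
      obtain ⟨a0, c0⟩ := h0
      obtain ⟨a1, b1, c1⟩ := h1
      obtain ⟨a2, b2, c2⟩ := h2
      obtain ⟨a3, b3, c3⟩ := h3
      linarith
    · exact Or.inr (Or.inr (Or.inr (Or.inr (Or.inr (Or.inr (Or.inl (⟨![1, 3, 2, 0], m3_1320, mC211 ![1, 3, 2, 0] hu h1 h3 h2 h0 (show q 1 + q 3 + q 2 + q 0 = 33 by linarith) (show (x 1 - q 1) ^ 2 + (x 3 - q 3) ^ 2 + (x 2 - q 2) ^ 2 + (x 0 - q 0) ^ 2 ≤ 1 / 2 by linarith)⟩)))))))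
    · exfalso
      obtain ⟨a0, c0⟩ := h0
      obtain ⟨a1, b1, c1⟩ := h1
      obtain ⟨a2, b2, c2⟩ := h2
      obtain ⟨a3, c3⟩ := h3
      linarith
    · exact Or.inr (Or.inr (Or.inr (Or.inr (Or.inr (Or.inr (Or.inl (⟨![1, 2, 3, 0], m3_1230, mC211 ![1, 2, 3, 0] hu h1 h2 h3 h0 (show q 1 + q 2 + q 3 + q 0 = 33 by linarith) (show (x 1 - q 1) ^ 2 + (x 2 - q 2) ^ 2 + (x 3 - q 3) ^ 2 + (x 0 - q 0) ^ 2 ≤ 1 / 2 by linarith)⟩)))))))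
    · exact Or.inr (Or.inr (Or.inr (Or.inr (Or.inr (Or.inl (⟨![1, 2, 3, 0], m1_1230, mC301 ![1, 2, 3, 0] hu h1 h2 h3 h0 (show q 1 + q 2 + q 3 + q 0 = 33 by linarith) (show (x 1 - q 1) ^ 2 + (x 2 - q 2) ^ 2 + (x 3 - q 3) ^ 2 + (x 0 - q 0) ^ 2 ≤ 1 / 2 by linarith)⟩))))))
    · exfalso
      obtain ⟨a0, c0⟩ := h0
      obtain ⟨a1, b1, c1⟩ := h1
      obtain ⟨a2, b2, c2⟩ := h2
      obtain ⟨a3, c3⟩ := h3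
      linarith
    · exfalso
      obtain ⟨a0, c0⟩ := h0
      obtain ⟨a1, b1, c1⟩ := h1
      obtain ⟨a2, c2⟩ := h2
      obtain ⟨a3, b3, c3⟩ := h3
      linarith
    · exfalso
      obtain ⟨a0, c0⟩ := h0
      obtain ⟨a1, b1, c1⟩ := h1
      obtain ⟨a2, c2⟩ := h2
      obtain ⟨a3, b3, c3⟩ := h3
      linarith
    · exfalso
      obtain ⟨a0, c0⟩ := h0
      obtain ⟨a1, b1, c1⟩ := h1
      obtain ⟨a2, c2⟩ := h2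
      obtain ⟨a3, c3⟩ := h3
      linarith
    · exact Or.inr (Or.inr (Or.inr (Or.inr (Or.inr (Or.inr (Or.inr (Or.inr (Or.inr (Or.inr (Or.inr (Or.inr (⟨![2, 3, 1, 0], m3_2310, mW ![2, 3, 1, 0] h2 h3 h1 h0 (show (x 2 - q 2) ^ 2 + (x 3 - q 3) ^ 2 + (x 1 - q 1) ^ 2 + (x 0 - q 0) ^ 2 ≤ 1 / 2 by linarith)⟩))))))))))))
    · exfalso
      obtain ⟨a0, c0⟩ := h0
      obtain ⟨a1, c1⟩ := h1
      obtain ⟨a2, b2, c2⟩ := h2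
      obtain ⟨a3, b3, c3⟩ := h3
      linarith
    · exfalso
      obtain ⟨a0, c0⟩ := h0
      obtain ⟨a1, c1⟩ := h1
      obtain ⟨a2, b2, c2⟩ := h2
      obtain ⟨a3, c3⟩ := h3
      linarith
    · exfalso
      obtain ⟨a0, c0⟩ := h0
      obtain ⟨a1, c1⟩ := h1
      obtain ⟨a2, b2, c2⟩ := h2
      obtain ⟨a3, b3, c3⟩ := h3
      linarith
    · exfalso
      obtain ⟨a0, c0⟩ := h0
      obtain ⟨a1, c1⟩ := h1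
      obtain ⟨a2, b2, c2⟩ := h2
      obtain ⟨a3, b3, c3⟩ := h3
      linarith
    · exfalso
      obtain ⟨a0, c0⟩ := h0
      obtain ⟨a1, c1⟩ := h1
      obtain ⟨a2, b2, c2⟩ := h2
      obtain ⟨a3, c3⟩ := h3
      linarith
    · exfalso
      obtain ⟨a0, c0⟩ := h0
      obtain ⟨a1, c1⟩ := h1
      obtain ⟨a2, c2⟩ := h2
      obtain ⟨a3, b3, c3⟩ := h3
      linarith
    · exfalso
      obtain ⟨a0, c0⟩ := h0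
      obtain ⟨a1, c1⟩ := h1
      obtain ⟨a2, c2⟩ := h2
      obtain ⟨a3, b3, c3⟩ := h3
      linarith
    · exfalso
      obtain ⟨a0, c0⟩ := h0
      obtain ⟨a1, c1⟩ := h1
      obtain ⟨a2, c2⟩ := h2
      obtain ⟨a3, c3⟩ := h3
      linarith

end Pool.Agent.Ssg
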