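import Mathlib

/-!
# MP_5c10a1_co (sausage catastrophe, `m_4 ≤ 327522`): definitions
-/

set_option autoImplicit false

namespace Pool.Agent.Ssg

open MeasureTheory Metric

/-- Euclidean 4-space. -/
abbrev E : Type := EuclideanSpace ℝ (Fin 4)

/-- A family of closed unit balls (given by the centres) with pairwise disjoint interiors. -/
def IsPacking {m : ℕ} (x : Fin m → E) : Prop :=
  Pairwise fun i j => Disjoint (interior (closedBall (x i) 1)) (interior (closedBall (x j) 1))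

/-- The convex hull of the union of the balls. -/
def hull {m : ℕ} (x : Fin m → E) : Set E := convexHull ℝ (⋃ i, closedBall (x i) 1)

/-- The natural density of the family. -/
noncomputable def density {m : ℕ} (x : Fin m → E) : ℝ :=
  m * (volume (closedBall (0 : E) 1)).toReal / (volume (hull x)).toReal

/-- A packing whose natural density is the supremum over all packings of `m` unit balls. -/
def IsOptimal {m : ℕ} (x : Fin m → E) : Prop :=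
  IsPacking x ∧ IsLUB {r : ℝ | ∃ y : Fin m → E, IsPacking y ∧ r = density y} (density x)

/-- All centres are on one line. -/
def IsSausage {m : ℕ} (x : Fin m → E) : Prop := Collinear ℝ (Set.range x)

/-- The threshold `m_4`. -/
noncomputable def m4 : ℕ := sInf {m : ℕ | 2 ≤ m ∧ ∃ x : Fin m → E, IsOptimal x ∧ ¬ IsSausage x}

/-! ## The lattice configuration -/

/-- The lattice points of the configuration (to be multiplied by `√2`). -/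
def InC (v : Fin 4 → ℤ) : Prop :=
  Odd (v 0 + v 1 + v 2 + v 3) ∧ |v 0| + |v 1| + |v 2| + |v 3| ≤ 33 ∧
    |v 0| ≤ 17 ∧ |v 1| ≤ 16 ∧ |v 2| ≤ 16 ∧ |v 3| ≤ 16

/-- The centre `√2 v`. -/
noncomputable def pt (v : Fin 4 → ℤ) : E := WithLp.toLp 2 fun i => √2 * (v i : ℝ)

/-! ## The polytope and its parallel body (divided by `√2`) -/

/-- The half side lengths. -/
def T : Fin 4 → ℝ := ![17, 16, 16, 16]

/-- The polytope. -/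
def Pol : Set (Fin 4 → ℝ) := {q | |q 0| + |q 1| + |q 2| + |q 3| ≤ 33 ∧ ∀ i, |q i| ≤ T i}

/-- The points whose distance to the polytope is at most `1/√2`. -/
def NP : Set (Fin 4 → ℝ) := {x | ∃ q ∈ Pol, ∑ i, (x i - q i) ^ 2 ≤ 1 / 2}

/-- The part in the positive orthant. -/
def NPp : Set (Fin 4 → ℝ) := {x | x ∈ NP ∧ ∀ i, 0 ≤ x i}

/-! ## The pieces

`t` is the vector of the half side lengths after a permutation of the coordinates. First the pieces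
`I0, I1, I2` for which the nearest point is the one of the box (the number is the number of coordinates
with `x i ≥ t i`), then the pieces for which the nearest point is on the facet `q 0 + q 1 + q 2 + q 3 = 33`.
`Crzk`: for `r` coordinates `x i = q i + u`, `0 ≤ q i ≤ t i`, for the next `z` ones `0 = q i ≤ x i ≤ u`, for
the last `k` ones `q i = t i`, `t i + u ≤ x i`. `W` = `C022`. -/

/-- No coordinate above `t`. -/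
def I0 (t : Fin 4 → ℝ) : Set (Fin 4 → ℝ) :=
  {x | (∀ i, 0 ≤ x i ∧ x i ≤ t i) ∧ x 0 + x 1 + x 2 + x 3 ≤ 33}

/-- The coordinate `3` is above `t`. -/
def I1 (t : Fin 4 → ℝ) : Set (Fin 4 → ℝ) :=
  {x | 0 ≤ x 0 ∧ x 0 ≤ t 0 ∧ 0 ≤ x 1 ∧ x 1 ≤ t 1 ∧ 0 ≤ x 2 ∧ x 2 ≤ t 2 ∧
    x 0 + x 1 + x 2 ≤ 33 - t 3 ∧ t 3 ≤ x 3 ∧ (x 3 - t 3) ^ 2 ≤ 1 / 2}

/-- The coordinates `2, 3` are above `t`. -/
def I2 (t : Fin 4 → ℝ) : Set (Fin 4 → ℝ) :=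
  {x | 0 ≤ x 0 ∧ x 0 ≤ t 0 ∧ 0 ≤ x 1 ∧ x 1 ≤ t 1 ∧ x 0 + x 1 ≤ 33 - t 2 - t 3 ∧
    t 2 ≤ x 2 ∧ t 3 ≤ x 3 ∧ (x 2 - t 2) ^ 2 + (x 3 - t 3) ^ 2 ≤ 1 / 2}

def C400 (t : Fin 4 → ℝ) : Set (Fin 4 → ℝ) :=
  {x | ∃ u : ℝ, 0 ≤ u ∧ (∀ i, u ≤ x i ∧ x i ≤ t i + u) ∧ x 0 + x 1 + x 2 + x 3 = 33 + 4 * u ∧
    4 * u ^ 2 ≤ 1 / 2}

def C310 (t : Fin 4 → ℝ) : Set (Fin 4 → ℝ) :=
  {x | ∃ u : ℝ, 0 ≤ u ∧ u ≤ x 0 ∧ x 0 ≤ t 0 + u ∧ u ≤ x 1 ∧ x 1 ≤ t 1 + u ∧ u ≤ x 2 ∧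
    x 2 ≤ t 2 + u ∧ x 0 + x 1 + x 2 = 33 + 3 * u ∧ 0 ≤ x 3 ∧ x 3 ≤ u ∧
    3 * u ^ 2 + x 3 ^ 2 ≤ 1 / 2}

def C301 (t : Fin 4 → ℝ) : Set (Fin 4 → ℝ) :=
  {x | ∃ u : ℝ, 0 ≤ u ∧ u ≤ x 0 ∧ x 0 ≤ t 0 + u ∧ u ≤ x 1 ∧ x 1 ≤ t 1 + u ∧ u ≤ x 2 ∧
    x 2 ≤ t 2 + u ∧ x 0 + x 1 + x 2 = 33 - t 3 + 3 * u ∧ t 3 + u ≤ x 3 ∧
    3 * u ^ 2 + (x 3 - t 3) ^ 2 ≤ 1 / 2}

def C211 (t : Fin 4 → ℝ) : Set (Fin 4 → ℝ) :=
  {x | ∃ u : ℝ, 0 ≤ u ∧ u ≤ x 0 ∧ x 0 ≤ t 0 + u ∧ u ≤ x 1 ∧ x 1 ≤ t 1 + u ∧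
    x 0 + x 1 = 33 - t 3 + 2 * u ∧ 0 ≤ x 2 ∧ x 2 ≤ u ∧ t 3 + u ≤ x 3 ∧
    2 * u ^ 2 + x 2 ^ 2 + (x 3 - t 3) ^ 2 ≤ 1 / 2}

def C202 (t : Fin 4 → ℝ) : Set (Fin 4 → ℝ) :=
  {x | ∃ u : ℝ, 0 ≤ u ∧ u ≤ x 0 ∧ u ≤ x 1 ∧ x 0 + x 1 = 33 - t 2 - t 3 + 2 * u ∧
    t 2 + u ≤ x 2 ∧ t 3 + u ≤ x 3 ∧ 2 * u ^ 2 + (x 2 - t 2) ^ 2 + (x 3 - t 3) ^ 2 ≤ 1 / 2}

def C112 (t : Fin 4 → ℝ) : Set (Fin 4 → ℝ) :=
  {x | ∃ u : ℝ, 0 ≤ u ∧ x 0 = 33 - t 2 - t 3 + u ∧ 0 ≤ x 1 ∧ x 1 ≤ u ∧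
    t 2 + u ≤ x 2 ∧ t 3 + u ≤ x 3 ∧
    u ^ 2 + x 1 ^ 2 + (x 2 - t 2) ^ 2 + (x 3 - t 3) ^ 2 ≤ 1 / 2}

def W (t : Fin 4 → ℝ) : Set (Fin 4 → ℝ) :=
  {x | ∃ u : ℝ, 0 ≤ x 0 ∧ x 0 ≤ u ∧ 0 ≤ x 1 ∧ x 1 ≤ u ∧ t 2 + u ≤ x 2 ∧ t 3 + u ≤ x 3 ∧
    x 0 ^ 2 + x 1 ^ 2 + (x 2 - t 2) ^ 2 + (x 3 - t 3) ^ 2 ≤ 1 / 2}

/-- The piece `C` for the coordinates in the order `e`. -/
def Pc (C : (Fin 4 → ℝ) → Set (Fin 4 → ℝ)) (e : Fin 4 → Fin 4) : Set (Fin 4 → ℝ) :=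
  {x | x ∘ e ∈ C (T ∘ e)}

/-! ## Volumes of sections of boxes -/

/-- `x^k / k!` for `x ≥ 0`, and `0` for `x < 0`. -/
noncomputable def pw (k : ℕ) (x : ℝ) : ℝ := if 0 ≤ x then x ^ k / k.factorial else 0

/-- The alternating sum of `pw` over the subsets of a list. -/
noncomputable def G : List ℝ → ℕ → ℝ → ℝ
  | [], k, x => pw k x
  | (t :: l), k, x => G l (k + 1) x - G l (k + 1) (x - t)

end Pool.Agent.Ssg
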