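import Pool.Agent.Lib.MP_5c10a1_co.Spec

/-!
# MP_5c10a1_co: assembly (`S_Fin`)
-/

set_option autoImplicit false

namespace Pool.Agent.Ssg

open MeasureTheory Metric

private lemma pk_iff {m : ℕ} (x : Fin m → E) :
    IsPacking x ↔ ∀ i j, i ≠ j → 2 ≤ dist (x i) (x j) := by
  have key : ∀ i j, Disjoint (interior (closedBall (x i) 1)) (interior (closedBall (x j) 1)) ↔
      2 ≤ dist (x i) (x j) := by
    intro i j
    rw [interior_closedBall _ one_ne_zero, interior_closedBall _ one_ne_zero,
      disjoint_ball_ball_iff one_pos one_pos]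
    norm_num
  constructor
  · intro h i j hij
    exact (key i j).mp (h hij)
  · intro h i j hij
    exact (key i j).mpr (h i j hij)

private lemma vol_lt_top {m : ℕ} (x : Fin m → E) : volume (hull x) < ⊤ := by
  have hb : Bornology.IsBounded (⋃ i, closedBall (x i) 1) :=
    Bornology.isBounded_iUnion.mpr fun i => isBounded_closedBall
  exact ((isBounded_convexHull).mpr hb).measure_lt_top

private lemma ball_sub {m : ℕ} (x : Fin m → E) (i : Fin m) : closedBall (x i) 1 ⊆ hull x :=
  (Set.subset_iUnion (fun i => closedBall (x i) 1) i).trans (subset_convexHull ℝ _)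

private lemma vol_pos {m : ℕ} (x : Fin m → E) (i : Fin m) : 0 < volume (hull x) :=
  (measure_closedBall_pos volume (x i) one_pos).trans_le (measure_mono (ball_sub x i))

private lemma toReal_pos {m : ℕ} (x : Fin m → E) (i : Fin m) : 0 < (volume (hull x)).toReal :=
  ENNReal.toReal_pos (vol_pos x i).ne' (vol_lt_top x).ne

private lemma kap_pos : 0 < (volume (closedBall (0 : E) 1)).toReal :=
  ENNReal.toReal_pos (measure_closedBall_pos volume _ one_pos).ne'
    (measure_closedBall_lt_top).ne

private lemma dens_le {m : ℕ} (x y : Fin m → E) (i : Fin m) :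
    density y ≤ density x ↔ volume (hull x) ≤ volume (hull y) := by
  have hm : (0 : ℝ) < m := by exact_mod_cast i.pos
  have hc : 0 < m * (volume (closedBall (0 : E) 1)).toReal := mul_pos hm kap_pos
  unfold density
  rw [div_le_div_iff_of_pos_left hc (toReal_pos y i) (toReal_pos x i),
    ENNReal.toReal_le_toReal (vol_lt_top x).ne (vol_lt_top y).ne]

theorem tFin : S_Opt → S_Cap → S_Col → S_Hull → S_Orth → S_Tot → S_Num → S_Sep → S_Cnt → S_Fin := by
  intro hOpt hCap hCol hHull hOrth hTot hNum hSep hCnt
  have hns : ∀ x : Fin 327522 → E, IsOptimal x → ¬ IsSausage x := by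
    intro x hx hsa
    obtain ⟨c, hci, hc⟩ := hCnt
    have i0 : Fin 327522 := ⟨0, by norm_num⟩
    have hy : IsPacking (fun i => pt (c i)) := by
      rw [pk_iff]
      intro i j hij
      exact hSep _ _ (hc i) (hc j) (fun h => hij (hci h))
    have h1 : density (fun i => pt (c i)) ≤ density x := hx.2.1 ⟨_, hy, rfl⟩
    rw [dens_le x _ i0] at h1
    have h2 := h1.trans (hHull _ c hc)
    have h3 : volume (hull x) ≤ 64 * volume NPp := by
      refine h2.trans ?_
      calc 4 * volume NP ≤ 4 * (16 * volume NPp) := by gcongr; exact hOrth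
        _ = 64 * volume NPp := by rw [← mul_assoc]; norm_num
    obtain ⟨i, j, hij⟩ := hCol _ x (by norm_num) ((pk_iff x).mp hx.1) hsa
    have h4 := hCap (x i) (x j)
    have h5 : convexHull ℝ (closedBall (x i) 1 ∪ closedBall (x j) 1) ⊆ hull x :=
      convexHull_mono (Set.union_subset
        (Set.subset_iUnion (fun i => closedBall (x i) 1) i)
        (Set.subset_iUnion (fun i => closedBall (x i) 1) j))
    have h6 := h4.trans ((measure_mono h5).trans (h3.trans (mul_le_mul_right hTot 64)))
    have e64 : (64 : ENNReal) = ENNReal.ofReal 64 := by norm_num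
    rw [e64, ← ENNReal.ofReal_mul (by norm_num)] at h6
    have hpi := Real.pi_pos
    have h7 := (ENNReal.ofReal_le_ofReal_iff (by positivity)).mp h6
    have h8 : 4 * Real.pi / 3 * (2 * 327521) ≤ 4 * Real.pi / 3 * dist (x i) (x j) := by
      refine mul_le_mul_of_nonneg_left ?_ (by positivity)
      refine le_trans (le_of_eq ?_) hij
      norm_num
    have h9 := hNum
    unfold S_Num at h9
    linarith
  have hex : ∃ x : Fin 327522 → E, IsOptimal x := by
    obtain ⟨x, hx, hmin⟩ := hOpt 327522 (by norm_num)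
    refine ⟨x, (pk_iff x).mpr hx, ?_, ?_⟩
    · rintro r ⟨y, hy, rfl⟩
      exact (dens_le x y ⟨0, by norm_num⟩).mpr (hmin y ((pk_iff y).mp hy))
    · intro r hr
      exact hr ⟨x, (pk_iff x).mpr hx, rfl⟩
  refine ⟨hex, hns, ?_⟩
  obtain ⟨x, hx⟩ := hex
  exact Nat.sInf_le ⟨by norm_num, x, hx, hns x hx⟩

end Pool.Agent.Ssg
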