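import Pool.Agent.Lib.MP_5c10a1_co.Spec

/-!
# MP_5c10a1_co (sausage catastrophe): `S_Hull`
-/

set_option autoImplicit false

namespace Pool.Agent.Ssg

open MeasureTheory Metric

namespace HullAux

theorem pol_convex {q q' : Fin 4 → ℝ} (hq : q ∈ Pol) (hq' : q' ∈ Pol) {a b : ℝ} (ha : 0 ≤ a) (hb : 0 ≤ b)
    (hab : a + b = 1) : a • q + b • q' ∈ Pol := by
  have h : ∀ i, |(a • q + b • q') i| ≤ a * |q i| + b * |q' i| := by
    intro i
    simp only [Pi.add_apply, Pi.smul_apply, smul_eq_mul]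
    refine (abs_add_le _ _).trans ?_
    rw [abs_mul, abs_mul, abs_of_nonneg ha, abs_of_nonneg hb]
  obtain ⟨h1, h2⟩ := hq
  obtain ⟨h1', h2'⟩ := hq'
  refine ⟨?_, fun i => (h i).trans ?_⟩
  · have e0 := h 0
    have e1 := h 1
    have e2 := h 2
    have e3 := h 3
    have := mul_le_mul_of_nonneg_left h1 ha
    have := mul_le_mul_of_nonneg_left h1' hb
    have h33 : a * 33 + b * 33 = 33 := by rw [← add_mul, hab, one_mul]
    linarith
  · have := mul_le_mul_of_nonneg_left (h2 i) ha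
    have := mul_le_mul_of_nonneg_left (h2' i) hb
    have hT : a * T i + b * T i = T i := by rw [← add_mul, hab, one_mul]
    linarith

theorem np_convex : Convex ℝ NP := by
  rintro x ⟨q, hq, hx⟩ x' ⟨q', hq', hx'⟩ a b ha hb hab
  refine ⟨a • q + b • q', pol_convex hq hq' ha hb hab, ?_⟩
  have h : ∀ i, ((a • x + b • x') i - (a • q + b • q') i) ^ 2 ≤
      a * (x i - q i) ^ 2 + b * (x' i - q' i) ^ 2 := by
    intro i
    simp only [Pi.add_apply, Pi.smul_apply, smul_eq_mul]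
    have hb' : b = 1 - a := by linarith
    have : a * (x i - q i) ^ 2 + b * (x' i - q' i) ^ 2 -
        ((a * x i + b * x' i) - (a * q i + b * q' i)) ^ 2 =
        a * b * ((x i - q i) - (x' i - q' i)) ^ 2 := by
      rw [hb']
      ring
    have h3 : 0 ≤ a * b * ((x i - q i) - (x' i - q' i)) ^ 2 := by positivity
    linarith
  refine (Finset.sum_le_sum fun i _ => h i).trans ?_
  rw [Finset.sum_add_distrib, ← Finset.mul_sum, ← Finset.mul_sum]
  have := mul_le_mul_of_nonneg_left hx ha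
  have := mul_le_mul_of_nonneg_left hx' hb
  have h12 : a * (1 / 2) + b * (1 / 2) = (1 : ℝ) / 2 := by rw [← add_mul, hab, one_mul]
  linarith

theorem mem_pol {v : Fin 4 → ℤ} (hv : InC v) : (fun i => (v i : ℝ)) ∈ Pol := by
  obtain ⟨-, h, h0, h1, h2, h3⟩ := hv
  have h' : |(v 0 : ℝ)| + |(v 1 : ℝ)| + |(v 2 : ℝ)| + |(v 3 : ℝ)| ≤ 33 := by exact_mod_cast h
  have h0' : |(v 0 : ℝ)| ≤ 17 := by exact_mod_cast h0
  have h1' : |(v 1 : ℝ)| ≤ 16 := by exact_mod_cast h1
  have h2' : |(v 2 : ℝ)| ≤ 16 := by exact_mod_cast h2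
  have h3' : |(v 3 : ℝ)| ≤ 16 := by exact_mod_cast h3
  refine ⟨h', fun i => ?_⟩
  fin_cases i
  · exact h0'
  · exact h1'
  · exact h2'
  · exact h3'

end HullAux

theorem tHull : S_Hull := by
  intro m c hc
  have h2 : (0 : ℝ) < √2 := by positivity
  have hsq : √2 ^ 2 = 2 := Real.sq_sqrt (by norm_num)
  -- the preimage of `NP`
  set S : Set (Fin 4 → ℝ) := (fun y : Fin 4 → ℝ => (√2)⁻¹ • y) ⁻¹' NP with hS
  set D : Set E := (MeasurableEquiv.toLp 2 (Fin 4 → ℝ)).symm ⁻¹' S with hD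
  have hmem : ∀ x : E, x ∈ D ↔ (√2)⁻¹ • WithLp.ofLp x ∈ NP := fun x => Iff.rfl
  have hconv : Convex ℝ D := by
    intro x hx y hy a b ha hb hab
    rw [hmem] at hx hy ⊢
    have := HullAux.np_convex hx hy ha hb hab
    have h3 : (√2)⁻¹ • WithLp.ofLp (a • x + b • y) =
        a • ((√2)⁻¹ • WithLp.ofLp x) + b • ((√2)⁻¹ • WithLp.ofLp y) := by
      ext i
      simp only [WithLp.ofLp_add, WithLp.ofLp_smul, Pi.add_apply, Pi.smul_apply, smul_eq_mul]
      ring
    rw [h3]
    exact this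
  have hsub : hull (fun i => pt (c i)) ⊆ D := by
    refine convexHull_min (Set.iUnion_subset fun i x hx => ?_) hconv
    rw [hmem]
    refine ⟨fun j => (c i j : ℝ), HullAux.mem_pol (hc i), ?_⟩
    rw [mem_closedBall, EuclideanSpace.dist_eq, Real.sqrt_le_iff] at hx
    obtain ⟨-, hx⟩ := hx
    rw [one_pow] at hx
    have h3 : ∀ j, (((√2)⁻¹ • WithLp.ofLp x) j - (c i j : ℝ)) ^ 2 =
        1 / 2 * dist (x j) (pt (c i) j) ^ 2 := by
      intro j
      rw [Real.dist_eq, sq_abs]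
      have h4 : (((√2)⁻¹ • WithLp.ofLp x) j - (c i j : ℝ)) = (√2)⁻¹ * (x j - pt (c i) j) := by
        simp only [pt, Pi.smul_apply, smul_eq_mul]
        field_simp
      rw [h4, mul_pow, inv_pow, hsq]
      ring
    simp only [h3]
    rw [← Finset.mul_sum]
    linarith
  calc volume (hull fun i => pt (c i)) ≤ volume D := measure_mono hsub
    _ = volume S := (EuclideanSpace.volume_preserving_symm_measurableEquiv_toLp (Fin 4)).measure_preimage_equiv S
    _ = 4 * volume NP := by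
      rw [hS, Measure.addHaar_preimage_smul volume (inv_ne_zero h2.ne')]
      congr 1
      have h4 : √2 ^ 4 = 4 := by
        calc √2 ^ 4 = (√2 ^ 2) ^ 2 := by ring
          _ = 4 := by rw [hsq]; norm_num
      rw [Module.finrank_fin_fun, inv_pow, h4]
      norm_num

end Pool.Agent.Ssg
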