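import Pool.Agent.Lib.MP_5c10a1_co.Spec

/-!
# MP_5c10a1_co: linear maps, permutations and products
-/

set_option autoImplicit false

namespace Pool.Agent.Ssg

open MeasureTheory Metric

theorem tLin : S_Lin := by
  intro M b U C h
  have h1 : C ⊆ (fun x => x + b) '' (Matrix.toLin' M '' U) := by
    intro x hx
    obtain ⟨u, hu, rfl⟩ := h x hx
    exact ⟨M.mulVec u, ⟨u, hu, Matrix.toLin'_apply M u⟩, rfl⟩
  refine (measure_mono h1).trans (le_of_eq ?_)
  rw [Set.image_add_right, measure_preimage_add_right, Measure.addHaar_image_linearMap,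
    LinearMap.det_toLin']

private theorem perm_apply (e : Fin 4 ≃ Fin 4) (x : Fin 4 → ℝ) :
    MeasurableEquiv.piCongrLeft (fun _ : Fin 4 => ℝ) e.symm x = x ∘ e := by
  funext i
  obtain ⟨j, rfl⟩ := e.symm.surjective i
  rw [Function.comp_apply, Equiv.apply_symm_apply]
  exact Equiv.piCongrLeft_apply_apply (fun _ : Fin 4 => ℝ) e.symm x j

theorem tPerm : S_Perm := by
  intro e he s
  have h1 := (volume_measurePreserving_piCongrLeft (fun _ : Fin 4 => ℝ)
    (Equiv.ofBijective e he).symm).measure_preimage_equiv s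
  rw [← h1]
  refine congrArg volume (Set.ext fun x => ?_)
  rw [Set.mem_preimage, perm_apply]
  rfl

theorem tPr : S_Pr := by
  constructor
  · intro I Q
    have h1 := (volume_preserving_piFinSuccAbove (fun _ : Fin 4 => ℝ) 0).measure_preimage_equiv
      (I ×ˢ Q)
    rw [Measure.volume_eq_prod, Measure.prod_prod] at h1
    rw [← h1]
    refine congrArg volume (Set.ext fun x => ?_)
    have h2 : ![x 1, x 2, x 3] = fun j : Fin 3 => x (Fin.succAbove 0 j) := by
      funext j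
      fin_cases j <;> rfl
    rw [Set.mem_ofPred_eq, h2]
    rfl
  · intro A B
    have h1 := (volume_measurePreserving_piCongrLeft (fun _ : Fin 4 => ℝ)
      (finSumFinEquiv : Fin 2 ⊕ Fin 2 ≃ Fin 4)).measure_preimage_equiv
      {u : Fin 4 → ℝ | ![u 0, u 1] ∈ A ∧ ![u 2, u 3] ∈ B}
    have h2 := (volume_measurePreserving_sumPiEquivProdPi
      (fun _ : Fin 2 ⊕ Fin 2 => ℝ)).measure_preimage_equiv (A ×ˢ B)
    rw [Measure.volume_eq_prod, Measure.prod_prod] at h2
    rw [← h1, ← h2]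
    refine congrArg volume (Set.ext fun x => ?_)
    have h3 : ∀ j : Fin 2 ⊕ Fin 2, MeasurableEquiv.piCongrLeft (fun _ : Fin 4 => ℝ)
        (finSumFinEquiv : Fin 2 ⊕ Fin 2 ≃ Fin 4) x (finSumFinEquiv j) = x j := fun j =>
      Equiv.piCongrLeft_apply_apply (fun _ : Fin 4 => ℝ)
        (finSumFinEquiv : Fin 2 ⊕ Fin 2 ≃ Fin 4) x j
    have h4 : ![MeasurableEquiv.piCongrLeft (fun _ : Fin 4 => ℝ)
        (finSumFinEquiv : Fin 2 ⊕ Fin 2 ≃ Fin 4) x 0,
        MeasurableEquiv.piCongrLeft (fun _ : Fin 4 => ℝ)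
        (finSumFinEquiv : Fin 2 ⊕ Fin 2 ≃ Fin 4) x 1] = fun i => x (Sum.inl i) := by
      funext i
      fin_cases i
      · exact h3 (Sum.inl 0)
      · exact h3 (Sum.inl 1)
    have h5 : ![MeasurableEquiv.piCongrLeft (fun _ : Fin 4 => ℝ)
        (finSumFinEquiv : Fin 2 ⊕ Fin 2 ≃ Fin 4) x 2,
        MeasurableEquiv.piCongrLeft (fun _ : Fin 4 => ℝ)
        (finSumFinEquiv : Fin 2 ⊕ Fin 2 ≃ Fin 4) x 3] = fun i => x (Sum.inr i) := by
      funext i
      fin_cases i
      · exact h3 (Sum.inr 0)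
      · exact h3 (Sum.inr 1)
    rw [Set.mem_preimage, Set.mem_ofPred_eq, h4, h5]
    rfl

end Pool.Agent.Ssg
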