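import Pool.Agent.Lib.MP_5c10a1_co.Spec

set_option autoImplicit false

namespace Pool.Agent.Ssg

open MeasureTheory Metric

open scoped Pointwise

namespace Lsc

theorem sub (m : ℕ) (x y : Fin m → E) (i₀ : Fin m) (ε : ℝ) (h0 : 0 ≤ ε) (h1 : ε < 1)
    (hx : x i₀ = 0) (hxy : ∀ i, dist (x i) (y i) ≤ ε) : (1 - ε) • hull x ⊆ hull y := by
  unfold hull
  rw [← convexHull_smul]
  refine convexHull_min ?_ (convex_convexHull ℝ _)
  rintro _ ⟨z, hz, rfl⟩
  obtain ⟨i, hi⟩ := Set.mem_iUnion.1 hz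
  set w : E := z - x i with hw
  have hwn : ‖w‖ ≤ 1 := by
    rw [hw, ← dist_eq_norm]
    exact hi
  have hsw : ‖(1 - ε) • w‖ ≤ 1 - ε := by
    rw [norm_smul, Real.norm_eq_abs, abs_of_nonneg (by linarith)]
    nlinarith [norm_nonneg w]
  have hA : x i + (1 - ε) • w ∈ convexHull ℝ (⋃ i, closedBall (y i) 1) := by
    refine subset_convexHull ℝ _ (Set.mem_iUnion.2 ⟨i, ?_⟩)
    rw [mem_closedBall]
    have h2 : dist (x i + (1 - ε) • w) (x i) ≤ 1 - ε := by
      rw [dist_eq_norm, add_sub_cancel_left]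
      exact hsw
    calc dist (x i + (1 - ε) • w) (y i) ≤ dist (x i + (1 - ε) • w) (x i) + dist (x i) (y i) :=
          dist_triangle _ _ _
      _ ≤ (1 - ε) + ε := add_le_add h2 (hxy i)
      _ = 1 := by ring
  have hB : (1 - ε) • w ∈ convexHull ℝ (⋃ i, closedBall (y i) 1) := by
    refine subset_convexHull ℝ _ (Set.mem_iUnion.2 ⟨i₀, ?_⟩)
    rw [mem_closedBall]
    have h2 : dist ((1 - ε) • w) (x i₀) ≤ 1 - ε := by
      rw [hx, dist_zero_right]
      exact hsw
    calc dist ((1 - ε) • w) (y i₀) ≤ dist ((1 - ε) • w) (x i₀) + dist (x i₀) (y i₀) :=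
          dist_triangle _ _ _
      _ ≤ (1 - ε) + ε := add_le_add h2 (hxy i₀)
      _ = 1 := by ring
  have hC := (convex_convexHull ℝ (⋃ i, closedBall (y i) 1)) hA hB
    (by linarith : (0 : ℝ) ≤ 1 - ε) h0 (by ring)
  have hz' : z = x i + w := by rw [hw]; abel
  have hD : (1 - ε) • (x i + (1 - ε) • w) + ε • ((1 - ε) • w) = (1 - ε) • z := by
    rw [hz', smul_add, smul_add, smul_smul, smul_smul, add_assoc, ← add_smul]
    congr 2
    ring
  show (1 - ε) • z ∈ _
  rw [← hD]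
  exact hC

end Lsc

theorem tLsc : S_Lsc := by
  intro m x y i₀ ε h0 h1 hx hxy
  have h2 := Lsc.sub m x y i₀ ε h0 h1 hx hxy
  have h3 : volume ((1 - ε) • hull x) = ENNReal.ofReal ((1 - ε) ^ 4) * volume (hull x) := by
    rw [Measure.addHaar_smul]
    have h4 : Module.finrank ℝ E = 4 := by simp
    rw [h4, abs_of_nonneg (pow_nonneg (by linarith) 4)]
  rw [← h3]
  exact measure_mono h2

end Pool.Agent.Ssg
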