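import Pool.Agent.Lib.MP_5c10a1_co.Spec

set_option autoImplicit false

namespace Pool.Agent.Ssg

namespace Near

private theorem T_pos (i : Fin 4) : 0 < T i := by
  fin_cases i <;> norm_num [T]

/-- the candidate -/
private noncomputable def cl (x : Fin 4 → ℝ) (u : ℝ) (i : Fin 4) : ℝ :=
  min (max (x i - u) 0) (T i)

private theorem cl_cases (x : Fin 4 → ℝ) (u : ℝ) (i : Fin 4) (hx : 0 ≤ x i) :
    (0 ≤ x i ∧ x i ≤ u ∧ cl x u i = 0) ∨ (u < x i ∧ x i < T i + u ∧ cl x u i = x i - u) ∨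
      (T i + u ≤ x i ∧ cl x u i = T i) := by
  have hT := T_pos i
  rcases le_or_gt (x i) u with h | h
  · left
    refine ⟨hx, h, ?_⟩
    unfold cl
    rw [max_eq_right (by linarith), min_eq_left hT.le]
  · right
    rcases lt_or_ge (x i) (T i + u) with h2 | h2
    · left
      refine ⟨h, h2, ?_⟩
      unfold cl
      rw [max_eq_left (by linarith), min_eq_left (by linarith)]
    · right
      refine ⟨h2, ?_⟩
      unfold cl
      rw [max_eq_left (by linarith), min_eq_right (by linarith)]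

private theorem step (x q q' : Fin 4 → ℝ) (u : ℝ) (i : Fin 4) (hu : 0 ≤ u)
    (h : (0 ≤ x i ∧ x i ≤ u ∧ q i = 0) ∨ (u < x i ∧ x i < T i + u ∧ q i = x i - u) ∨
      (T i + u ≤ x i ∧ q i = T i)) (hq' : |q' i| ≤ T i) :
    (x i - q i) * (q' i - q i) ≤ u * (|q' i| - q i) := by
  have habs : q' i ≤ |q' i| := le_abs_self _
  have h0 : 0 ≤ |q' i| := abs_nonneg _
  rcases h with ⟨h1, h2, h3⟩ | ⟨h1, h2, h3⟩ | ⟨h1, h3⟩
  · rw [h3]
    have ha : x i * q' i ≤ x i * |q' i| := mul_le_mul_of_nonneg_left habs h1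
    have hb : x i * |q' i| ≤ u * |q' i| := mul_le_mul_of_nonneg_right h2 h0
    linarith
  · have hxu : x i - q i = u := by rw [h3]; ring
    rw [hxu]
    exact mul_le_mul_of_nonneg_left (by linarith) hu
  · rw [h3]
    have ha : q' i - T i ≤ 0 := by linarith
    have hb : (x i - T i) * (q' i - T i) ≤ u * (q' i - T i) := by
      have hc : u ≤ x i - T i := by linarith
      nlinarith
    have hd : u * (q' i - T i) ≤ u * (|q' i| - T i) := mul_le_mul_of_nonneg_left (by linarith) hu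
    linarith

private theorem dist (x q q' : Fin 4 → ℝ) (u : ℝ) (hu : 0 ≤ u)
    (halt : (u = 0 ∧ q 0 + q 1 + q 2 + q 3 ≤ 33) ∨ q 0 + q 1 + q 2 + q 3 = 33)
    (h : ∀ i, (0 ≤ x i ∧ x i ≤ u ∧ q i = 0) ∨ (u < x i ∧ x i < T i + u ∧ q i = x i - u) ∨
      (T i + u ≤ x i ∧ q i = T i)) (hq' : q' ∈ Pol) :
    ∑ i, (x i - q i) ^ 2 ≤ ∑ i, (x i - q' i) ^ 2 := by
  obtain ⟨hs, hT⟩ := hq'
  have h0 := step x q q' u 0 hu (h 0) (hT 0)
  have h1 := step x q q' u 1 hu (h 1) (hT 1)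
  have h2 := step x q q' u 2 hu (h 2) (hT 2)
  have h3 := step x q q' u 3 hu (h 3) (hT 3)
  have hsum : (x 0 - q 0) * (q' 0 - q 0) + (x 1 - q 1) * (q' 1 - q 1) +
      (x 2 - q 2) * (q' 2 - q 2) + (x 3 - q 3) * (q' 3 - q 3) ≤ 0 := by
    have hle : u * (|q' 0| - q 0) + u * (|q' 1| - q 1) + u * (|q' 2| - q 2) +
        u * (|q' 3| - q 3) ≤ 0 := by
      have he : u * (|q' 0| - q 0) + u * (|q' 1| - q 1) + u * (|q' 2| - q 2) +
        u * (|q' 3| - q 3) = u * ((|q' 0| + |q' 1| + |q' 2| + |q' 3|) -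
          (q 0 + q 1 + q 2 + q 3)) := by ring
      rw [he]
      rcases halt with ⟨hu0, _⟩ | hq
      · rw [hu0, zero_mul]
      · rw [hq]
        exact mul_nonpos_of_nonneg_of_nonpos hu (by linarith)
    linarith
  rw [Fin.sum_univ_four, Fin.sum_univ_four]
  nlinarith [sq_nonneg (q 0 - q' 0), sq_nonneg (q 1 - q' 1), sq_nonneg (q 2 - q' 2),
    sq_nonneg (q 3 - q' 3)]

end Near

open Near in
theorem tNear : S_Near := by
  intro x hx
  obtain ⟨⟨q', hq', hd⟩, hpos⟩ := hx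
  have hcont : Continuous fun u : ℝ => cl x u 0 + cl x u 1 + cl x u 2 + cl x u 3 := by
    unfold cl
    fun_prop
  obtain ⟨u, hu, halt⟩ : ∃ u : ℝ, 0 ≤ u ∧
      ((u = 0 ∧ cl x u 0 + cl x u 1 + cl x u 2 + cl x u 3 ≤ 33) ∨
        cl x u 0 + cl x u 1 + cl x u 2 + cl x u 3 = 33) := by
    rcases le_or_gt (cl x 0 0 + cl x 0 1 + cl x 0 2 + cl x 0 3) 33 with h | h
    · exact ⟨0, le_rfl, Or.inl ⟨rfl, h⟩⟩
    · have hx0 := hpos 0
      have hx1 := hpos 1
      have hx2 := hpos 2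
      have hx3 := hpos 3
      have hz : ∀ i, x i ≤ x 0 + x 1 + x 2 + x 3 → cl x (x 0 + x 1 + x 2 + x 3) i = 0 := by
        intro i hi
        rcases cl_cases x (x 0 + x 1 + x 2 + x 3) i (hpos i) with h1 | h1 | h1
        · exact h1.2.2
        · exact absurd h1.1 (not_lt.2 hi)
        · have := T_pos i
          exact absurd h1.1 (by linarith)
      have hU : (0 : ℝ) ≤ x 0 + x 1 + x 2 + x 3 := by linarith
      obtain ⟨u, hu, hfu⟩ := intermediate_value_Icc' hU hcont.continuousOn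
        (show (33 : ℝ) ∈ Set.Icc _ _ from ⟨by
          simp only [hz 0 (by linarith), hz 1 (by linarith), hz 2 (by linarith),
            hz 3 (by linarith)]
          norm_num, h.le⟩)
      exact ⟨u, hu.1, Or.inr hfu⟩
  refine ⟨u, cl x u, hu, halt, fun i => cl_cases x u i (hpos i), ?_⟩
  exact (dist x (cl x u) q' u hu halt (fun i => cl_cases x u i (hpos i)) hq').trans hd

end Pool.Agent.Ssg
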