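import Pool.Agent.Lib.MP_5c10a1_co.Spec

/-!
# MP_5c10a1_co: the numerical inequality and the distances (`S_Num`, `S_Sep`)
-/

set_option autoImplicit false

namespace Pool.Agent.Ssg

open MeasureTheory Metric

theorem tNum : S_Num := by
  unfold S_Num
  have hp1 := Real.pi_gt_d6
  have hp2 := Real.pi_lt_d6
  have hp0 : 0 < Real.pi := Real.pi_pos
  have hs : √(1 / 2 : ℝ) ≤ 0.7071068 := by
    rw [Real.sqrt_le_left (by norm_num)]; norm_num
  have hr : √(3 : ℝ) ≤ 1.7320509 := by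
    rw [Real.sqrt_le_left (by norm_num)]; norm_num
  have hrp : √(3 : ℝ) * Real.pi ≤ 1.7320509 * 3.141593 :=
    mul_le_mul hr hp2.le hp0.le (by norm_num)
  have hpp : (3.141592 : ℝ) * 3.141592 ≤ Real.pi ^ 2 := by
    nlinarith
  nlinarith

theorem tSep : S_Sep := by
  intro v w hv hw hvw
  have hev : Even ((v 0 + v 1 + v 2 + v 3) - (w 0 + w 1 + w 2 + w 3)) := hv.1.sub_odd hw.1
  have key : (2 : ℤ) ≤ (v 0 - w 0) ^ 2 + (v 1 - w 1) ^ 2 + (v 2 - w 2) ^ 2 + (v 3 - w 3) ^ 2 := by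
    by_contra hlt
    push Not at hlt
    have h0 := sq_nonneg (v 0 - w 0)
    have h1 := sq_nonneg (v 1 - w 1)
    have h2 := sq_nonneg (v 2 - w 2)
    have h3 := sq_nonneg (v 3 - w 3)
    have hE : Even ((v 0 - w 0) ^ 2 + (v 1 - w 1) ^ 2 + (v 2 - w 2) ^ 2 + (v 3 - w 3) ^ 2) := by
      have e : (v 0 - w 0) ^ 2 + (v 1 - w 1) ^ 2 + (v 2 - w 2) ^ 2 + (v 3 - w 3) ^ 2
          = ((v 0 + v 1 + v 2 + v 3) - (w 0 + w 1 + w 2 + w 3))
            + ((v 0 - w 0) * (v 0 - w 0 - 1) + (v 1 - w 1) * (v 1 - w 1 - 1)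
              + (v 2 - w 2) * (v 2 - w 2 - 1) + (v 3 - w 3) * (v 3 - w 3 - 1)) := by ring
      rw [e]
      refine hev.add (((Even.add ?_ ?_).add ?_).add ?_) <;> exact Int.even_mul_pred_self _
    have hz : (v 0 - w 0) ^ 2 + (v 1 - w 1) ^ 2 + (v 2 - w 2) ^ 2 + (v 3 - w 3) ^ 2 = 0 := by
      obtain ⟨k, hk⟩ := hE
      omega
    apply hvw
    have g0 : (v 0 - w 0) ^ 2 = 0 := by linarith
    have g1 : (v 1 - w 1) ^ 2 = 0 := by linarith
    have g2 : (v 2 - w 2) ^ 2 = 0 := by linarith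
    have g3 : (v 3 - w 3) ^ 2 = 0 := by linarith
    have f0 := pow_eq_zero_iff (two_ne_zero) |>.mp g0
    have f1 := pow_eq_zero_iff (two_ne_zero) |>.mp g1
    have f2 := pow_eq_zero_iff (two_ne_zero) |>.mp g2
    have f3 := pow_eq_zero_iff (two_ne_zero) |>.mp g3
    funext i
    fin_cases i <;> simp <;> linarith
  have keyR : (2 : ℝ) ≤ ((v 0 : ℝ) - w 0) ^ 2 + ((v 1 : ℝ) - w 1) ^ 2 + ((v 2 : ℝ) - w 2) ^ 2
      + ((v 3 : ℝ) - w 3) ^ 2 := by exact_mod_cast key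
  rw [EuclideanSpace.dist_eq]
  apply Real.le_sqrt_of_sq_le
  have h2 : (√2 : ℝ) ^ 2 = 2 := Real.sq_sqrt (by norm_num)
  have e : ∀ i : Fin 4, dist ((pt v) i) ((pt w) i) ^ 2 = 2 * ((v i : ℝ) - w i) ^ 2 := by
    intro i
    simp only [pt, Real.dist_eq, sq_abs]
    have : √2 * (v i : ℝ) - √2 * (w i : ℝ) = √2 * ((v i : ℝ) - w i) := by ring
    rw [this, mul_pow, h2]
  simp only [e, Fin.sum_univ_four]
  linarith

end Pool.Agent.Ssg
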