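import Pool.Agent.Lib.MP_5c10a1_co.Spec

/-!
# Existence of a packing of minimal volume (Opt)
-/

set_option autoImplicit false

namespace Pool.Agent.Ssg

open MeasureTheory Metric Filter Topology
open scoped Pointwise

namespace Opt

theorem hull_subset {m : ℕ} (x : Fin m → E) (R : ℝ) (h : ∀ i, ‖x i‖ ≤ R) :
    hull x ⊆ closedBall (0 : E) (R + 1) := by
  apply convexHull_min
  · intro z hz
    obtain ⟨i, hi⟩ := Set.mem_iUnion.1 hz
    rw [mem_closedBall, dist_eq_norm] at hi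
    rw [mem_closedBall, dist_zero_right]
    have h1 : ‖z‖ ≤ ‖z - x i‖ + ‖x i‖ := by
      have := norm_add_le (z - x i) (x i)
      rwa [sub_add_cancel] at this
    linarith [h i]
  · exact convex_closedBall _ _

theorem vol_ne_top {m : ℕ} (x : Fin m → E) (R : ℝ) (h : ∀ i, ‖x i‖ ≤ R) :
    volume (hull x) ≠ ⊤ :=
  ((measure_mono (hull_subset x R h)).trans_lt measure_closedBall_lt_top).ne

/-- Translations do not change the volume of the hull. -/
theorem vol_sub {m : ℕ} (y : Fin m → E) (c : E) :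
    volume (hull fun i => y i - c) = volume (hull y) := by
  have h1 : (⋃ i, closedBall (y i - c) 1) = -c +ᵥ (⋃ i, closedBall (y i) 1) := by
    rw [Set.vadd_set_iUnion]
    apply Set.iUnion_congr
    intro i
    rw [vadd_closedBall, vadd_eq_add, neg_add_eq_sub]
  unfold hull
  rw [h1, convexHull_vadd, measure_vadd]

/-- The configurations under consideration. -/
def K (m : ℕ) (i₀ : Fin m) (R : ℝ) : Set (Fin m → E) :=
  {x | x i₀ = 0 ∧ (∀ i, ‖x i‖ ≤ R) ∧ ∀ i j, i ≠ j → 2 ≤ dist (x i) (x j)}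

theorem K_compact (m : ℕ) (i₀ : Fin m) (R : ℝ) : IsCompact (K m i₀ R) := by
  have h1 : IsCompact (Set.pi Set.univ fun _ : Fin m => closedBall (0 : E) R) :=
    isCompact_univ_pi fun _ => isCompact_closedBall _ _
  refine h1.of_isClosed_subset ?_ ?_
  · have e : K m i₀ R = {x | x i₀ = 0} ∩ ((⋂ i, {x | ‖x i‖ ≤ R}) ∩
        ⋂ i, ⋂ j, ⋂ (_ : i ≠ j), {x | 2 ≤ dist (x i) (x j)}) := by
      ext x
      simp [K]
    rw [e]
    refine (isClosed_eq (continuous_apply i₀) continuous_const).inter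
      ((isClosed_iInter fun i => isClosed_le (continuous_apply i).norm continuous_const).inter
        (isClosed_iInter fun i => isClosed_iInter fun j => isClosed_iInter fun _ =>
          isClosed_le continuous_const ((continuous_apply i).dist (continuous_apply j))))
  · intro x hx i _
    rw [mem_closedBall, dist_zero_right]
    exact hx.2.1 i

theorem lsc (hL : S_Lsc) (m : ℕ) (i₀ : Fin m) (R : ℝ) :
    LowerSemicontinuousOn (fun x : Fin m → E => volume (hull x)) (K m i₀ R) := by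
  intro x hx c hc
  -- a suitable `ε`
  have ht : Tendsto (fun ε : ℝ => ENNReal.ofReal ((1 - ε) ^ 4) * volume (hull x)) (𝓝[>] 0)
      (𝓝 (volume (hull x))) := by
    have h1 : Tendsto (fun ε : ℝ => ENNReal.ofReal ((1 - ε) ^ 4)) (𝓝[>] 0) (𝓝 1) := by
      have h2 : Tendsto (fun ε : ℝ => (1 - ε) ^ 4) (𝓝 0) (𝓝 ((1 - 0) ^ 4)) :=
        ((continuous_const.sub continuous_id).pow 4).tendsto 0
      have h3 := (ENNReal.continuous_ofReal.tendsto _).comp h2
      have h4 : ENNReal.ofReal ((1 - (0:ℝ)) ^ 4) = 1 := by norm_num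
      rw [h4] at h3
      exact h3.mono_left nhdsWithin_le_nhds
    have h5 := ENNReal.Tendsto.mul_const (b := volume (hull x)) h1 (Or.inl one_ne_zero)
    rwa [one_mul] at h5
  have hev : ∀ᶠ ε in 𝓝[>] (0:ℝ), c < ENNReal.ofReal ((1 - ε) ^ 4) * volume (hull x) :=
    ht.eventually (lt_mem_nhds hc)
  have hev2 : ∀ᶠ ε in 𝓝[>] (0:ℝ), ε ∈ Set.Ioo (0:ℝ) 1 := Ioo_mem_nhdsGT one_pos
  obtain ⟨ε, h1, h2⟩ := (hev.and hev2).exists
  have h3 : ∀ᶠ y in 𝓝[K m i₀ R] x, dist y x < ε :=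
    nhdsWithin_le_nhds (ball_mem_nhds x h2.1)
  filter_upwards [h3] with y hy
  refine h1.trans_le (hL m x y i₀ ε h2.1.le h2.2 hx.1 fun i => ?_)
  rw [dist_comm]
  exact (dist_le_pi_dist y x i).trans hy.le

/-- The straight configuration. -/
noncomputable def y₀ (m : ℕ) (i : Fin m) : E := EuclideanSpace.single 0 (2 * (i.1 : ℝ))

theorem y₀_norm (m : ℕ) (i : Fin m) : ‖y₀ m i‖ = 2 * i.1 := by
  unfold y₀
  rw [EuclideanSpace.norm_single, Real.norm_eq_abs, abs_of_nonneg (by positivity)]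

theorem y₀_dist (m : ℕ) (i j : Fin m) (hij : i ≠ j) : 2 ≤ dist (y₀ m i) (y₀ m j) := by
  unfold y₀
  rw [EuclideanSpace.dist_single_same, Real.dist_eq]
  have h1 : (1:ℝ) ≤ |(i.1 : ℝ) - j.1| := by
    have h2 : (i.1 : ℤ) - j.1 ≠ 0 := by
      intro h
      apply hij
      apply Fin.ext
      omega
    have h3 : (1:ℤ) ≤ |(i.1 : ℤ) - j.1| := Int.one_le_abs h2
    have h4 : ((1:ℤ) : ℝ) ≤ ((|(i.1 : ℤ) - j.1| : ℤ) : ℝ) := by exact_mod_cast h3
    simpa using h4
  have h5 : 2 * (i.1 : ℝ) - 2 * j.1 = 2 * ((i.1 : ℝ) - j.1) := by ring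
  rw [h5, abs_mul, abs_of_pos (by norm_num : (0:ℝ) < 2)]
  linarith

end Opt

open Opt

theorem tOpt : S_Cap → S_Lsc → S_Opt := by
  intro hC hL m hm
  set i₀ : Fin m := ⟨0, hm⟩ with hi₀
  have hb : ∀ i, ‖y₀ m i‖ ≤ 2 * (m : ℝ) := by
    intro i
    rw [y₀_norm]
    have : (i.1 : ℝ) ≤ m := by exact_mod_cast i.2.le
    linarith
  have hV : volume (hull (y₀ m)) ≠ ⊤ := vol_ne_top _ _ hb
  set R : ℝ := (volume (hull (y₀ m))).toReal + 2 * m with hR
  have hR0 : 0 ≤ (volume (hull (y₀ m))).toReal := ENNReal.toReal_nonneg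
  have hy₀ : y₀ m ∈ K m i₀ R := by
    refine ⟨?_, fun i => (hb i).trans (by linarith), y₀_dist m⟩
    unfold y₀
    simp [hi₀]
  obtain ⟨x, hx, hmin⟩ := LowerSemicontinuousOn.exists_isMinOn ⟨_, hy₀⟩ (K_compact m i₀ R)
    (lsc hL m i₀ R)
  refine ⟨x, hx.2.2, fun y hy => ?_⟩
  have hle : volume (hull x) ≤ volume (hull (y₀ m)) := hmin hy₀
  rw [← vol_sub y (y i₀)]
  set z : Fin m → E := fun i => y i - y i₀ with hz
  have hz0 : z i₀ = 0 := by simp [hz]
  have hzd : ∀ i j, i ≠ j → 2 ≤ dist (z i) (z j) := by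
    intro i j hij
    have : dist (z i) (z j) = dist (y i) (y j) := by
      rw [dist_eq_norm, dist_eq_norm]
      congr 1
      simp [hz]
    rw [this]
    exact hy i j hij
  by_cases hzR : ∀ i, ‖z i‖ ≤ R
  · exact hmin ⟨hz0, hzR, hzd⟩
  · push Not at hzR
    obtain ⟨i, hi⟩ := hzR
    have h1 := hC (z i₀) (z i)
    have h2 : volume (convexHull ℝ (closedBall (z i₀) 1 ∪ closedBall (z i) 1)) ≤ volume (hull z) := by
      apply measure_mono
      apply convexHull_mono
      exact Set.union_subset (Set.subset_iUnion (fun i => closedBall (z i) 1) i₀)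
        (Set.subset_iUnion (fun i => closedBall (z i) 1) i)
    refine hle.trans (le_trans ?_ (h1.trans h2))
    rw [← ENNReal.ofReal_toReal hV]
    apply ENNReal.ofReal_le_ofReal
    have h3 : dist (z i₀) (z i) = ‖z i‖ := by rw [hz0, dist_zero_left]
    rw [h3]
    have hpi : (3:ℝ) ≤ Real.pi := Real.pi_gt_three.le
    have h4 : (1:ℝ) ≤ 4 * Real.pi / 3 := by linarith
    have hm0 : (0:ℝ) ≤ m := Nat.cast_nonneg m
    have h5 : ‖z i‖ ≤ 4 * Real.pi / 3 * ‖z i‖ := by
      have := norm_nonneg (z i)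
      nlinarith
    have h6 : 0 ≤ Real.pi ^ 2 / 2 := by positivity
    linarith

end Pool.Agent.Ssg
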