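import Pool.Agent.Lib.MP_5c10a1_co.Spec

/-!
# MP_5c10a1_co: the sixteen reflections
-/

set_option autoImplicit false

namespace Pool.Agent.Ssg

open MeasureTheory

namespace OrthM

/-- The signs. -/
private noncomputable def sg (s : Fin 4 → Bool) (i : Fin 4) : ℝ := if s i then -1 else 1

private theorem sg_abs (s : Fin 4 → Bool) (i : Fin 4) : |sg s i| = 1 := by
  unfold sg
  split_ifs <;> simp

private theorem sg_sq (s : Fin 4 → Bool) (i : Fin 4) : sg s i ^ 2 = 1 := by
  rw [← sq_abs, sg_abs, one_pow]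

/-- The reflection. -/
private noncomputable def rf (s : Fin 4 → Bool) : (Fin 4 → ℝ) →ₗ[ℝ] (Fin 4 → ℝ) :=
  Matrix.toLin' (Matrix.diagonal (sg s))

private theorem rf_apply (s : Fin 4 → Bool) (x : Fin 4 → ℝ) (i : Fin 4) :
    rf s x i = sg s i * x i := by
  rw [rf, Matrix.toLin'_apply, Matrix.mulVec_diagonal]

private theorem rf_det (s : Fin 4 → Bool) : |LinearMap.det (rf s)| = 1 := by
  rw [rf, LinearMap.det_toLin', Matrix.det_diagonal, Finset.abs_prod]
  exact Finset.prod_eq_one fun i _ => sg_abs s i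

private theorem rf_vol (s : Fin 4 → Bool) (A : Set (Fin 4 → ℝ)) :
    volume (rf s ⁻¹' A) = volume A := by
  have h : LinearMap.det (rf s) ≠ 0 := by
    intro h
    have h1 := rf_det s
    rw [h, abs_zero] at h1
    exact zero_ne_one h1
  rw [Measure.addHaar_preimage_linearMap _ h, abs_inv, rf_det, inv_one, ENNReal.ofReal_one,
    one_mul]

private theorem rf_NP (s : Fin 4 → Bool) {x : Fin 4 → ℝ} (hx : x ∈ NP) : rf s x ∈ NP := by
  obtain ⟨q, ⟨h1, h2⟩, h3⟩ := hx
  have ha : ∀ i, |rf s q i| = |q i| := by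
    intro i
    rw [rf_apply, abs_mul, sg_abs, one_mul]
  refine ⟨rf s q, ⟨?_, fun i => ?_⟩, ?_⟩
  · rw [ha, ha, ha, ha]
    exact h1
  · rw [ha]
    exact h2 i
  · refine le_trans (le_of_eq (Finset.sum_congr rfl fun i _ => ?_)) h3
    rw [rf_apply, rf_apply, ← mul_sub, mul_pow, sg_sq, one_mul]

private theorem cover : NP ⊆ ⋃ s : Fin 4 → Bool, rf s ⁻¹' NPp := by
  intro x hx
  refine Set.mem_iUnion.2 ⟨fun i => decide (x i < 0), ?_, fun i => ?_⟩
  · exact rf_NP _ hx
  · rw [rf_apply]
    unfold sg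
    by_cases h : x i < 0
    · rw [if_pos (by simpa using h)]
      linarith
    · rw [if_neg (by simpa using h)]
      linarith

end OrthM

open OrthM in
theorem tOrth : S_Orth := by
  refine (measure_mono cover).trans ((measure_iUnion_fintype_le _ _).trans ?_)
  simp only [rf_vol]
  rw [Finset.sum_const, Finset.card_univ]
  simp

end Pool.Agent.Ssg
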