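import Pool.Agent.Lib.MP_5c10a1_co.Spec

/-!
# MP_5c10a1_co: areas of sectors
-/

set_option autoImplicit false

namespace Pool.Agent.Ssg

open MeasureTheory Set

namespace SecM

private theorem lint (ρ : ℝ) (hρ : 0 ≤ ρ) :
    ∫⁻ r in Ioc 0 ρ, ENNReal.ofReal r = ENNReal.ofReal (ρ ^ 2 / 2) := by
  have h : ∫ r in (0 : ℝ)..ρ, r = ρ ^ 2 / 2 := by
    rw [integral_id]
    ring
  rw [← h, intervalIntegral.integral_of_le hρ, ofReal_integral_eq_lintegral_ofReal]
  · exact (intervalIntegral.intervalIntegrable_id (μ := volume) (a := 0) (b := ρ)).1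
  · refine (ae_restrict_iff' measurableSet_Ioc).2 (Filter.Eventually.of_forall fun r hr => ?_)
    exact hr.1.le

/-- The area of a set contained in a sector. -/
private theorem sector {A : Set (ℝ × ℝ)} (hA : MeasurableSet A) {α β : ℝ}
    (h : ∀ r θ : ℝ, 0 < r → -Real.pi < θ → θ < Real.pi →
      (r * Real.cos θ, r * Real.sin θ) ∈ A → r ^ 2 ≤ 1 / 2 ∧ α ≤ θ ∧ θ ≤ β) :
    volume A ≤ ENNReal.ofReal ((β - α) / 4) := by
  obtain ⟨ρ, hρ0, hρ⟩ : ∃ ρ : ℝ, 0 ≤ ρ ∧ ρ ^ 2 = 1 / 2 :=
    ⟨√(1 / 2), Real.sqrt_nonneg _, Real.sq_sqrt (by norm_num)⟩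
  have h1 : volume A = ∫⁻ p : ℝ × ℝ, A.indicator 1 p := (lintegral_indicator_one hA).symm
  rw [h1, ← lintegral_comp_polarCoord_symm]
  have h2 : ∫⁻ p in polarCoord.target, ENNReal.ofReal p.1 • A.indicator 1 (polarCoord.symm p) ≤
      ∫⁻ p : ℝ × ℝ, (Ioc 0 ρ).indicator (fun r => ENNReal.ofReal r) p.1 *
        (Icc α β).indicator (fun _ => 1) p.2 := by
    rw [← lintegral_indicator polarCoord.open_target.measurableSet]
    refine lintegral_mono fun p => ?_
    by_cases hp : p ∈ polarCoord.target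
    · rw [indicator_of_mem hp]
      rw [polarCoord_target] at hp
      obtain ⟨hp1, hp2⟩ := hp
      by_cases hq : polarCoord.symm p ∈ A
      · rw [polarCoord_symm_apply] at hq
        obtain ⟨h3, h4, h5⟩ := h p.1 p.2 hp1 hp2.1 hp2.2 hq
        have h6 : p.1 ∈ Ioc 0 ρ := by
          refine ⟨hp1, ?_⟩
          refine le_of_sq_le_sq ?_ hρ0
          rw [hρ]
          exact h3
        rw [indicator_of_mem h6, indicator_of_mem (show p.2 ∈ Icc α β from ⟨h4, h5⟩)]
        rw [polarCoord_symm_apply, indicator_of_mem hq]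
        simp
      · rw [indicator_of_notMem hq, smul_zero]
        exact zero_le
    · rw [indicator_of_notMem hp]
      exact zero_le
  refine h2.trans ?_
  rw [Measure.volume_eq_prod, lintegral_prod_mul
    ((ENNReal.measurable_ofReal.indicator measurableSet_Ioc).aemeasurable)
    ((measurable_const.indicator measurableSet_Icc).aemeasurable),
    lintegral_indicator measurableSet_Ioc, lintegral_indicator measurableSet_Icc, lint ρ hρ0,
    lintegral_const, one_mul, Measure.restrict_apply_univ, Real.volume_Icc, hρ,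
    ← ENNReal.ofReal_mul (by norm_num)]
  exact ENNReal.ofReal_le_ofReal (by linarith)

/-- Scaling of the coordinate `0` by `√3`. -/
private theorem scale {A : Set (ℝ × ℝ)} (hA : MeasurableSet A) {c : ℝ}
    (h : volume A ≤ ENNReal.ofReal c) :
    volume {w : Fin 2 → ℝ | (√3 * w 0, w 1) ∈ A} ≤ ENNReal.ofReal (√3 * c / 3) := by
  have h3 : (0 : ℝ) < √3 := Real.sqrt_pos.2 (by norm_num)
  have hm : MeasurableSet {v : Fin 2 → ℝ | (v 0, v 1) ∈ A} :=
    ((measurable_pi_apply 0).prodMk (measurable_pi_apply 1)) hA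
  have h1 : volume {v : Fin 2 → ℝ | (v 0, v 1) ∈ A} = volume A :=
    (volume_preserving_finTwoArrow ℝ).measure_preimage hA.nullMeasurableSet
  have h2 : {w : Fin 2 → ℝ | (√3 * w 0, w 1) ∈ A} =
      (Matrix.toLin' (Matrix.diagonal ![√3, 1])) ⁻¹' {v : Fin 2 → ℝ | (v 0, v 1) ∈ A} := by
    ext w
    simp [Matrix.toLin'_apply, Matrix.mulVec_diagonal]
  have hdet : LinearMap.det (Matrix.toLin' (Matrix.diagonal ![√3, 1])) = √3 := by
    rw [LinearMap.det_toLin', Matrix.det_diagonal, Fin.prod_univ_two]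
    simp
  rw [h2, Measure.addHaar_preimage_linearMap _ (by rw [hdet]; exact h3.ne'), hdet, h1,
    abs_of_pos (inv_pos.2 h3)]
  refine (mul_le_mul_right h _).trans ?_
  rw [← ENNReal.ofReal_mul (inv_pos.2 h3).le]
  refine ENNReal.ofReal_le_ofReal (le_of_eq ?_)
  have h4 : √3 * √3 = 3 := Real.mul_self_sqrt (by norm_num)
  field_simp
  linear_combination (-c) * h4

private theorem mq : MeasurableSet {p : ℝ × ℝ | p.1 ^ 2 + p.2 ^ 2 ≤ 1 / 2} :=
  measurableSet_le ((measurable_fst.pow_const 2).add (measurable_snd.pow_const 2))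
    measurable_const

private theorem sin_nn {θ : ℝ} (h1 : -Real.pi < θ) (h : 0 ≤ Real.sin θ) : 0 ≤ θ := by
  by_contra hc
  exact absurd (Real.sin_neg_of_neg_of_neg_pi_lt (not_le.1 hc) h1) (not_lt.2 h)

private theorem sin_sub (θ : ℝ) :
    Real.sin (θ - Real.pi / 6) = (√3 * Real.sin θ - Real.cos θ) / 2 := by
  rw [Real.sin_sub, Real.cos_pi_div_six, Real.sin_pi_div_six]
  ring

private theorem sq_cs (r θ : ℝ) :
    (r * Real.cos θ) ^ 2 + (r * Real.sin θ) ^ 2 = r ^ 2 := by
  linear_combination r ^ 2 * Real.sin_sq_add_cos_sq θ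

end SecM

open SecM in
theorem tSec : S_Sec := by
  have hπ := Real.pi_pos
  have h3 : (0 : ℝ) < √3 := Real.sqrt_pos.2 (by norm_num)
  have h33 : √3 * √3 = 3 := Real.mul_self_sqrt (by norm_num)
  refine ⟨?_, ?_, ?_⟩
  · let A : Set (ℝ × ℝ) := {p | 0 ≤ p.1 ∧ 0 ≤ p.2 ∧ p.1 ^ 2 + p.2 ^ 2 ≤ 1 / 2}
    have hA : MeasurableSet A := by
      exact (measurableSet_le measurable_const measurable_fst).inter
        ((measurableSet_le measurable_const measurable_snd).inter mq)
    have h1 : volume A ≤ ENNReal.ofReal ((Real.pi / 2 - 0) / 4) := by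
      refine sector hA fun r θ hr hθ hθ' hmem => ?_
      obtain ⟨hc, hs, hq⟩ := hmem
      change r * Real.cos θ ≥ 0 at hc
      change r * Real.sin θ ≥ 0 at hs
      change (r * Real.cos θ) ^ 2 + (r * Real.sin θ) ^ 2 ≤ 1 / 2 at hq
      rw [sq_cs] at hq
      have hc' : 0 ≤ Real.cos θ := nonneg_of_mul_nonneg_right hc hr
      have hs' : 0 ≤ Real.sin θ := nonneg_of_mul_nonneg_right hs hr
      have h0 := sin_nn hθ hs'
      refine ⟨hq, h0, ?_⟩
      by_contra hcon
      exact absurd (Real.cos_neg_of_pi_div_two_lt_of_lt (not_le.1 hcon) (by linarith))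
        (not_lt.2 hc')
    have h2 : volume {w : Fin 2 → ℝ | 0 ≤ w 0 ∧ 0 ≤ w 1 ∧ w 0 ^ 2 + w 1 ^ 2 ≤ 1 / 2} = volume A :=
      (volume_preserving_finTwoArrow ℝ).measure_preimage hA.nullMeasurableSet
    rw [h2]
    exact h1.trans (ENNReal.ofReal_le_ofReal (by linarith))
  · let A : Set (ℝ × ℝ) := {p | 0 ≤ p.2 ∧ √3 * p.2 ≤ p.1 ∧ p.1 ^ 2 + p.2 ^ 2 ≤ 1 / 2}
    have hA : MeasurableSet A := by
      exact (measurableSet_le measurable_const measurable_snd).inter
        ((measurableSet_le (measurable_snd.const_mul _) measurable_fst).inter mq)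
    have h1 : volume A ≤ ENNReal.ofReal ((Real.pi / 6 - 0) / 4) := by
      refine sector hA fun r θ hr hθ hθ' hmem => ?_
      obtain ⟨hs, hc, hq⟩ := hmem
      change 0 ≤ r * Real.sin θ at hs
      change √3 * (r * Real.sin θ) ≤ r * Real.cos θ at hc
      change (r * Real.cos θ) ^ 2 + (r * Real.sin θ) ^ 2 ≤ 1 / 2 at hq
      rw [sq_cs] at hq
      have hs' : 0 ≤ Real.sin θ := nonneg_of_mul_nonneg_right hs hr
      have hc' : √3 * Real.sin θ ≤ Real.cos θ := by
        refine le_of_mul_le_mul_left ?_ hr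
        linarith
      have h0 := sin_nn hθ hs'
      refine ⟨hq, h0, ?_⟩
      by_contra hcon
      have h4 : 0 < Real.sin (θ - Real.pi / 6) :=
        Real.sin_pos_of_pos_of_lt_pi (by linarith [not_le.1 hcon]) (by linarith)
      rw [sin_sub] at h4
      linarith
    have h2 := scale hA h1
    refine (measure_mono ?_).trans (h2.trans (ENNReal.ofReal_le_ofReal ?_))
    · rintro w ⟨h4, h5, h6⟩
      refine ⟨h4, mul_le_mul_of_nonneg_left h5 h3.le, ?_⟩
      change (√3 * w 0) ^ 2 + w 1 ^ 2 ≤ 1 / 2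
      rw [mul_pow, sq √3, h33]
      exact h6
    · apply le_of_eq
      ring
  · let A : Set (ℝ × ℝ) := {p | 0 ≤ p.1 ∧ p.1 ≤ √3 * p.2 ∧ p.1 ^ 2 + p.2 ^ 2 ≤ 1 / 2}
    have hA : MeasurableSet A := by
      exact (measurableSet_le measurable_const measurable_fst).inter
        ((measurableSet_le measurable_fst (measurable_snd.const_mul _)).inter mq)
    have h1 : volume A ≤ ENNReal.ofReal ((Real.pi / 2 - Real.pi / 6) / 4) := by
      refine sector hA fun r θ hr hθ hθ' hmem => ?_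
      obtain ⟨hc, hs, hq⟩ := hmem
      change 0 ≤ r * Real.cos θ at hc
      change r * Real.cos θ ≤ √3 * (r * Real.sin θ) at hs
      change (r * Real.cos θ) ^ 2 + (r * Real.sin θ) ^ 2 ≤ 1 / 2 at hq
      rw [sq_cs] at hq
      have hc' : 0 ≤ Real.cos θ := nonneg_of_mul_nonneg_right hc hr
      have hs1 : Real.cos θ ≤ √3 * Real.sin θ := by
        refine le_of_mul_le_mul_left ?_ hr
        linarith
      have hs' : 0 ≤ Real.sin θ := nonneg_of_mul_nonneg_right (hc'.trans hs1) h3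
      have h0 := sin_nn hθ hs'
      refine ⟨hq, ?_, ?_⟩
      · by_contra hcon
        have h4 : Real.sin (θ - Real.pi / 6) < 0 :=
          Real.sin_neg_of_neg_of_neg_pi_lt (by linarith [not_le.1 hcon]) (by linarith)
        rw [sin_sub] at h4
        linarith
      · by_contra hcon
        exact absurd (Real.cos_neg_of_pi_div_two_lt_of_lt (not_le.1 hcon) (by linarith))
          (not_lt.2 hc')
    have h2 := scale hA h1
    refine (measure_mono ?_).trans (h2.trans (ENNReal.ofReal_le_ofReal ?_))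
    · rintro w ⟨h4, h5, h6⟩
      refine ⟨mul_nonneg h3.le h4, mul_le_mul_of_nonneg_left h5 h3.le, ?_⟩
      change (√3 * w 0) ^ 2 + w 1 ^ 2 ≤ 1 / 2
      rw [mul_pow, sq √3, h33]
      exact h6
    · apply le_of_eq
      ring

end Pool.Agent.Ssg
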