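import Pool.Agent.Lib.MP_5c10a1_co.Defs

/-!
# MP_5c10a1_co: `m_4 ≤ 327522`, statements

THEOREM. For `m = 327522` there is an optimal packing of `m` unit balls in `ℝ⁴`, and no optimal packing is a
sausage; so `m_4 ≤ 327522` (problem file: 377000, Chun: 338196).

PROOF. An optimal packing exists (compactness). A sausage has the volume at least
`π² / 2 + (4 π / 3) 2 (m - 1)`. The configuration `√2 v`, `v ∈ ℤ⁴`, `∑ v i` odd, `∑ |v i| ≤ 33`, `|v 0| ≤ 17`,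
`|v i| ≤ 16` has `327522` points and a smaller volume: its hull is contained in `√2 NP`, `NP` is the parallel body
of the polytope `Pol` at distance `1/√2`. `NP` is cut into the pieces of `Defs`.

Every module is independent (the statements used are hypotheses of the theorem). `vol` means the volume on
`Fin n → ℝ`, which is the product measure.
-/

set_option autoImplicit false

namespace Pool.Agent.Ssg

open MeasureTheory Metric

/-! ## Tools -/

/-- **Lin** (30 lines). `C ⊆ (fun u => M.mulVec u + b) '' U`; `measure_mono`, translation invariance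
(`measure_preimage_add_right` or `Set.image_image`), `MeasureTheory.Measure.addHaar_image_linearMap` for
`Matrix.toLin' M` and `LinearMap.det_toLin'`. -/
def S_Lin : Prop :=
  ∀ (M : Matrix (Fin 4) (Fin 4) ℝ) (b : Fin 4 → ℝ) (U C : Set (Fin 4 → ℝ)),
    (∀ x ∈ C, ∃ u ∈ U, x = M.mulVec u + b) → volume C ≤ ENNReal.ofReal |M.det| * volume U

/-- **Perm** (20 lines). `MeasureTheory.volume_measurePreserving_piCongrLeft` or
`MeasurePreserving.measure_preimage_equiv` for the coordinate permutation `e`. -/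
def S_Perm : Prop :=
  ∀ e : Fin 4 → Fin 4, Function.Bijective e → ∀ s : Set (Fin 4 → ℝ),
    volume {x : Fin 4 → ℝ | x ∘ e ∈ s} = volume s

/-- **Pr** (50 lines). Products, for arbitrary sets. `volume_preserving_piFinSuccAbove (fun _ => ℝ) 0` and
`Measure.prod_prod` (it holds for all sets); for the third one use the first two steps, or
`measurePreserving_piFinTwo`, `volume_preserving_piEquivPiSubtypeProd`. -/
def S_Pr : Prop :=
  (∀ (I : Set ℝ) (Q : Set (Fin 3 → ℝ)),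
    volume {u : Fin 4 → ℝ | u 0 ∈ I ∧ ![u 1, u 2, u 3] ∈ Q} = volume I * volume Q) ∧
  (∀ A B : Set (Fin 2 → ℝ),
    volume {u : Fin 4 → ℝ | ![u 0, u 1] ∈ A ∧ ![u 2, u 3] ∈ B} = volume A * volume B)

/-- **Box** (150 lines). The volume of the part of a box below a hyperplane.

Proof. (1) `∫ u in 0..t, pw k (b - u) = pw (k + 1) b - pw (k + 1) (b - t)` for `t ≥ 0` (substitution; `pw k` is
`x^k / k!` on `[0, ∞)` and `0` on `(-∞, 0)`, `pw (k + 1) x = (max x 0)^(k+1) / (k+1)!`). By induction on the list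
`∫ u in 0..t, G l k (b - u) = G l (k + 1) b - G l (k + 1) (b - t)` (`= G (t :: l) k b`); all functions are
interval integrable (measurable and bounded on bounded sets; `pw k` is monotone). (2) Induction on `n`, also
`0 ≤ G (List.ofFn t) 0 b`. `n = 0`: the set is everything or empty (`Subsingleton`). `n + 1`: `List.ofFn_succ`,
`volume_preserving_piFinSuccAbove (fun _ => ℝ) 0`, `Measure.prod_apply` (the set is closed): the section at `u = q 0 ∈ [0, t 0]`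
has the volume `ofReal (G (List.ofFn (Fin.tail t)) 0 (b - u))`; `ofReal_integral_eq_lintegral_ofReal`.
(3) Second part: `{a ≤ ∑ ≤ b} = {∑ ≤ b} \ {∑ < a}` and `{∑ < a}` is `{∑ ≤ a}` up to the null set `{∑ = a}`
(`n + 1 ≥ 1`; a hyperplane: `Measure.addHaar_affineSubspace`, or a level set; or squeeze with `a - ε` and continuity).
-/
def S_Box : Prop :=
  (∀ (n : ℕ) (t : Fin n → ℝ), (∀ i, 0 ≤ t i) → ∀ b : ℝ,
    volume {q : Fin n → ℝ | (∀ i, 0 ≤ q i ∧ q i ≤ t i) ∧ ∑ i, q i ≤ b} =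
      ENNReal.ofReal (G (List.ofFn t) 0 b)) ∧
  (∀ (n : ℕ) (t : Fin (n + 1) → ℝ), (∀ i, 0 ≤ t i) → ∀ a b : ℝ, a ≤ b →
    volume {q : Fin (n + 1) → ℝ | (∀ i, 0 ≤ q i ∧ q i ≤ t i) ∧ a ≤ ∑ i, q i ∧ ∑ i, q i ≤ b} =
      ENNReal.ofReal (G (List.ofFn t) 0 b - G (List.ofFn t) 0 a))

/-- **Sec** (120 lines). Areas of sectors: a quarter of a disc, 30 degrees, 60 degrees.

Proof. The map `(w 0, w 1) ↦ (√3 w 0, w 1)` has the determinant `√3`, so it is enough to consider the sectors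
`{v | v 0 ^ 2 + v 1 ^ 2 ≤ 1/2, α ≤ angle ≤ β}`, area `(β - α) / 4`. Transport to `ℝ × ℝ`
(`volume_preserving_finTwoArrow`), polar coordinates
(`lintegral_comp_polarCoord_symm`), the integrand is `r` for `0 < r ≤ √(1/2)`, `θ ∈ [α, β]`, and `0` otherwise.
With `v = r (cos θ, sin θ)`, `θ ∈ (-π, π)`: first set: `cos θ ≥ 0`, `sin θ ≥ 0`, so `θ ∈ [0, π/2]`. Second set: `0 ≤ v 1 ≤ v 0 / √3`:
`sin θ ≥ 0` gives `θ ≥ 0`, and `sin (θ - π/6) = (√3 / 2) sin θ - (1/2) cos θ ≤ 0` gives `θ ≤ π/6`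
(`θ - π/6 ∈ (-π/6, 5π/6)`). Third set: `0 ≤ v 0 ≤ √3 v 1`: `cos θ ≥ 0`, `sin θ ≥ 0`, and
`sin (θ - π/6) ≥ 0`: `θ ∈ [π/6, π/2]`, so the area is `(π/3) / 4 / √3`. -/
def S_Sec : Prop :=
  volume {w : Fin 2 → ℝ | 0 ≤ w 0 ∧ 0 ≤ w 1 ∧ w 0 ^ 2 + w 1 ^ 2 ≤ 1 / 2} ≤
    ENNReal.ofReal (Real.pi / 8) ∧
  volume {w : Fin 2 → ℝ | 0 ≤ w 1 ∧ w 1 ≤ w 0 ∧ 3 * w 0 ^ 2 + w 1 ^ 2 ≤ 1 / 2} ≤
    ENNReal.ofReal (√3 * Real.pi / 72) ∧
  volume {w : Fin 2 → ℝ | 0 ≤ w 0 ∧ w 0 ≤ w 1 ∧ 3 * w 0 ^ 2 + w 1 ^ 2 ≤ 1 / 2} ≤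
    ENNReal.ofReal (√3 * Real.pi / 36)

/-- **Thr** (100 lines). Two volumes in dimension 3.

Proof. First set: `w 0 = u ∈ [0, 41/100]` (`3 u ^ 2 ≤ 1/2`), `w 1 ∈ [0, u]`, `w 2 ∈ [u, √(1/2) - √2 u ^ 2]`, because
`w 2 ^ 2 ≤ 1/2 - 2 u ^ 2 ≤ (√(1/2) - √2 u ^ 2) ^ 2` and `√(1/2) ≥ √2 u ^ 2`. So the section has the area at most
`u (√(1/2) - √2 u ^ 2 - u)` (if this is `≥ 0`, otherwise it is empty; use `ENNReal.ofReal`), which is at most
`u (70711/100000 - 14142/10000 u ^ 2 - u)`; the integral over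
`[0, 41/100]` of this polynomial is `0.02647 ≤ 53/2000`. Second set: `u = w 0 ≤ √(1/2) / 2` (`4 u ^ 2 ≤ 1/2`), `w 1, w 2 ∈ [0, √(1/2)]`:
volume at most `(√(1/2)) ^ 3 / 2 = 0.17678`. -/
def S_Thr : Prop :=
  volume {w : Fin 3 → ℝ | 0 ≤ w 1 ∧ w 1 ≤ w 0 ∧ w 0 ≤ w 2 ∧
    2 * w 0 ^ 2 + w 1 ^ 2 + w 2 ^ 2 ≤ 1 / 2} ≤ ENNReal.ofReal (53 / 2000) ∧
  volume {w : Fin 3 → ℝ | 0 ≤ w 0 ∧ w 0 ≤ w 1 ∧ w 0 ≤ w 2 ∧
    2 * w 0 ^ 2 + w 1 ^ 2 + w 2 ^ 2 ≤ 1 / 2} ≤ ENNReal.ofReal (177 / 1000)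

/-! ## The pieces -/

/-- **VI** (100 lines, uses `S_Box`, `S_Pr`, `S_Sec`, `S_Lin`).

Proof. `I0 T`: `S_Box`, `n = 4`, `List.ofFn T = [17, 16, 16, 16]`,
`G [17,16,16,16] 0 33 = (33^4 - 16^4 - 3 * 17^4 + 3 * 1^4) / 24 = 869825 / 24` (`norm_num [G, pw, Nat.factorial]`). `I1 t`: after the order
`(x 3 - t 3, x 0, x 1, x 2)` (`S_Lin` with a permutation matrix of determinant `± 1` and a translation) it is contained in
a product, `S_Pr`: `[0, √(1/2)]` times `S_Box`, `n = 3`, `b = 16` or `17`: `16^3 / 6 = 2048 / 3`, `(17^3 - 2) / 6 = 1637 / 2`. `I2 t`: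
`(x 2 - t 2, x 3 - t 3)` in the quarter disc, `S_Box`, `n = 2`, `b = 1`: `1 / 2`. -/
def S_VI : Prop :=
  volume (I0 T) ≤ ENNReal.ofReal (869825 / 24) ∧
  volume (I1 ![16, 16, 16, 17]) ≤ ENNReal.ofReal (2048 / 3 * √(1 / 2)) ∧
  volume (I1 ![17, 16, 16, 16]) ≤ ENNReal.ofReal (1637 / 2 * √(1 / 2)) ∧
  volume (I2 ![17, 16, 16, 16]) ≤ ENNReal.ofReal (Real.pi / 16)

/-- **V400** (60 lines, uses `S_Lin`, `S_Pr`, `S_Box`).

Proof. `x = (q 0 + u, q 1 + u, q 2 + u, 33 - q 0 - q 1 - q 2 + u)`, `q i = x i - u`; in `S_Lin` let the vector be `(u, q 0, q 1, q 2)`, the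
determinant is `± 4` (`Matrix.det_succ_row_zero`, `Fin.sum_univ_succ`). `u ∈ [0, √(1/2) / 2]`; `0 ≤ q 3 ≤ 16` says
`17 ≤ q 0 + q 1 + q 2 ≤ 33`; `S_Box`, `n + 1 = 3`, `t = (17, 16, 16)`: `17105 / 6`. Total `4 * (17105 / 6) * √(1/2) / 2`. -/
def S_V400 : Prop :=
  volume (C400 T) ≤ ENNReal.ofReal (17105 / 3 * √(1 / 2))

/-- **V310** (80 lines, uses `S_Lin`, `S_Pr`, `S_Box`, `S_Sec`).

Proof. `x = (33 - q 1 - q 2 + u, q 1 + u, q 2 + u, d)`; the vector in `S_Lin` is `(u, d, q 1, q 2)`, the determinant is `± 3`. `(u, d)` is in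
the second set of `S_Sec`. `(q 1, q 2) ∈ [0, 16]²`, and `0 ≤ q 0 ≤ t 0`: `17 ≤ q 1 + q 2 ≤ 33` for `t 0 = 16`, area `225 / 2`,
and `16 ≤ q 1 + q 2 ≤ 33` for `t 0 = 17`, area `128`. -/
def S_V310 : Prop :=
  volume (C310 ![16, 16, 16, 17]) ≤ ENNReal.ofReal (75 / 16 * (√3 * Real.pi)) ∧
  volume (C310 ![17, 16, 16, 16]) ≤ ENNReal.ofReal (16 / 3 * (√3 * Real.pi))

/-- **V301** (80 lines, uses `S_Lin`, `S_Pr`, `S_Box`, `S_Sec`).

Proof. `x = (33 - t 3 - q 1 - q 2 + u, q 1 + u, q 2 + u, t 3 + d)`; the vector in `S_Lin` is `(u, d, q 1, q 2)`, the determinant is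
`± 3`. `(u, d)` is in the third set of `S_Sec`. `(q 1, q 2) ∈ [0, 16]²`; `q 0 ≥ 0` says `q 1 + q 2 ≤ 16` for `t 3 = 17`, area
`128`, and `q 1 + q 2 ≤ 17` for `t 3 = 16`, area `287 / 2`. -/
def S_V301 : Prop :=
  volume (C301 ![16, 16, 16, 17]) ≤ ENNReal.ofReal (32 / 3 * (√3 * Real.pi)) ∧
  volume (C301 ![17, 16, 16, 16]) ≤ ENNReal.ofReal (287 / 24 * (√3 * Real.pi))

/-- **V211** (80 lines, uses `S_Lin`, `S_Pr`, `S_Thr`).

Proof. `x = (33 - t 3 - q + u, q + u, w 1, t 3 + w 2)`, `w 0 = u`; the vector in `S_Lin` is `(q, w 0, w 1, w 2)`, the determinant is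
`± 2`, `w` is in the first set of `S_Thr`. `q = x 1 - u ∈ [0, t 1]` and `q 0 = 33 - t 3 - q ∈ [0, t 0]`: `q` is in an interval of length `16`,
`15` (`[1, 16]`), `16`. -/
def S_V211 : Prop :=
  volume (C211 ![16, 16, 16, 17]) ≤ ENNReal.ofReal (32 * (53 / 2000)) ∧
  volume (C211 ![16, 16, 17, 16]) ≤ ENNReal.ofReal (30 * (53 / 2000)) ∧
  volume (C211 ![17, 16, 16, 16]) ≤ ENNReal.ofReal (32 * (53 / 2000))

/-- **VS** (120 lines, uses `S_Lin`, `S_Pr`, `S_Thr`). The small pieces.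

Proof. `C202`: `x = (1 - q + u, q + u, 16 + w 1, 16 + w 2)`, `w 0 = u`, `q ∈ [0, 1]`, determinant `± 2`, second set of `S_Thr`. `C112`:
`x = (1 + u, x 1, 16 + d, 16 + e)`: `(u, x 1)` is in the triangle `0 ≤ x 1 ≤ u ≤ √(1/6)` (`u ≤ d`, `u ≤ e`, `3 u ^ 2 ≤ 1/2`), area `1/12`, and
`d, e ∈ [0, √(1/2)]`: `1/24`. `W`: `x 0, x 1 ∈ [0, √(1/6)]` (`x 0 ≤ u ≤ d, e`), `d, e ∈ [0, √(1/2)]`: `1/12`. (Area of the triangle: `S_Box` is not
needed, `volume_regionBetween_eq_integral` or half of the square by the symmetry, or `S_Lin` style.) -/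
def S_VS : Prop :=
  volume (C202 ![17, 16, 16, 16]) ≤ ENNReal.ofReal (2 * (177 / 1000)) ∧
  volume (C112 ![17, 16, 16, 16]) ≤ ENNReal.ofReal (1 / 24) ∧
  volume (C112 ![16, 17, 16, 16]) ≤ ENNReal.ofReal (1 / 24) ∧
  volume (W ![16, 16, 16, 17]) ≤ ENNReal.ofReal (1 / 12)

/-! ## The cover -/

/-- Orders with the last coordinate `0, 1, 2, 3`. -/
def L1 : Finset (Fin 4 → Fin 4) := {![1, 2, 3, 0], ![0, 2, 3, 1], ![0, 1, 3, 2], ![0, 1, 2, 3]}

/-- Orders whose last two coordinates are `{2, 3}, {1, 3}, {1, 2}`. -/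
def L2 : Finset (Fin 4 → Fin 4) := {![0, 1, 2, 3], ![0, 2, 1, 3], ![0, 3, 1, 2]}

/-- Orders for `C211`, `T ∘ e = (16, 16, 16, 17)`. -/
def L3 : Finset (Fin 4 → Fin 4) := {![2, 3, 1, 0], ![1, 3, 2, 0], ![1, 2, 3, 0]}

/-- Orders for `C211`, `T ∘ e = (16, 16, 17, 16)`. -/
def L4 : Finset (Fin 4 → Fin 4) := {![2, 3, 0, 1], ![1, 3, 0, 2], ![1, 2, 0, 3]}

/-- Orders for `C211`, `T ∘ e = (17, 16, 16, 16)`. -/
def L5 : Finset (Fin 4 → Fin 4) :=
  {![0, 3, 1, 2], ![0, 3, 2, 1], ![0, 2, 1, 3], ![0, 2, 3, 1], ![0, 1, 2, 3], ![0, 1, 3, 2]}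

/-- Orders for `C112`, `T ∘ e = (16, 17, 16, 16)`. -/
def L6 : Finset (Fin 4 → Fin 4) := {![1, 0, 2, 3], ![2, 0, 1, 3], ![3, 0, 1, 2]}

/-- **Near** (80 lines). The nearest point of `Pol` to a point of the positive orthant.

Proof. Let `q = min (max (x i - u) 0) (T i)` for `u ≥ 0`, `f(u) = ∑ q i`, continuous. If `f(0) ≤ 33` take `u = 0` (first alternative).
Otherwise `f(0) > 33`, `f(u) = 0` for large `u`, so there is `u ≥ 0` with `f(u) = 33` (`intermediate_value_Icc'`; second alternative).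
`Σ (x i - q i)^2 ≤ 1/2`: let `q' ∈ Pol` with `∑ (x i - q' i)^2 ≤ 1/2`. For every `i`
`(x i - q i) (q' i - q i) ≤ u (|q' i| - q i)`: if `q i = x i - u` then `x i - q i = u`; if `q i = 0` and `0 ≤ x i ≤ u` then
`x i q' i ≤ u |q' i|`; if `q i = T i` and `x i - T i ≥ u` then `q' i - T i ≤ 0` and `(x i - T i) (q' i - T i) ≤ u (q' i - T i)`.
The sum is at most `u (33 - ∑ q i) = 0` (in the first alternative `u = 0`). So
`∑ (x i - q' i)^2 = ∑ (x i - q i)^2 + ∑ (q i - q' i)^2 + 2 ∑ (x i - q i) (q i - q' i) ≥ ∑ (x i - q i)^2`. -/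
def S_Near : Prop :=
  ∀ x ∈ NPp, ∃ (u : ℝ) (q : Fin 4 → ℝ), 0 ≤ u ∧
    ((u = 0 ∧ q 0 + q 1 + q 2 + q 3 ≤ 33) ∨ q 0 + q 1 + q 2 + q 3 = 33) ∧
    (∀ i, (0 ≤ x i ∧ x i ≤ u ∧ q i = 0) ∨ (u < x i ∧ x i < T i + u ∧ q i = x i - u) ∨
      (T i + u ≤ x i ∧ q i = T i)) ∧
    ∑ i, (x i - q i) ^ 2 ≤ 1 / 2

/-- **Cov** (200 lines, uses `S_Near`). The pieces cover the positive part of the parallel body.

Proof. `S_Near`; for the `81` choices of the cases (Z, R, K) of the coordinates: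
FIRST ALTERNATIVE (`u = 0`, `∑ q i ≤ 33`; Z gives `x i = q i = 0`, so Z, R both give `0 ≤ x i = q i ≤ T i`). No K: `I0`. One K: `I1`, `e ∈ L1`
with the K coordinate last. Two K, not `0`: `I2`. Two K with `0` (`17 + 16 = 33`): the other `q i = x i = 0`: `W` with `u = 0`, `e ∈ L3` with the K
coordinates last. Three or four K: `∑ q i ≥ 48`, impossible.
SECOND ALTERNATIVE (`∑ q i = 33`): RRRR: `C400`. RRRZ: `C310`. RRZZ, RZZZ, ZZZZ: impossible
(`q i < T i` for R, and `T i + T j ≤ 33`). RRRK: `C301`. RRZK: `C211` (`e = (R, R, Z, K)`). RZZK: `q i = 33 - T k`, which is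
`≥ T i`, impossible. ZZZK impossible. RRKK: `q i + q j = 33 - T k - T l > 0`, so `0 ∉ K`: `C202`. RZKK: `q i = 33 - T k - T l > 0`, so
`0 ∉ K`: `C112` (`e = (R, Z, K, K)`, in `L2` or `L6`). ZZKK: `T k + T l = 33`, so `0 ∈ K`: `W`. Three K impossible.
(A uniform tactic for the `81` cases: `first | (exfalso; linarith) | ...`. The order inside the pairs `{R, R}`, `{K, K}` is fixed by the
lists, the conditions are symmetric up to `T`.) -/
def S_Cov : Prop :=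
  ∀ x ∈ NPp, x ∈ I0 T ∨ (∃ e ∈ L1, x ∈ Pc I1 e) ∨ (∃ e ∈ L2, x ∈ Pc I2 e) ∨ x ∈ C400 T ∨
    (∃ e ∈ L1, x ∈ Pc C310 e) ∨ (∃ e ∈ L1, x ∈ Pc C301 e) ∨ (∃ e ∈ L3, x ∈ Pc C211 e) ∨
    (∃ e ∈ L4, x ∈ Pc C211 e) ∨ (∃ e ∈ L5, x ∈ Pc C211 e) ∨ (∃ e ∈ L2, x ∈ Pc C202 e) ∨
    (∃ e ∈ L2, x ∈ Pc C112 e) ∨ (∃ e ∈ L6, x ∈ Pc C112 e) ∨ (∃ e ∈ L3, x ∈ Pc W e)

/-- **Tot** (100 lines, uses `S_Cov`, `S_Perm` and all the `S_V`). The volume of the positive part: the sum over the pieces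
(`measure_biUnion_finset_le`, `measure_union_le`); `T ∘ e` is one of the vectors (`L1`: `(16,16,16,17)` once and
`(17,16,16,16)` three times; `L2`: `(17,16,16,16)`). -/
def S_Tot : Prop :=
  volume NPp ≤ ENNReal.ofReal (869825 / 24 + (2048 / 3 + 3 * (1637 / 2)) * √(1 / 2) +
    3 * (Real.pi / 16) + 17105 / 3 * √(1 / 2) + (75 / 16 + 3 * (16 / 3)) * (√3 * Real.pi) +
    (32 / 3 + 3 * (287 / 24)) * (√3 * Real.pi) + (9 * 32 + 3 * 30) * (53 / 2000) +
    3 * (2 * (177 / 1000)) + 6 * (1 / 24) + 3 * (1 / 12))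

/-- **Num** (20 lines). `Real.pi_gt_d6`, `Real.pi_lt_d6`, `√(1/2) ≤ 0.7071068`, `√3 ≤ 1.7320509`. (Left side `2743769.80`, right side
`2743838.45`.) -/
def S_Num : Prop :=
  64 * (869825 / 24 + (2048 / 3 + 3 * (1637 / 2)) * √(1 / 2) +
    3 * (Real.pi / 16) + 17105 / 3 * √(1 / 2) + (75 / 16 + 3 * (16 / 3)) * (√3 * Real.pi) +
    (32 / 3 + 3 * (287 / 24)) * (√3 * Real.pi) + (9 * 32 + 3 * 30) * (53 / 2000) +
    3 * (2 * (177 / 1000)) + 6 * (1 / 24) + 3 * (1 / 12)) <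
  Real.pi ^ 2 / 2 + 4 * Real.pi / 3 * (2 * 327521)

/-! ## The hull -/

/-- **Orth** (50 lines). The sixteen reflections.

Proof. For `s : Fin 4 → Bool` (or signs) the map `x ↦ (± x i)` preserves the volume (`volume_preserving_pi`, `Measure.measurePreserving_neg`; or
`Measure.addHaar_image_linearMap` for a diagonal matrix of determinant `± 1`), it preserves `NP`, and every `x ∈ NP` is the image of a point of
`NPp` (`|x i|`). So `NP` is contained in the union of the `16` images, `measure_iUnion_le` / `measure_biUnion_finset_le`. -/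
def S_Orth : Prop := volume NP ≤ 16 * volume NPp

/-- **Hull** (80 lines). The hull is contained in `√2 NP`.

Proof. Let `D = {x : E | (fun i => x i / √2) ∈ NP}`. `D` is convex: `NP` is convex (`q, q' ∈ Pol` gives `a q + b q' ∈ Pol`, and
`√(∑ (x i - q i)^2)` is a norm: use `E`, `‖x - √2 q‖ ≤ 1`, `convex_closedBall`, or `Convex.add` for `Pol + ball`). `D` contains the ball of radius `1`
around `pt v` for `InC v` (take `q = v ∈ Pol`; `∑ (x i / √2 - v i)^2 = ‖x - pt v‖^2 / 2 ≤ 1/2`). `convexHull_min`. The volume of `D` is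
`(√2)^4 vol NP = 4 vol NP` (`PiLp.volume_preserving_ofLp`, `Measure.addHaar_preimage_smul`). -/
def S_Hull : Prop :=
  ∀ (m : ℕ) (c : Fin m → Fin 4 → ℤ), (∀ i, InC (c i)) →
    volume (hull fun i => pt (c i)) ≤ 4 * volume NP

/-- **Sep** (30 lines). `z i = v i - w i` are integers, not all `0`, with an even sum, so `∑ z i ^ 2` is even and positive, so it is
`≥ 2`; `dist (pt v) (pt w) ^ 2 = 2 ∑ z i ^ 2 ≥ 4` (`EuclideanSpace.dist_eq`). -/
def S_Sep : Prop := ∀ v w : Fin 4 → ℤ, InC v → InC w → v ≠ w → 2 ≤ dist (pt v) (pt w)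

/-- **Cnt** (80 lines). There are (exactly) `327522` lattice points.

Proof. They form a finite set (a filter of `Fintype.piFinset` or of a product of intervals `Finset.Icc (-17) 17`, `Finset.Icc (-16) 16`); its
cardinality is a sum, to be brought into a form which the kernel can evaluate (`decide +kernel` or `rfl` on natural
numbers). For fixed `v 0, v 1, v 2` with `r = 33 - |v 0| - |v 1| - |v 2| ≥ 0` the number of `v 3` with
`|v 3| ≤ min r 16` and `v 3 ≡ r mod 2` is `r + 1` for `r ≤ 16`, and for `r > 16` it is `17` (`r` even) or `16` (`r` odd). So the number is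
`∑_(a ≤ 17) ∑_(b ≤ 16) ∑_(c ≤ 16) w(a) w(b) w(c) g(33 - a - b - c)`, `w(0) = 1`, `w(a) = 2` for `a ≥ 1` (about 5000 terms). Alternative: convolution of
the distributions of `|v 0| + |v 1|` and `|v 2| + |v 3|`. Any other proof of the existence of an injective `c` is fine. -/
def S_Cnt : Prop :=
  ∃ c : Fin 327522 → Fin 4 → ℤ, Function.Injective c ∧ ∀ i, InC (c i)

/-! ## Sausages, existence of optimal packings -/

/-- **Cap** (150 lines). The volume of the hull of two balls.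

Proof. Let `L = dist a b`. By a translation and a linear isometry (`reflection_sub`: a reflection maps `b - a` to `L • e`, `e = EuclideanSpace.single 0 1`, both have
norm `L`; isometries preserve volume, convex hulls and closed balls) assume `a = 0`, `b = L • e`. The hull contains the disjoint
measurable sets `H₁ = {x ∈ B(0, 1) | x 0 ≤ 0}`, `H₂ = {x ∈ B(b, 1) | L < x 0}`,
`H₃ = {x | 0 < x 0 ≤ L, x 1 ^ 2 + x 2 ^ 2 + x 3 ^ 2 ≤ 1}` (for `L > 0`: `x = (1 - x 0 / L) (0, x 1, x 2, x 3) + (x 0 / L) (L, x 1, x 2, x 3)`).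
`H₂` is a translate of `{x ∈ B(0, 1) | 0 < x 0}`, so `vol H₁ + vol H₂ = vol B(0, 1) = π ^ 2 / 2`
(`EuclideanSpace.volume_closedBall`, `Γ(3) = 2`). `vol H₃ = L * (4 π / 3)` (`volume_preserving_piFinSuccAbove`,
`EuclideanSpace.volume_closedBall_fin_three`). -/
def S_Cap : Prop :=
  ∀ a b : E, ENNReal.ofReal (Real.pi ^ 2 / 2 + 4 * Real.pi / 3 * dist a b) ≤
    volume (convexHull ℝ (closedBall a 1 ∪ closedBall b 1))

/-- **Col** (70 lines). Two far centres of a sausage.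

Proof. `collinear_iff_exists_forall_eq_smul_vadd`: `x i = t i • v + p`; `m ≥ 2` gives `v ≠ 0`, let `s i = t i * ‖v‖`, so `dist (x i) (x j) = |s i - s j| ≥ 2`.
A finite set of `n ≥ 1` reals with pairwise distances `≥ 2` has `max - min ≥ 2 (n - 1)`: induction, remove the maximum (the maximum of the rest is
at most the maximum minus `2`). -/
def S_Col : Prop :=
  ∀ (m : ℕ) (x : Fin m → E), 2 ≤ m → (∀ i j, i ≠ j → 2 ≤ dist (x i) (x j)) → IsSausage x →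
    ∃ i j, 2 * ((m : ℝ) - 1) ≤ dist (x i) (x j)

/-- **Lsc** (60 lines). Comparison of two near configurations.

Proof. Let `x i₀ = 0`. (1) `closedBall (x i) (1 - ε) ⊆ closedBall (y i) 1`. (2) `(1 - ε) • hull x ⊆ convexHull (⋃ i, closedBall (x i) (1 - ε))`: the left side is the
convex hull of the balls `closedBall ((1 - ε) • x i) (1 - ε)`; a point of such a ball is `(1 - ε) • z`, `z ∈ closedBall (x i) 1`; write
`z = x i + w`, `‖w‖ ≤ 1`: `(1 - ε) • z = (1 - ε) • (x i + (1 - ε) • w) + ε • ((1 - ε) • w)`, a convex combination of a point of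
`closedBall (x i) (1 - ε)` and a point of `closedBall 0 (1 - ε)`, `0 = x i₀`. (3) `Measure.addHaar_smul`, the dimension is `4`. -/
def S_Lsc : Prop :=
  ∀ (m : ℕ) (x y : Fin m → E) (i₀ : Fin m) (ε : ℝ), 0 ≤ ε → ε < 1 → x i₀ = 0 →
    (∀ i, dist (x i) (y i) ≤ ε) →
    ENNReal.ofReal ((1 - ε) ^ 4) * volume (hull x) ≤ volume (hull y)

/-- **Opt** (150 lines, uses `S_Cap`, `S_Lsc`). Existence of a packing of minimal volume.

Proof. Let `i₀ = 0`. `y₀ i = (2 i) • e` is a packing, `V₀ = vol (hull y₀) < ∞` (bounded), `R = V₀.toReal + 2 m`. Let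
`K = {x | x i₀ = 0, ‖x i‖ ≤ R for all i, 2 ≤ dist (x i) (x j) for i ≠ j}`: closed and bounded, so compact, and `y₀ ∈ K`. Let `v` be the infimum of
`vol (hull x)` over `K`, choose `x n ∈ K` with `vol (hull (x n)) → v` (`exists_seq_tendsto_sInf`), and a convergent subsequence with the limit `x ∈ K`
(`IsCompact.tendsto_subseq`). By `S_Lsc` `(1 - ε)^4 vol (hull x) ≤ v` for all `ε ∈ (0, 1)`, so `vol (hull x) ≤ v` (`ε → 0`). (Or:
`LowerSemicontinuousOn.exists_isMinOn`.) Let `y` be any packing; translate it such that `y i₀ = 0` (the volume of the hull does not change). If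
`y ∈ K`: done. Otherwise `‖y i‖ > R` for some `i`, and by `S_Cap` `vol (hull y) ≥ ofReal (4 π / 3 * ‖y i‖) ≥ V₀ ≥ v`. -/
def S_Opt : Prop :=
  ∀ m : ℕ, 1 ≤ m → ∃ x : Fin m → E, (∀ i j, i ≠ j → 2 ≤ dist (x i) (x j)) ∧
    ∀ y : Fin m → E, (∀ i j, i ≠ j → 2 ≤ dist (y i) (y j)) → volume (hull x) ≤ volume (hull y)

/-- **Fin** (150 lines, uses `S_Opt`, `S_Cap`, `S_Col`, `S_Hull`, `S_Orth`, `S_Tot`, `S_Num`, `S_Sep`, `S_Cnt`). -/
def S_Fin : Prop :=
  (∃ x : Fin 327522 → E, IsOptimal x) ∧ (∀ x : Fin 327522 → E, IsOptimal x → ¬ IsSausage x) ∧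
    m4 ≤ 327522

end Pool.Agent.Ssg
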