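import Pool.Agent.Lib.MP_5c10a1_co.Spec

/-!
# MP_5c10a1_co: module Thr
-/

set_option autoImplicit false

namespace Pool.Agent.Ssg

open MeasureTheory Metric

private theorem Thr_sq1 : √(1 / 2 : ℝ) ^ 2 = 1 / 2 := Real.sq_sqrt (by norm_num)

private theorem Thr_sq2 : √(2 : ℝ) ^ 2 = 2 := Real.sq_sqrt (by norm_num)

private theorem Thr_bd1 : √(1 / 2 : ℝ) ≤ 70711 / 100000 := by
  rw [Real.sqrt_le_left (by norm_num)]
  norm_num

private theorem Thr_bd2 : 14142 / 10000 ≤ √(2 : ℝ) := by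
  refine Real.le_sqrt_of_sq_le ?_
  norm_num

private theorem Thr_prod : √(1 / 2 : ℝ) * √2 = 1 := by
  rw [← Real.sqrt_mul (by norm_num)]
  norm_num

/-- the sections of the first set -/
private def Sc (u : ℝ) : Set (Fin 2 → ℝ) :=
  {v | 0 ≤ v 0 ∧ v 0 ≤ u ∧ u ≤ v 1 ∧ 2 * u ^ 2 + v 0 ^ 2 + v 1 ^ 2 ≤ 1 / 2}

private theorem Sc_sub (u : ℝ) (v : Fin 2 → ℝ) (hv : v ∈ Sc u) :
    u ∈ Set.Icc (0 : ℝ) (41 / 100) ∧
    v ∈ Set.Icc ![0, u] ![u, 70711 / 100000 - 14142 / 10000 * u ^ 2] := by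
  obtain ⟨h1, h2, h3, h4⟩ := hv
  have hu0 : 0 ≤ u := h1.trans h2
  have h5 : u ^ 2 ≤ 1 / 6 := by nlinarith
  have h6 : u ≤ 41 / 100 := by nlinarith
  have h7 : v 1 ≤ √(1 / 2) - √2 * u ^ 2 := by
    have h8 : 0 ≤ √(1 / 2 : ℝ) - √2 * u ^ 2 := by
      have h9 : √2 * u ^ 2 ≤ √2 * (1 / 2) := by gcongr; linarith
      have h10 : √(2 : ℝ) * (1 / 2) = √(1 / 2) := by
        have h11 : √(1 / 2 : ℝ) * √2 * √2 = √2 := by rw [Thr_prod, one_mul]
        have h12 : √(1 / 2 : ℝ) * √2 * √2 = √(1 / 2) * √2 ^ 2 := by ring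
        rw [Thr_sq2] at h12
        linarith
      linarith
    refine le_of_sq_le_sq ?_ h8
    have h12 : (√(1 / 2 : ℝ) - √2 * u ^ 2) ^ 2 =
        √(1 / 2) ^ 2 - 2 * (√(1 / 2) * √2) * u ^ 2 + √2 ^ 2 * u ^ 4 := by ring
    rw [h12, Thr_sq1, Thr_prod, Thr_sq2]
    nlinarith [sq_nonneg (u ^ 2), sq_nonneg (v 0)]
  have h13 : √2 * u ^ 2 ≥ 14142 / 10000 * u ^ 2 := by
    have := Thr_bd2
    gcongr
  have h14 := Thr_bd1
  refine ⟨⟨hu0, h6⟩, ?_⟩
  rw [Set.mem_Icc, Pi.le_def, Pi.le_def, Fin.forall_fin_two, Fin.forall_fin_two]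
  refine ⟨⟨h1, h3⟩, h2, ?_⟩
  show v 1 ≤ 70711 / 100000 - 14142 / 10000 * u ^ 2
  linarith

private theorem Sc_vol (u : ℝ) :
    volume (Sc u) ≤ (Set.Icc (0 : ℝ) (41 / 100)).indicator
      (fun u => ENNReal.ofReal (u * (70711 / 100000 - 14142 / 10000 * u ^ 2 - u))) u := by
  by_cases hu : u ∈ Set.Icc (0 : ℝ) (41 / 100)
  · rw [Set.indicator_of_mem hu]
    refine (measure_mono fun v hv => (Sc_sub u v hv).2).trans ?_
    rw [Real.volume_Icc_pi, Fin.prod_univ_two]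
    show ENNReal.ofReal (u - 0) * ENNReal.ofReal (70711 / 100000 - 14142 / 10000 * u ^ 2 - u) ≤ _
    rw [sub_zero, ENNReal.ofReal_mul hu.1]
  · have : Sc u = ∅ := Set.eq_empty_of_forall_notMem fun v hv => hu (Sc_sub u v hv).1
    rw [this, measure_empty]
    exact zero_le

private theorem Thr_int : ∫ u in (0 : ℝ)..(41 / 100),
    u * (70711 / 100000 - 14142 / 10000 * u ^ 2 - u) ≤ 53 / 2000 := by
  have h : ∀ u : ℝ, u * (70711 / 100000 - 14142 / 10000 * u ^ 2 - u) =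
      70711 / 100000 * u - 14142 / 10000 * u ^ 3 - u ^ 2 := fun u => by ring
  simp only [h]
  rw [intervalIntegral.integral_sub, intervalIntegral.integral_sub,
    intervalIntegral.integral_const_mul, intervalIntegral.integral_const_mul, integral_id,
    integral_pow, integral_pow]
  · norm_num
  all_goals exact Continuous.intervalIntegrable (by fun_prop) _ _

theorem tThr : S_Thr := by
  constructor
  · set S : Set (ℝ × (Fin 2 → ℝ)) := {p | 0 ≤ p.2 0 ∧ p.2 0 ≤ p.1 ∧ p.1 ≤ p.2 1 ∧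
      2 * p.1 ^ 2 + p.2 0 ^ 2 + p.2 1 ^ 2 ≤ 1 / 2} with hS
    have hSm : MeasurableSet S := by
      have m1 : MeasurableSet {p : ℝ × (Fin 2 → ℝ) | 0 ≤ p.2 0} :=
        measurableSet_le measurable_const (by fun_prop)
      have m2 : MeasurableSet {p : ℝ × (Fin 2 → ℝ) | p.2 0 ≤ p.1} :=
        measurableSet_le (by fun_prop) (by fun_prop)
      have m3 : MeasurableSet {p : ℝ × (Fin 2 → ℝ) | p.1 ≤ p.2 1} :=
        measurableSet_le (by fun_prop) (by fun_prop)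
      have m4 : MeasurableSet {p : ℝ × (Fin 2 → ℝ) |
          2 * p.1 ^ 2 + p.2 0 ^ 2 + p.2 1 ^ 2 ≤ 1 / 2} :=
        measurableSet_le (by fun_prop) measurable_const
      exact m1.inter (m2.inter (m3.inter m4))
    have hmp := volume_preserving_piFinSuccAbove (fun _ : Fin 3 => ℝ) 0
    have hpre : {w : Fin 3 → ℝ | 0 ≤ w 1 ∧ w 1 ≤ w 0 ∧ w 0 ≤ w 2 ∧
        2 * w 0 ^ 2 + w 1 ^ 2 + w 2 ^ 2 ≤ 1 / 2} =
        (MeasurableEquiv.piFinSuccAbove (fun _ : Fin 3 => ℝ) 0) ⁻¹' S := by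
      ext w
      rfl
    rw [hpre, hmp.measure_preimage hSm.nullMeasurableSet]
    have hvol : (volume : Measure (ℝ × (Fin 2 → ℝ))) = volume.prod volume := rfl
    rw [hvol, Measure.prod_apply hSm]
    have h1 : ∫⁻ u : ℝ, volume (Prod.mk u ⁻¹' S) ≤
        ∫⁻ u : ℝ, (Set.Icc (0 : ℝ) (41 / 100)).indicator
          (fun u => ENNReal.ofReal (u * (70711 / 100000 - 14142 / 10000 * u ^ 2 - u))) u :=
      lintegral_mono fun u => Sc_vol u
    refine h1.trans ?_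
    rw [lintegral_indicator measurableSet_Icc]
    have h0 : ∀ u ∈ Set.Icc (0 : ℝ) (41 / 100),
        0 ≤ u * (70711 / 100000 - 14142 / 10000 * u ^ 2 - u) := by
      intro u hu
      refine mul_nonneg hu.1 ?_
      have := hu.2
      have := hu.1
      nlinarith
    rw [← ofReal_integral_eq_lintegral_ofReal]
    · refine ENNReal.ofReal_le_ofReal ?_
      rw [integral_Icc_eq_integral_Ioc, ← intervalIntegral.integral_of_le (by norm_num)]
      exact Thr_int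
    · exact (Continuous.integrableOn_Icc (by fun_prop))
    · exact (ae_restrict_iff' measurableSet_Icc).2 (Filter.Eventually.of_forall h0)
  · have hs0 : 0 ≤ √(1 / 2 : ℝ) := Real.sqrt_nonneg _
    have hs := Thr_sq1
    have h1 : {w : Fin 3 → ℝ | 0 ≤ w 0 ∧ w 0 ≤ w 1 ∧ w 0 ≤ w 2 ∧
        2 * w 0 ^ 2 + w 1 ^ 2 + w 2 ^ 2 ≤ 1 / 2} ⊆
        Set.Icc ![0, 0, 0] ![√(1 / 2) / 2, √(1 / 2), √(1 / 2)] := by
      rintro w ⟨h1, h2, h3, h4⟩
      have h5 : w 0 ≤ √(1 / 2) / 2 := by nlinarith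
      have h6 : w 1 ≤ √(1 / 2) := Real.le_sqrt_of_sq_le (by nlinarith)
      have h7 : w 2 ≤ √(1 / 2) := Real.le_sqrt_of_sq_le (by nlinarith)
      rw [Set.mem_Icc, Pi.le_def, Pi.le_def]
      constructor
      · intro i
        fin_cases i
        · exact h1
        · exact h1.trans h2
        · exact h1.trans h3
      · intro i
        fin_cases i
        · exact h5
        · exact h6
        · exact h7
    refine (measure_mono h1).trans ?_
    rw [Real.volume_Icc_pi, Fin.prod_univ_three]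
    show ENNReal.ofReal (√(1 / 2) / 2 - 0) * ENNReal.ofReal (√(1 / 2) - 0) *
      ENNReal.ofReal (√(1 / 2) - 0) ≤ _
    rw [sub_zero, sub_zero, ← ENNReal.ofReal_mul (by positivity),
      ← ENNReal.ofReal_mul (by positivity)]
    refine ENNReal.ofReal_le_ofReal ?_
    have h8 : √(1 / 2 : ℝ) / 2 * √(1 / 2) * √(1 / 2) = √(1 / 2) ^ 2 * √(1 / 2) / 2 := by ring
    rw [h8, hs]
    have := Thr_bd1
    linarith

end Pool.Agent.Ssg
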