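import Pool.Agent.Lib.MP_5c10a1_co.Spec

/-!
# MP_5c10a1_co: the volume of the positive part
-/

set_option autoImplicit false

namespace Pool.Agent.Ssg

open MeasureTheory Metric

namespace TotM

/-- The union over a list. -/
lemma bU (hPerm : S_Perm) (C : (Fin 4 → ℝ) → Set (Fin 4 → ℝ)) (L : Finset (Fin 4 → Fin 4))
    (hL : ∀ e ∈ L, Function.Bijective e) :
    volume {x | ∃ e ∈ L, x ∈ Pc C e} ≤ ∑ e ∈ L, volume (C (T ∘ e)) := by
  have h1 : {x | ∃ e ∈ L, x ∈ Pc C e} ⊆ ⋃ e ∈ L, Pc C e := by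
    rintro x ⟨e, he, hx⟩
    exact Set.mem_biUnion he hx
  refine (measure_mono h1).trans ((measure_biUnion_finset_le L _).trans ?_)
  exact Finset.sum_le_sum fun e he => (hPerm e (hL e he) (C (T ∘ e))).le

/-- `L1`. -/
lemma bL1 (hPerm : S_Perm) (C : (Fin 4 → ℝ) → Set (Fin 4 → ℝ)) (a b : ℝ) (ha : 0 ≤ a) (hb : 0 ≤ b)
    (h1 : volume (C ![16, 16, 16, 17]) ≤ ENNReal.ofReal a)
    (h2 : volume (C ![17, 16, 16, 16]) ≤ ENNReal.ofReal b) :
    volume {x | ∃ e ∈ L1, x ∈ Pc C e} ≤ ENNReal.ofReal (a + 3 * b) := by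
  refine (bU hPerm C L1 (by decide +kernel)).trans ?_
  have e1 : T ∘ ![1, 2, 3, 0] = ![16, 16, 16, 17] := by funext i; fin_cases i <;> rfl
  have e2 : T ∘ ![0, 2, 3, 1] = ![17, 16, 16, 16] := by funext i; fin_cases i <;> rfl
  have e3 : T ∘ ![0, 1, 3, 2] = ![17, 16, 16, 16] := by funext i; fin_cases i <;> rfl
  have e4 : T ∘ ![0, 1, 2, 3] = ![17, 16, 16, 16] := by funext i; fin_cases i <;> rfl
  rw [L1, Finset.sum_insert (by decide), Finset.sum_insert (by decide),
    Finset.sum_insert (by decide), Finset.sum_singleton, e1, e2, e3, e4]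
  rw [show a + 3 * b = a + (b + (b + b)) by ring, ENNReal.ofReal_add ha (by positivity),
    ENNReal.ofReal_add hb (by positivity), ENNReal.ofReal_add hb hb]
  gcongr

/-- Lists of three, all the same. -/
lemma b3 (hPerm : S_Perm) (C : (Fin 4 → ℝ) → Set (Fin 4 → ℝ)) (L : Finset (Fin 4 → Fin 4))
    (hL : ∀ e ∈ L, Function.Bijective e) (n : ℕ) (hn : L.card = n) (t : Fin 4 → ℝ)
    (ht : ∀ e ∈ L, T ∘ e = t) (b : ℝ) (h2 : volume (C t) ≤ ENNReal.ofReal b) :
    volume {x | ∃ e ∈ L, x ∈ Pc C e} ≤ ENNReal.ofReal (n * b) := by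
  refine (bU hPerm C L hL).trans ?_
  calc ∑ e ∈ L, volume (C (T ∘ e)) ≤ ∑ _e ∈ L, ENNReal.ofReal b :=
        Finset.sum_le_sum fun e he => by rw [ht e he]; exact h2
    _ = ENNReal.ofReal (n * b) := by
      rw [Finset.sum_const, hn, nsmul_eq_mul, ENNReal.ofReal_mul (Nat.cast_nonneg _),
        ENNReal.ofReal_natCast]

lemma tL2 : ∀ e ∈ L2, T ∘ e = ![17, 16, 16, 16] := by
  intro e he
  simp only [L2, Finset.mem_insert, Finset.mem_singleton] at he
  rcases he with rfl | rfl | rfl <;> (funext i; fin_cases i <;> rfl)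

lemma tL3 : ∀ e ∈ L3, T ∘ e = ![16, 16, 16, 17] := by
  intro e he
  simp only [L3, Finset.mem_insert, Finset.mem_singleton] at he
  rcases he with rfl | rfl | rfl <;> (funext i; fin_cases i <;> rfl)

lemma tL4 : ∀ e ∈ L4, T ∘ e = ![16, 16, 17, 16] := by
  intro e he
  simp only [L4, Finset.mem_insert, Finset.mem_singleton] at he
  rcases he with rfl | rfl | rfl <;> (funext i; fin_cases i <;> rfl)

lemma tL5 : ∀ e ∈ L5, T ∘ e = ![17, 16, 16, 16] := by
  intro e he
  simp only [L5, Finset.mem_insert, Finset.mem_singleton] at he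
  rcases he with rfl | rfl | rfl | rfl | rfl | rfl <;> (funext i; fin_cases i <;> rfl)

lemma tL6 : ∀ e ∈ L6, T ∘ e = ![16, 17, 16, 16] := by
  intro e he
  simp only [L6, Finset.mem_insert, Finset.mem_singleton] at he
  rcases he with rfl | rfl | rfl <;> (funext i; fin_cases i <;> rfl)

/-- Two sets. -/
lemma bAdd (A B : Set (Fin 4 → ℝ)) (a b : ℝ) (ha : 0 ≤ a) (hb : 0 ≤ b)
    (hA : volume A ≤ ENNReal.ofReal a) (hB : volume B ≤ ENNReal.ofReal b) :
    volume (A ∪ B) ≤ ENNReal.ofReal (a + b) := by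
  rw [ENNReal.ofReal_add ha hb]
  exact (measure_union_le _ _).trans (add_le_add hA hB)

end TotM

open TotM in
/-- **Tot**. -/
theorem tTot : S_Cov → S_Perm → S_VI → S_V400 → S_V310 → S_V301 → S_V211 → S_VS → S_Tot := by
  intro hCov hPerm hVI hV400 hV310 hV301 hV211 hVS
  obtain ⟨i0, i1a, i1b, i2⟩ := hVI
  obtain ⟨c310a, c310b⟩ := hV310
  obtain ⟨c301a, c301b⟩ := hV301
  obtain ⟨c211a, c211b, c211c⟩ := hV211
  obtain ⟨c202, c112a, c112b, w⟩ := hVS
  have hpi := Real.pi_pos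
  have h1 := bL1 hPerm I1 _ _ (by positivity) (by positivity) i1a i1b
  have h2 := b3 hPerm I2 L2 (by decide +kernel) 3 (by decide) _ tL2 _ i2
  have h3 := bL1 hPerm C310 _ _ (by positivity) (by positivity) c310a c310b
  have h4 := bL1 hPerm C301 _ _ (by positivity) (by positivity) c301a c301b
  have h5 := b3 hPerm C211 L3 (by decide +kernel) 3 (by decide) _ tL3 _ c211a
  have h6 := b3 hPerm C211 L4 (by decide +kernel) 3 (by decide) _ tL4 _ c211b
  have h7 := b3 hPerm C211 L5 (by decide +kernel) 6 (by decide) _ tL5 _ c211c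
  have h8 := b3 hPerm C202 L2 (by decide +kernel) 3 (by decide) _ tL2 _ c202
  have h9 := b3 hPerm C112 L2 (by decide +kernel) 3 (by decide) _ tL2 _ c112a
  have h10 := b3 hPerm C112 L6 (by decide +kernel) 3 (by decide) _ tL6 _ c112b
  have h11 := b3 hPerm W L3 (by decide +kernel) 3 (by decide) _ tL3 _ w
  have hall := bAdd _ _ _ _ (by positivity) (by positivity) i0 <|
    bAdd _ _ _ _ (by positivity) (by positivity) h1 <|
    bAdd _ _ _ _ (by positivity) (by positivity) h2 <|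
    bAdd _ _ _ _ (by positivity) (by positivity) hV400 <|
    bAdd _ _ _ _ (by positivity) (by positivity) h3 <|
    bAdd _ _ _ _ (by positivity) (by positivity) h4 <|
    bAdd _ _ _ _ (by positivity) (by positivity) h5 <|
    bAdd _ _ _ _ (by positivity) (by positivity) h6 <|
    bAdd _ _ _ _ (by positivity) (by positivity) h7 <|
    bAdd _ _ _ _ (by positivity) (by positivity) h8 <|
    bAdd _ _ _ _ (by positivity) (by positivity) h9 <|
    bAdd _ _ _ _ (by positivity) (by positivity) h10 h11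
  refine (measure_mono ?_).trans (hall.trans (ENNReal.ofReal_le_ofReal ?_))
  · intro x hx
    exact hCov x hx
  · push_cast
    linarith

end Pool.Agent.Ssg
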