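import Pool.Agent.Lib.MP_5c10a1_co.Spec

/-! # MP_5c10a1_co: the pieces `C211` -/

set_option autoImplicit false

namespace Pool.Agent.Ssg

open MeasureTheory Metric

namespace V211M

/-- The matrix of the change of coordinates. -/
def M : Matrix (Fin 4) (Fin 4) ℝ :=
  Matrix.of ![![-1, 1, 0, 0], ![1, 1, 0, 0], ![0, 0, 1, 0], ![0, 0, 0, 1]]

theorem det_M : M.det = -2 := by
  simp [M, Matrix.det_succ_row_zero, Fin.sum_univ_succ]
  have h : (![0, 0, 0, 1] : Fin 4 → ℝ) (Fin.succAbove 1 2) = 1 := rfl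
  rw [h]
  norm_num

theorem key (hL : S_Lin) (hP : S_Pr) (hT : S_Thr) (t : Fin 4 → ℝ) (a b : ℝ) (hab : a ≤ b)
    (h : ∀ x ∈ C211 t, ∀ u : ℝ, u ≤ x 0 → x 0 ≤ t 0 + u → u ≤ x 1 → x 1 ≤ t 1 + u →
      x 0 + x 1 = 33 - t 3 + 2 * u → a ≤ x 1 - u ∧ x 1 - u ≤ b) :
    volume (C211 t) ≤ ENNReal.ofReal (2 * (b - a) * (53 / 2000)) := by
  have h1 := hL M ![33 - t 3, 0, 0, t 3]
    {u : Fin 4 → ℝ | u 0 ∈ Set.Icc a b ∧ ![u 1, u 2, u 3] ∈ {w : Fin 3 → ℝ | 0 ≤ w 1 ∧ w 1 ≤ w 0 ∧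
      w 0 ≤ w 2 ∧ 2 * w 0 ^ 2 + w 1 ^ 2 + w 2 ^ 2 ≤ 1 / 2}} (C211 t) ?_
  · refine h1.trans ?_
    rw [hP.1, det_M]
    have h2 := hT.1
    calc ENNReal.ofReal |(-2 : ℝ)| * (volume (Set.Icc a b) * volume {w : Fin 3 → ℝ | 0 ≤ w 1 ∧
          w 1 ≤ w 0 ∧ w 0 ≤ w 2 ∧ 2 * w 0 ^ 2 + w 1 ^ 2 + w 2 ^ 2 ≤ 1 / 2})
        ≤ ENNReal.ofReal |(-2 : ℝ)| * (volume (Set.Icc a b) * ENNReal.ofReal (53 / 2000)) := by
          gcongr
      _ = ENNReal.ofReal (2 * (b - a) * (53 / 2000)) := by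
          rw [Real.volume_Icc, abs_neg, abs_of_pos (by norm_num : (0 : ℝ) < 2),
            ← ENNReal.ofReal_mul (by linarith), ← ENNReal.ofReal_mul (by norm_num)]
          congr 1
          ring
  · intro x hx
    obtain ⟨u, hu, h0, h0', h1, h1', hs, h2, h2', h3, hq⟩ := id hx
    refine ⟨![x 1 - u, u, x 2, x 3 - t 3], ⟨?_, ?_⟩, ?_⟩
    · have := h x hx u h0 h0' h1 h1' hs
      simpa using this
    · refine ⟨?_, ?_, ?_, ?_⟩
      · simpa using h2
      · simpa using h2'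
      · simp
        linarith
      · simpa using hq
    · funext i
      fin_cases i
      · simp [M, Matrix.mulVec, dotProduct, Fin.sum_univ_succ]
        linarith
      · simp [M, Matrix.mulVec, dotProduct, Fin.sum_univ_succ]
      · simp [M, Matrix.mulVec, dotProduct, Fin.sum_univ_succ]
      · simp [M, Matrix.mulVec, dotProduct, Fin.sum_univ_succ]

end V211M

theorem tV211 : S_Lin → S_Pr → S_Thr → S_V211 := by
  intro hL hP hT
  refine ⟨?_, ?_, ?_⟩
  · have h := V211M.key hL hP hT ![16, 16, 16, 17] 0 16 (by norm_num) ?_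
    · refine h.trans (le_of_eq ?_)
      congr 1
      norm_num
    · intro x _ u h0 h0' h1 h1' hs
      simp at h0' h1' hs
      constructor <;> linarith
  · have h := V211M.key hL hP hT ![16, 16, 17, 16] 1 16 (by norm_num) ?_
    · refine h.trans (le_of_eq ?_)
      congr 1
      norm_num
    · intro x _ u h0 h0' h1 h1' hs
      simp at h0' h1' hs
      constructor <;> linarith
  · have h := V211M.key hL hP hT ![17, 16, 16, 16] 0 16 (by norm_num) ?_
    · refine h.trans (le_of_eq ?_)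
      congr 1
      norm_num
    · intro x _ u h0 h0' h1 h1' hs
      simp at h0' h1' hs
      constructor <;> linarith

end Pool.Agent.Ssg
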