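import Pool.Agent.Lib.MP_5c10a1_co.Spec

/-!
# MP_5c10a1_co: the piece V301
-/

set_option autoImplicit false

namespace Pool.Agent.Ssg

open MeasureTheory Metric

namespace V301

/-- the matrix of the change of variables -/
private def M : Matrix (Fin 4) (Fin 4) ℝ :=
  !![1, 0, -1, -1; 1, 0, 1, 0; 1, 0, 0, 1; 0, 1, 0, 0]

private theorem det_M : M.det = 3 := by
  unfold M
  rw [Matrix.det_succ_row_zero]
  simp [Fin.sum_univ_succ, Matrix.det_fin_three, Matrix.submatrix, Fin.succAbove]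
  norm_num

private def A : Set (Fin 2 → ℝ) :=
  {w : Fin 2 → ℝ | 0 ≤ w 0 ∧ w 0 ≤ w 1 ∧ 3 * w 0 ^ 2 + w 1 ^ 2 ≤ 1 / 2}

private def B (b : ℝ) : Set (Fin 2 → ℝ) :=
  {q : Fin 2 → ℝ | (∀ i, 0 ≤ q i ∧ q i ≤ (![16, 16] : Fin 2 → ℝ) i) ∧ ∑ i, q i ≤ b}

private theorem key (hLin : S_Lin) (hPr : S_Pr) (hBox : S_Box) (hSec : S_Sec)
    (t : Fin 4 → ℝ) (b : ℝ) (h1 : t 1 = 16) (h2 : t 2 = 16) (h3 : t 3 = 33 - b) :
    volume (C301 t) ≤ ENNReal.ofReal 3 *
      (ENNReal.ofReal (√3 * Real.pi / 36) * ENNReal.ofReal (G [16, 16] 0 b)) := by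
  have hL := hLin M ![33 - t 3, 0, 0, t 3]
    {u : Fin 4 → ℝ | ![u 0, u 1] ∈ A ∧ ![u 2, u 3] ∈ B b} (C301 t) ?_
  · rw [det_M, abs_of_pos (by norm_num : (0 : ℝ) < 3), hPr.2 A (B b)] at hL
    refine hL.trans ?_
    have hA : volume A ≤ ENNReal.ofReal (√3 * Real.pi / 36) := hSec.2.2
    have hB : volume (B b) = ENNReal.ofReal (G [16, 16] 0 b) := by
      have := hBox.1 2 ![16, 16] (by intro i; fin_cases i <;> norm_num) b
      simpa [B, List.ofFn_succ] using this
    rw [hB]
    gcongr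
  · rintro x ⟨u, hu, h4, h5, h6, h7, h8, h9, h10, h11, h12⟩
    refine ⟨![u, x 3 - t 3, x 1 - u, x 2 - u], ⟨?_, ?_⟩, ?_⟩
    · refine ⟨?_, ?_, ?_⟩
      · simpa using hu
      · simp
        linarith
      · simpa using h12
    · refine ⟨?_, ?_⟩
      · intro i
        fin_cases i
        · simp
          constructor <;> linarith
        · simp
          constructor <;> linarith
      · simp [Fin.sum_univ_two]
        linarith
    · funext i
      fin_cases i
      · simp [M, Matrix.mulVec, dotProduct, Fin.sum_univ_four]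
        linarith
      · simp [M, Matrix.mulVec, dotProduct, Fin.sum_univ_four]
      · simp [M, Matrix.mulVec, dotProduct, Fin.sum_univ_four]
      · simp [M, Matrix.mulVec, dotProduct, Fin.sum_univ_four]

end V301

/-- **V301**. -/
theorem tV301 : S_Lin → S_Pr → S_Box → S_Sec → S_V301 := by
  intro hLin hPr hBox hSec
  constructor
  · refine (V301.key hLin hPr hBox hSec ![16, 16, 16, 17] 16 (by simp) (by simp)
      (by simp; norm_num)).trans ?_
    rw [← ENNReal.ofReal_mul (by positivity), ← ENNReal.ofReal_mul (by norm_num)]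
    apply ENNReal.ofReal_le_ofReal
    have : G [16, 16] 0 16 = 128 := by norm_num [G, pw, Nat.factorial]
    rw [this]
    apply le_of_eq
    ring
  · refine (V301.key hLin hPr hBox hSec ![17, 16, 16, 16] 17 (by simp) (by simp)
      (by simp; norm_num)).trans ?_
    rw [← ENNReal.ofReal_mul (by positivity), ← ENNReal.ofReal_mul (by norm_num)]
    apply ENNReal.ofReal_le_ofReal
    have : G [16, 16] 0 17 = 287 / 2 := by norm_num [G, pw, Nat.factorial]
    rw [this]
    apply le_of_eq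
    ring

end Pool.Agent.Ssg
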