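import Pool.Agent.Lib.MP_5c10a1_co.Spec

set_option autoImplicit false
set_option linter.all false

/-! Module V310. -/

namespace Pool.Agent.Ssg

open MeasureTheory Metric

namespace V310

/-- The matrix. -/
def M : Matrix (Fin 4) (Fin 4) ℝ := !![1, 0, -1, -1; 1, 0, 1, 0; 1, 0, 0, 1; 0, 1, 0, 0]

theorem detM : |M.det| = 3 := by
  have h : M.det = 3 ∨ M.det = -3 := by
    simp [M, Matrix.det_succ_row_zero, Fin.sum_univ_succ, Fin.succAbove]
    norm_num
  rcases h with h | h <;> rw [h] <;> norm_num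

theorem G33 : G [16, 16] 0 33 = 256 := by norm_num [G, pw, Nat.factorial]

theorem G17 : G [16, 16] 0 17 = 287 / 2 := by norm_num [G, pw, Nat.factorial]

theorem G16 : G [16, 16] 0 16 = 128 := by norm_num [G, pw, Nat.factorial]

theorem aux (hLin : S_Lin) (hPr : S_Pr) (hBox : S_Box) (hSec : S_Sec) (t : Fin 4 → ℝ)
    (h1 : t 1 = 16) (h2 : t 2 = 16) (a c : ℝ) (h0 : t 0 = 33 - a) (ha : a ≤ 33)
    (hG : G [16, 16] 0 33 - G [16, 16] 0 a = c) (hc : 0 ≤ c) :
    volume (C310 t) ≤ ENNReal.ofReal (c / 24 * (√3 * Real.pi)) := by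
  let A : Set (Fin 2 → ℝ) := {w | 0 ≤ w 1 ∧ w 1 ≤ w 0 ∧ 3 * w 0 ^ 2 + w 1 ^ 2 ≤ 1 / 2}
  let B : Set (Fin 2 → ℝ) := {q | (∀ i, 0 ≤ q i ∧ q i ≤ (![16, 16] : Fin 2 → ℝ) i) ∧
    a ≤ ∑ i, q i ∧ ∑ i, q i ≤ 33}
  have hA : volume A ≤ ENNReal.ofReal (√3 * Real.pi / 72) := hSec.2.1
  have hB : volume B = ENNReal.ofReal c := by
    have h := hBox.2 1 ![16, 16] (by intro i; fin_cases i <;> norm_num) a 33 ha
    rw [← hG]
    exact h
  have hU := hPr.2 A B
  have hL := hLin M ![33, 0, 0, 0] {u : Fin 4 → ℝ | ![u 0, u 1] ∈ A ∧ ![u 2, u 3] ∈ B} (C310 t) ?_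
  · rw [hU, hB, detM] at hL
    refine hL.trans ?_
    have h3 : c / 24 * (√3 * Real.pi) = 3 * (√3 * Real.pi / 72 * c) := by ring
    rw [h3, ENNReal.ofReal_mul (by norm_num), ENNReal.ofReal_mul (by positivity)]
    gcongr
  · rintro x ⟨u, hu, hx0, hx0', hx1, hx1', hx2, hx2', hs, hx3, hx3', hq⟩
    refine ⟨![u, x 3, x 1 - u, x 2 - u], ⟨?_, ?_⟩, ?_⟩
    · exact ⟨hx3, hx3', hq⟩
    · refine ⟨?_, ?_, ?_⟩
      · intro i
        fin_cases i
        · show 0 ≤ x 1 - u ∧ x 1 - u ≤ 16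
          constructor <;> linarith
        · show 0 ≤ x 2 - u ∧ x 2 - u ≤ 16
          constructor <;> linarith
      · rw [Fin.sum_univ_two]
        show a ≤ (x 1 - u) + (x 2 - u)
        linarith
      · rw [Fin.sum_univ_two]
        show (x 1 - u) + (x 2 - u) ≤ 33
        linarith
    · funext i
      fin_cases i
      · simp [M, Matrix.mulVec, dotProduct, Fin.sum_univ_succ]
        linarith
      · simp [M, Matrix.mulVec, dotProduct, Fin.sum_univ_succ]
      · simp [M, Matrix.mulVec, dotProduct, Fin.sum_univ_succ]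
      · simp [M, Matrix.mulVec, dotProduct, Fin.sum_univ_succ]

end V310

theorem tV310 : S_Lin → S_Pr → S_Box → S_Sec → S_V310 := by
  intro hLin hPr hBox hSec
  constructor
  · have h := V310.aux hLin hPr hBox hSec ![16, 16, 16, 17] rfl rfl 17
      (225 / 2) (by show (16 : ℝ) = 33 - 17; norm_num) (by norm_num) (by rw [V310.G33, V310.G17]; norm_num) (by norm_num)
    have h2 : (225 / 2 / 24 : ℝ) = 75 / 16 := by norm_num
    rw [h2] at h
    exact h
  · have h := V310.aux hLin hPr hBox hSec ![17, 16, 16, 16] rfl rfl 16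
      128 (by show (17 : ℝ) = 33 - 16; norm_num) (by norm_num) (by rw [V310.G33, V310.G16]; norm_num) (by norm_num)
    have h2 : (128 / 24 : ℝ) = 16 / 3 := by norm_num
    rw [h2] at h
    exact h

end Pool.Agent.Ssg
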