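import Pool.Agent.Lib.MP_5c10a1_co.Spec

/-!
# MP_5c10a1_co: module V400
-/

set_option autoImplicit false

namespace Pool.Agent.Ssg

open MeasureTheory Metric

private theorem V400_G : G (List.ofFn ![(17 : ℝ), 16, 16]) 0 33 -
    G (List.ofFn ![(17 : ℝ), 16, 16]) 0 17 = 17105 / 6 := by
  have h : List.ofFn ![(17 : ℝ), 16, 16] = [17, 16, 16] := by simp [List.ofFn_succ]
  rw [h]
  norm_num [G, pw, Nat.factorial]

private theorem V400_det : (!![1, 1, 0, 0; 1, 0, 1, 0; 1, 0, 0, 1; 1, -1, -1, -1] :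
    Matrix (Fin 4) (Fin 4) ℝ).det = -4 := by
  rw [Matrix.det_succ_row_zero]
  simp [Fin.sum_univ_succ, Matrix.det_fin_three, Matrix.submatrix_apply, Fin.succAbove]
  norm_num

theorem tV400 : S_Lin → S_Pr → S_Box → S_V400 := by
  intro hLin hPr hBox
  have hs0 : 0 ≤ √(1 / 2 : ℝ) := Real.sqrt_nonneg _
  have hs2 : √(1 / 2 : ℝ) ^ 2 = 1 / 2 := Real.sq_sqrt (by norm_num)
  set I : Set ℝ := Set.Icc 0 (√(1 / 2) / 2) with hI
  set Q : Set (Fin 3 → ℝ) := {q | (∀ i, 0 ≤ q i ∧ q i ≤ ![(17 : ℝ), 16, 16] i) ∧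
    17 ≤ ∑ i, q i ∧ ∑ i, q i ≤ 33} with hQ
  have hlin := hLin !![1, 1, 0, 0; 1, 0, 1, 0; 1, 0, 0, 1; 1, -1, -1, -1] ![0, 0, 0, 33]
    {u : Fin 4 → ℝ | u 0 ∈ I ∧ ![u 1, u 2, u 3] ∈ Q} (C400 T) (by
    rintro x ⟨u, hu0, hx, hsum, hu2⟩
    have h0 := hx 0
    have h1 := hx 1
    have h2 := hx 2
    have h3 := hx 3
    have t0 : T 0 = 17 := rfl
    have t1 : T 1 = 16 := rfl
    have t2 : T 2 = 16 := rfl
    have t3 : T 3 = 16 := rfl
    rw [t0] at h0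
    rw [t1] at h1
    rw [t2] at h2
    rw [t3] at h3
    refine ⟨![u, x 0 - u, x 1 - u, x 2 - u], ⟨?_, ?_⟩, ?_⟩
    · show 0 ≤ u ∧ u ≤ √(1 / 2) / 2
      refine ⟨hu0, ?_⟩
      nlinarith
    · show (∀ i, 0 ≤ ![x 0 - u, x 1 - u, x 2 - u] i ∧
        ![x 0 - u, x 1 - u, x 2 - u] i ≤ ![(17 : ℝ), 16, 16] i) ∧
        17 ≤ ∑ i, ![x 0 - u, x 1 - u, x 2 - u] i ∧ ∑ i, ![x 0 - u, x 1 - u, x 2 - u] i ≤ 33
      refine ⟨?_, ?_⟩
      · intro i
        fin_cases i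
        · show 0 ≤ x 0 - u ∧ x 0 - u ≤ 17
          constructor <;> linarith
        · show 0 ≤ x 1 - u ∧ x 1 - u ≤ 16
          constructor <;> linarith
        · show 0 ≤ x 2 - u ∧ x 2 - u ≤ 16
          constructor <;> linarith
      · rw [Fin.sum_univ_three]
        show 17 ≤ x 0 - u + (x 1 - u) + (x 2 - u) ∧ x 0 - u + (x 1 - u) + (x 2 - u) ≤ 33
        constructor <;> linarith
    · funext i
      fin_cases i <;> simp [Matrix.mulVec, dotProduct, Fin.sum_univ_four] <;> linarith)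
  rw [hPr.1, V400_det] at hlin
  have hvQ : volume Q = ENNReal.ofReal (17105 / 6) := by
    rw [hQ, (hBox.2 2 ![(17 : ℝ), 16, 16] (by
      intro i
      fin_cases i <;> norm_num) 17 33 (by norm_num)), V400_G]
  rw [hvQ, hI, Real.volume_Icc, sub_zero, ← ENNReal.ofReal_mul (by positivity),
    ← ENNReal.ofReal_mul (abs_nonneg _)] at hlin
  refine hlin.trans (ENNReal.ofReal_le_ofReal (le_of_eq ?_))
  rw [show |(-4 : ℝ)| = 4 by norm_num]
  ring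

end Pool.Agent.Ssg
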