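import Pool.Agent.Lib.MP_5c10a1_co.Spec

/-!
# MP_5c10a1_co: module VI
-/

set_option autoImplicit false

namespace Pool.Agent.Ssg

open MeasureTheory Metric

private theorem VI_G0 : G (List.ofFn T) 0 33 = 869825 / 24 := by
  have h : List.ofFn T = [17, 16, 16, 16] := by simp [List.ofFn_succ, T]
  rw [h]
  norm_num [G, pw, Nat.factorial]

private theorem VI_G1 : G (List.ofFn ![(16 : ℝ), 16, 16]) 0 16 = 2048 / 3 := by
  have h : List.ofFn ![(16 : ℝ), 16, 16] = [16, 16, 16] := by simp [List.ofFn_succ]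
  rw [h]
  norm_num [G, pw, Nat.factorial]

private theorem VI_G2 : G (List.ofFn ![(17 : ℝ), 16, 16]) 0 17 = 1637 / 2 := by
  have h : List.ofFn ![(17 : ℝ), 16, 16] = [17, 16, 16] := by simp [List.ofFn_succ]
  rw [h]
  norm_num [G, pw, Nat.factorial]

private theorem VI_G3 : G (List.ofFn ![(17 : ℝ), 16]) 0 1 = 1 / 2 := by
  have h : List.ofFn ![(17 : ℝ), 16] = [17, 16] := by simp [List.ofFn_succ]
  rw [h]
  norm_num [G, pw, Nat.factorial]

private theorem VI_det : |(!![0, 1, 0, 0; 0, 0, 1, 0; 0, 0, 0, 1; 1, 0, 0, 0] :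
    Matrix (Fin 4) (Fin 4) ℝ).det| = 1 := by
  rw [Matrix.det_succ_row_zero]
  simp [Fin.sum_univ_succ, Matrix.det_fin_three, Matrix.submatrix_apply, Fin.succAbove]

private theorem VI_I1 (hLin : S_Lin) (hPr : S_Pr) (hBox : S_Box) (a b c d g : ℝ) (ha : 0 ≤ a)
    (hb : 0 ≤ b) (hc : 0 ≤ c)
    (hG : G (List.ofFn ![a, b, c]) 0 (33 - d) = g) :
    volume (I1 ![a, b, c, d]) ≤ ENNReal.ofReal (g * √(1 / 2)) := by
  have hs0 : 0 ≤ √(1 / 2 : ℝ) := Real.sqrt_nonneg _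
  set I : Set ℝ := Set.Icc 0 (√(1 / 2)) with hI
  set Q : Set (Fin 3 → ℝ) := {q | (∀ i, 0 ≤ q i ∧ q i ≤ ![a, b, c] i) ∧
    ∑ i, q i ≤ 33 - d} with hQ
  have hlin := hLin !![0, 1, 0, 0; 0, 0, 1, 0; 0, 0, 0, 1; 1, 0, 0, 0] ![0, 0, 0, d]
    {u : Fin 4 → ℝ | u 0 ∈ I ∧ ![u 1, u 2, u 3] ∈ Q} (I1 ![a, b, c, d]) (by
    rintro x ⟨h1, h2, h3, h4, h5, h6, h7, h8, h9⟩
    have t0 : ![a, b, c, d] 0 = a := rfl
    have t1 : ![a, b, c, d] 1 = b := rfl
    have t2 : ![a, b, c, d] 2 = c := rfl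
    have t3 : ![a, b, c, d] 3 = d := rfl
    rw [t0] at h2
    rw [t1] at h4
    rw [t2] at h6
    rw [t3] at h7 h8 h9
    refine ⟨![x 3 - d, x 0, x 1, x 2], ⟨?_, ?_⟩, ?_⟩
    · show 0 ≤ x 3 - d ∧ x 3 - d ≤ √(1 / 2)
      exact ⟨by linarith, Real.le_sqrt_of_sq_le h9⟩
    · show (∀ i, 0 ≤ ![x 0, x 1, x 2] i ∧ ![x 0, x 1, x 2] i ≤ ![a, b, c] i) ∧
        ∑ i, ![x 0, x 1, x 2] i ≤ 33 - d
      refine ⟨?_, ?_⟩
      · intro i
        fin_cases i
        · exact ⟨h1, h2⟩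
        · exact ⟨h3, h4⟩
        · exact ⟨h5, h6⟩
      · rw [Fin.sum_univ_three]
        exact h7
    · funext i
      fin_cases i <;> simp)
  rw [hPr.1, VI_det] at hlin
  have hvQ : volume Q = ENNReal.ofReal g := by
    rw [hQ, hBox.1 3 ![a, b, c] (by
      intro i
      fin_cases i
      · exact ha
      · exact hb
      · exact hc) (33 - d), hG]
  rw [hvQ, hI, Real.volume_Icc, sub_zero, ← ENNReal.ofReal_mul hs0,
    ← ENNReal.ofReal_mul zero_le_one] at hlin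
  refine hlin.trans (ENNReal.ofReal_le_ofReal (le_of_eq ?_))
  ring

theorem tVI : S_Lin → S_Pr → S_Box → S_Sec → S_VI := by
  intro hLin hPr hBox hSec
  refine ⟨?_, ?_, ?_, ?_⟩
  · have h := hBox.1 4 T (by
      intro i
      fin_cases i <;> norm_num [T]) 33
    rw [VI_G0] at h
    rw [← h]
    refine measure_mono ?_
    rintro x ⟨h1, h2⟩
    refine ⟨h1, ?_⟩
    rw [Fin.sum_univ_four]
    exact h2
  · exact VI_I1 hLin hPr hBox 16 16 16 17 _ (by norm_num) (by norm_num) (by norm_num) (by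
      rw [show (33 : ℝ) - 17 = 16 by norm_num]
      exact VI_G1)
  · exact VI_I1 hLin hPr hBox 17 16 16 16 _ (by norm_num) (by norm_num) (by norm_num) (by
      rw [show (33 : ℝ) - 16 = 17 by norm_num]
      exact VI_G2)
  · set A : Set (Fin 2 → ℝ) := {q | (∀ i, 0 ≤ q i ∧ q i ≤ ![(17 : ℝ), 16] i) ∧
      ∑ i, q i ≤ 1} with hA
    set B : Set (Fin 2 → ℝ) := {w | 0 ≤ w 0 ∧ 0 ≤ w 1 ∧ w 0 ^ 2 + w 1 ^ 2 ≤ 1 / 2} with hB
    have hlin := hLin 1 ![0, 0, 16, 16] {u : Fin 4 → ℝ | ![u 0, u 1] ∈ A ∧ ![u 2, u 3] ∈ B}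
      (I2 ![17, 16, 16, 16]) (by
      rintro x ⟨h1, h2, h3, h4, h5, h6, h7, h8⟩
      have t0 : ![(17 : ℝ), 16, 16, 16] 0 = 17 := rfl
      have t1 : ![(17 : ℝ), 16, 16, 16] 1 = 16 := rfl
      have t2 : ![(17 : ℝ), 16, 16, 16] 2 = 16 := rfl
      have t3 : ![(17 : ℝ), 16, 16, 16] 3 = 16 := rfl
      rw [t0] at h2
      rw [t1] at h4
      rw [t2, t3] at h5 h8
      rw [t2] at h6
      rw [t3] at h7
      refine ⟨![x 0, x 1, x 2 - 16, x 3 - 16], ⟨?_, ?_⟩, ?_⟩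
      · show (∀ i, 0 ≤ ![x 0, x 1] i ∧ ![x 0, x 1] i ≤ ![(17 : ℝ), 16] i) ∧
          ∑ i, ![x 0, x 1] i ≤ 1
        refine ⟨?_, ?_⟩
        · intro i
          fin_cases i
          · exact ⟨h1, h2⟩
          · exact ⟨h3, h4⟩
        · rw [Fin.sum_univ_two]
          show x 0 + x 1 ≤ 1
          linarith
      · show 0 ≤ x 2 - 16 ∧ 0 ≤ x 3 - 16 ∧ (x 2 - 16) ^ 2 + (x 3 - 16) ^ 2 ≤ 1 / 2
        exact ⟨by linarith, by linarith, h8⟩
      · funext i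
        fin_cases i <;> simp)
    rw [hPr.2, Matrix.det_one, abs_one] at hlin
    have hvA : volume A = ENNReal.ofReal (1 / 2) := by
      rw [hA, hBox.1 2 ![(17 : ℝ), 16] (by
        intro i
        fin_cases i <;> norm_num) 1, VI_G3]
    rw [hvA] at hlin
    refine hlin.trans ?_
    calc ENNReal.ofReal 1 * (ENNReal.ofReal (1 / 2) * volume B) ≤
        ENNReal.ofReal 1 * (ENNReal.ofReal (1 / 2) * ENNReal.ofReal (Real.pi / 8)) := by
          gcongr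
          exact hSec.1
      _ = ENNReal.ofReal (Real.pi / 16) := by
          rw [← ENNReal.ofReal_mul (by norm_num), ← ENNReal.ofReal_mul zero_le_one]
          congr 1
          ring

end Pool.Agent.Ssg
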