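import Pool.Agent.Lib.MP_5c10a1_co.Spec

/-!
# MP_5c10a1_co: the small pieces
-/

set_option autoImplicit false

namespace Pool.Agent.Ssg

open MeasureTheory Metric

namespace VSM

/-- A square. -/
lemma sq_vol (a : ℝ) (s : ℝ) (hs : 0 ≤ s) (hsa : s ^ 2 = a) :
    volume {w : Fin 2 → ℝ | 0 ≤ w 0 ∧ w 0 ≤ s ∧ 0 ≤ w 1 ∧ w 1 ≤ s} ≤ ENNReal.ofReal a := by
  have h1 : {w : Fin 2 → ℝ | 0 ≤ w 0 ∧ w 0 ≤ s ∧ 0 ≤ w 1 ∧ w 1 ≤ s} ⊆
      Set.Icc (fun _ => 0) (fun _ => s) := by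
    rintro w ⟨h1, h2, h3, h4⟩
    refine ⟨fun i => ?_, fun i => ?_⟩
    · fin_cases i
      · exact h1
      · exact h3
    · fin_cases i
      · exact h2
      · exact h4
  refine (measure_mono h1).trans ?_
  rw [Real.volume_Icc_pi]
  simp only [sub_zero, Fin.prod_univ_two]
  rw [← ENNReal.ofReal_mul hs, ← hsa, pow_two]

/-- A triangle. -/
lemma tri_vol (a : ℝ) (s : ℝ) (hs : 0 ≤ s) (hsa : s ^ 2 / 2 = a) :
    volume {w : Fin 2 → ℝ | 0 ≤ w 1 ∧ w 1 ≤ w 0 ∧ w 0 ≤ s} ≤ ENNReal.ofReal a := by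
  have hm := volume_preserving_finTwoArrow ℝ
  have hmeas : MeasurableSet {p : ℝ × ℝ | 0 ≤ p.2 ∧ p.2 ≤ p.1 ∧ p.1 ≤ s} := by
    refine IsClosed.measurableSet ?_
    exact (isClosed_le continuous_const continuous_snd).inter
      ((isClosed_le continuous_snd continuous_fst).inter
        (isClosed_le continuous_fst continuous_const))
  have h1 : {w : Fin 2 → ℝ | 0 ≤ w 1 ∧ w 1 ≤ w 0 ∧ w 0 ≤ s} =
      (MeasurableEquiv.finTwoArrow : (Fin 2 → ℝ) ≃ᵐ ℝ × ℝ) ⁻¹'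
        {p : ℝ × ℝ | 0 ≤ p.2 ∧ p.2 ≤ p.1 ∧ p.1 ≤ s} := by
    ext w
    rfl
  rw [h1, hm.measure_preimage hmeas.nullMeasurableSet, Measure.volume_eq_prod,
    Measure.prod_apply hmeas]
  have h2 : ∀ x : ℝ, volume (Prod.mk x ⁻¹' {p : ℝ × ℝ | 0 ≤ p.2 ∧ p.2 ≤ p.1 ∧ p.1 ≤ s}) ≤
      (Set.Icc 0 s).indicator (fun x => ENNReal.ofReal x) x := by
    intro x
    by_cases hx : x ∈ Set.Icc 0 s
    · rw [Set.indicator_of_mem hx]
      have : Prod.mk x ⁻¹' {p : ℝ × ℝ | 0 ≤ p.2 ∧ p.2 ≤ p.1 ∧ p.1 ≤ s} ⊆ Set.Icc 0 x := by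
        rintro y ⟨h1, h2, _⟩
        exact ⟨h1, h2⟩
      refine (measure_mono this).trans ?_
      rw [Real.volume_Icc, sub_zero]
    · rw [Set.indicator_of_notMem hx]
      have : Prod.mk x ⁻¹' {p : ℝ × ℝ | 0 ≤ p.2 ∧ p.2 ≤ p.1 ∧ p.1 ≤ s} = ∅ := by
        rw [Set.eq_empty_iff_forall_notMem]
        rintro y ⟨h1, h2, h3⟩
        exact hx ⟨le_trans h1 h2, h3⟩
      rw [this, measure_empty]
  refine (lintegral_mono h2).trans ?_
  rw [lintegral_indicator measurableSet_Icc, ← ofReal_integral_eq_lintegral_ofReal]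
  · rw [integral_Icc_eq_integral_Ioc, ← intervalIntegral.integral_of_le hs, integral_id, ← hsa]
    simp
  · exact (continuous_id.integrableOn_Icc).integrable
  · refine (ae_restrict_iff' measurableSet_Icc).2 (Filter.Eventually.of_forall fun x hx => hx.1)

/-- Products of two planar sets, a translate. -/
lemma prod_vol (hLin : S_Lin) (hPr : S_Pr) (C : Set (Fin 4 → ℝ)) (b : Fin 4 → ℝ)
    (A B : Set (Fin 2 → ℝ)) (r s : ℝ) (hr : 0 ≤ r)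
    (hA : volume A ≤ ENNReal.ofReal r) (hB : volume B ≤ ENNReal.ofReal s)
    (h : ∀ x ∈ C, ![x 0 - b 0, x 1 - b 1] ∈ A ∧ ![x 2 - b 2, x 3 - b 3] ∈ B) :
    volume C ≤ ENNReal.ofReal (r * s) := by
  refine (hLin 1 b {u | ![u 0, u 1] ∈ A ∧ ![u 2, u 3] ∈ B} C ?_).trans ?_
  · intro x hx
    refine ⟨x - b, h x hx, ?_⟩
    rw [Matrix.one_mulVec, sub_add_cancel]
  · rw [Matrix.det_one, abs_one, ENNReal.ofReal_one, one_mul, hPr.2 A B, ENNReal.ofReal_mul hr]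
    exact mul_le_mul' hA hB

lemma sqh : √(1 / 2 : ℝ) ^ 2 = 1 / 2 := Real.sq_sqrt (by norm_num)

lemma sqs : √(1 / 6 : ℝ) ^ 2 = 1 / 6 := Real.sq_sqrt (by norm_num)

lemma leh {a : ℝ} (h : a ^ 2 ≤ 1 / 2) : a ≤ √(1 / 2 : ℝ) := Real.le_sqrt_of_sq_le h

lemma les {a : ℝ} (h : 3 * a ^ 2 ≤ 1 / 2) : a ≤ √(1 / 6 : ℝ) :=
  Real.le_sqrt_of_sq_le (by linarith)

/-- `C112`, for `t 2 = t 3 = 16`. -/
lemma c112 (hLin : S_Lin) (hPr : S_Pr) (t : Fin 4 → ℝ) (h2 : t 2 = 16) (h3 : t 3 = 16) :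
    volume (C112 t) ≤ ENNReal.ofReal (1 / 24) := by
  have := prod_vol hLin hPr (C112 t) ![1, 0, 16, 16] _ _ (1 / 12) (1 / 2) (by norm_num)
    (tri_vol (1 / 12) (√(1 / 6)) (Real.sqrt_nonneg _) (by rw [sqs]; norm_num))
    (sq_vol (1 / 2) (√(1 / 2)) (Real.sqrt_nonneg _) sqh) ?_
  · rwa [show (1 / 12 * (1 / 2) : ℝ) = 1 / 24 by norm_num] at this
  · rintro x ⟨u, hu, hx0, hx1, hx1', hx2, hx3, hq⟩
    rw [h2, h3] at *
    have e0 : x 0 - 1 = u := by rw [hx0]; ring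
    have hd : u ≤ x 2 - 16 := by linarith
    have he : u ≤ x 3 - 16 := by linarith
    have hd2 : u ^ 2 ≤ (x 2 - 16) ^ 2 := by nlinarith
    have he2 : u ^ 2 ≤ (x 3 - 16) ^ 2 := by nlinarith
    simp only [Matrix.cons_val, Set.mem_ofPred_eq, sub_zero]
    refine ⟨⟨hx1, by rw [e0]; exact hx1', ?_⟩, by linarith, leh ?_, by linarith, leh ?_⟩
    · rw [e0]
      exact les (by nlinarith [sq_nonneg (x 1)])
    · nlinarith [sq_nonneg (x 1), sq_nonneg (x 3 - 16), sq_nonneg u]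
    · nlinarith [sq_nonneg (x 1), sq_nonneg (x 2 - 16), sq_nonneg u]

end VSM

open VSM in
/-- **VS**. -/
theorem tVS : S_Lin → S_Pr → S_Thr → S_VS := by
  intro hLin hPr hThr
  refine ⟨?_, c112 hLin hPr _ rfl rfl, c112 hLin hPr _ rfl rfl, ?_⟩
  · refine (hLin !![-1, 1, 0, 0; 1, 1, 0, 0; 0, 0, 1, 0; 0, 0, 0, 1] ![1, 0, 16, 16]
      {v | v 0 ∈ Set.Icc (0 : ℝ) 1 ∧ ![v 1, v 2, v 3] ∈ {w : Fin 3 → ℝ | 0 ≤ w 0 ∧ w 0 ≤ w 1 ∧
        w 0 ≤ w 2 ∧ 2 * w 0 ^ 2 + w 1 ^ 2 + w 2 ^ 2 ≤ 1 / 2}} _ ?_).trans ?_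
    · rintro x ⟨u, hu, hx0, hx1, hs, hx2, hx3, hq⟩
      simp only [Matrix.cons_val] at hs hx2 hx3 hq
      refine ⟨![x 1 - u, u, x 2 - 16, x 3 - 16], ?_, ?_⟩
      · simp only [Matrix.cons_val, Set.mem_ofPred_eq, Set.mem_Icc]
        exact ⟨⟨by linarith, by linarith⟩, hu, by linarith, by linarith, hq⟩
      · funext i
        fin_cases i <;> simp <;> linarith
    · rw [hPr.1]
      have hdet : (!![-1, 1, 0, 0; 1, 1, 0, 0; 0, 0, 1, 0; 0, 0, 0, 1] :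
          Matrix (Fin 4) (Fin 4) ℝ).det = -2 := by
        simp [Matrix.det_succ_row_zero, Fin.sum_univ_succ, Fin.succAbove]
        norm_num
      rw [hdet, Real.volume_Icc, ENNReal.ofReal_mul (by norm_num)]
      refine mul_le_mul' (by norm_num) ?_
      have := hThr.2
      simpa using this
  · have := prod_vol hLin hPr (W ![16, 16, 16, 17]) ![0, 0, 16, 17] _ _ (1 / 6) (1 / 2)
      (by norm_num)
      (sq_vol (1 / 6) (√(1 / 6)) (Real.sqrt_nonneg _) sqs)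
      (sq_vol (1 / 2) (√(1 / 2)) (Real.sqrt_nonneg _) sqh) ?_
    · rwa [show (1 / 6 * (1 / 2) : ℝ) = 1 / 12 by norm_num] at this
    · rintro x ⟨u, hx0, hx0', hx1, hx1', hx2, hx3, hq⟩
      simp only [Matrix.cons_val] at hx2 hx3 hq
      have hd : u ≤ x 2 - 16 := by linarith
      have he : u ≤ x 3 - 17 := by linarith
      simp only [Matrix.cons_val, Set.mem_ofPred_eq, sub_zero]
      refine ⟨⟨hx0, les ?_, hx1, les ?_⟩, by linarith, leh ?_, by linarith, leh ?_⟩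
      · nlinarith [sq_nonneg (x 1), mul_self_le_mul_self hx0 (hx0'.trans hd),
          mul_self_le_mul_self hx0 (hx0'.trans he)]
      · nlinarith [sq_nonneg (x 0), mul_self_le_mul_self hx1 (hx1'.trans hd),
          mul_self_le_mul_self hx1 (hx1'.trans he)]
      · nlinarith [sq_nonneg (x 1), sq_nonneg (x 3 - 17), sq_nonneg (x 0)]
      · nlinarith [sq_nonneg (x 1), sq_nonneg (x 2 - 16), sq_nonneg (x 0)]

end Pool.Agent.Ssg
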